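import Pool.Agent.Work.MP_8f87b2_h63.BWr
import Pool.Agent.Work.MP_8f87b2_h35.TyRqE
import Pool.Agent.Work.MP_8f87b2_h88.TyMar

/-!
MP_8f87b2_co: ALL gadgets whose words are words of windows with `q ≥ 1`, all parts of `R` at least 3, at most one part 3, at least
two parts (`PWb g`), against J1, J1 mirrored, S5, T, L, K, Km (words and inner words). Instances: `TyRq q` and `TyRqE q` (`q ≥ 1`),
`TyBw` (`c ≥ 3`), `TyMarA`, `TyMarB` over such a window.
-/

set_option autoImplicit false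
set_option linter.all false

namespace Pool.OddHC

open Finset Equiv BinaryTree Pool.Agent.Work.MP_8f87b2_co

variable {k q : ℕ} {F F' : Set (Cyc k)} {g g' : DG k} {R B S : BinaryTree Unit}

namespace H1

/-- the data: `q ≥ 1`, all parts of `R` at least 3, at most one part 3, at least two parts -/
structure PT (q : ℕ) (R B S : BinaryTree Unit) : Prop where
  pd : PD q R B S
  c3 : (OddHC.cont R).count 3 ≤ 1

theorem BD.pt {c : ℕ} (h : BD q c R B S) : PT q R B S where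
  pd := h.pd
  c3 := by
    by_cases e : c = 3
    · rw [← e, h.one]
    · rw [Multiset.count_eq_zero.2]
      · omega
      · intro h3
        have := h.c3
        have := h.cb
        rcases h.big 3 h3 with h4 | h4 <;> omega

/-- the words with a part 2 (`q = 1`) have at most one part 3 -/
theorem PT.count3 (h : PT q R B S) (hq : q = 1) {i : ℕ} (hi : i < 20)
    (h2 : 1 ≤ (OddHC.cont (W R (ch (q + 1)) B S i)).count 2) :
    (OddHC.cont (W R (ch (q + 1)) B S i)).count 3 ≤ 1 := by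
  obtain ⟨_, _, h3, _⟩ := h.pd.c12 hi
  obtain ⟨_, hj⟩ := h3 h2
  subst hq
  rw [cont_all h.pd.dat hi] at h2 ⊢
  have hR : (OddHC.cont R).count 3 ≤ 1 := h.c3
  have hsum : (OddHC.cont B).count 3 + (OddHC.cont S).count 3 = (OddHC.cont R).count 3 := by
    rw [← Multiset.count_add, h.pd.dat.cont]
  have hB0 : (OddHC.cont B).count 3 = 0 := by
    rw [Multiset.count_eq_zero]
    intro h4
    have := h.pd.dat.bare _ h4
    omega
  have sR : 1 + 3 ≤ (OddHC.cont R).sup := h.pd.supR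
  have sS : 1 + 3 ≤ (OddHC.cont S).sup := h.pd.supS
  have r1 : (raise (OddHC.cont R)).count 3 = (OddHC.cont R).count 3 := count_raise 3 (by omega) (by omega)
  have r2 : (raise (raise (OddHC.cont R))).count 3 = (raise (OddHC.cont R)).count 3 :=
    count_raise 3 (by rw [sup_raise]; omega) (by rw [sup_raise]; omega)
  have r3 : (raise (OddHC.cont S)).count 3 = (OddHC.cont S).count 3 := count_raise 3 (by omega) (by omega)
  have r4 : (raise (raise (OddHC.cont S))).count 3 = (raise (OddHC.cont S)).count 3 :=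
    count_raise 3 (by rw [sup_raise]; omega) (by rw [sup_raise]; omega)
  have r5 : (raise (OddHC.cont B)).count 3 = 0 := by
    by_cases e : OddHC.cont B = 0
    · rw [e, raise_zero]; decide
    · have sB : 3 < (OddHC.cont B).sup := by
        have h4 := h.pd.dat.bare _ (sup_mem e)
        omega
      rw [count_raise 3 (by omega) (by omega), hB0]
  have r6 : (raise (OddHC.cont S + raise (OddHC.cont B))).count 3 = (OddHC.cont S + raise (OddHC.cont B)).count 3 := by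
    apply count_raise 3 <;> (rw [sup_add']; omega)
  rw [Multiset.count_add] at r6
  have a1 : ({1} : Multiset ℕ).count 3 = 0 := by decide
  have a2 : ({1 + 1} : Multiset ℕ).count 3 = 0 := by decide
  have vS : (OddHC.cont S).count 2 = 0 := by
    apply V3.count h.pd.S3 (by norm_num)
  rcases hj with e | e | e | e | e | e | e | e | e | e | e | e | e <;> subst e <;> simp only [wcn] at h2 ⊢
  case inr.inr.inr.inr.inr.inr.inr.inr.inl =>
    split_ifs at h2 ⊢
    · exfalso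
      rw [Multiset.count_add, Multiset.count_add, vS] at h2
      revert h2
      decide
    · simp only [Multiset.count_add, a1, a2]
      omega
  all_goals
    simp only [Multiset.count_add, a1, a2]
    omega

/-- **no words of the windows of height 3** (`k ≥ 13`) -/
theorem PT.ne_T (h : PT q R B S) {i : ℕ} (hi : i < 20) {b m a j : ℕ} (ha : 1 ≤ a) (hj : j < 20)
    (hk : 13 ≤ (W R (ch (q + 1)) B S i).numNodes) :
    OddHC.cont (W R (ch (q + 1)) B S i) ≠ OddHC.cont (w3 b m a j) := by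
  intro e
  obtain ⟨t1, t2⟩ := bw_T_words (b := b) (m := m) ha hj
  obtain ⟨h1, h2, h3, _⟩ := h.pd.c12 hi
  rw [← e] at t1 t2
  obtain ⟨hq, _⟩ := h3 t2
  have h4 := h.count3 hq hi t2
  have h5 : ∀ x ∈ OddHC.cont (W R (ch (q + 1)) B S i), x ≤ 5 := by
    intro x hx
    rw [e] at hx
    have := Multiset.le_sup hx
    rw [← OddHC.ht_eq] at this
    exact this.trans (J1.ht_w3 b m a hj)
  have h6 := bw_sum_le h5
  rw [cont_sum] at h6
  omega

/-- inner words start and end with at least three ups / downs -/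
theorem PD.innP (h : PD q R B S) {i : ℕ} (hi : i ∈ [0, 1, 3, 6, 8, 9]) {x : X k}
    (hx : x.1 = W R (ch (q + 1)) B S i) : InnP 3 (TT x).1 ∧ InnP 3 (Tsq.mirX (TT x)).1 := by
  have hb := h.dat.big
  have q1 := h.q1
  obtain ⟨a, b, h1⟩ := hg_FMT (g := 3) (by omega) (hg_of_cont (by omega) h.R3) (by rw [ht_eq]; omega)
  obtain ⟨u, v, h2⟩ := FMT_W (q := q) (B := B) (S := S) h1 (by rw [ht_eq]; exact hb) i hi
  rw [← hx] at h2
  obtain ⟨h3, h4⟩ := h2.inner
  exact ⟨⟨le_rfl, h3, h4⟩, ⟨le_rfl, h4.mir, h3.mir⟩⟩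

end H1

/-- all words of `g` are words of windows with the data `PT`, all inner words are `T` of such words 0, 1, 3, 6, 8, 9 -/
structure PWb (g : DG k) : Prop where
  w : ∀ w ∈ g.B, ∃ (q : ℕ) (R B S : BinaryTree Unit) (i : ℕ), H1.PT q R B S ∧ i < 20 ∧
    w.1 = H1.W R (H1.ch (q + 1)) B S i
  a : ∀ p ∈ g.arcs, ∀ w ∈ innA p, ∃ (q : ℕ) (R B S : BinaryTree Unit) (i : ℕ) (x : X k), H1.PT q R B S ∧
    i ∈ [0, 1, 3, 6, 8, 9] ∧ x.1 = H1.W R (H1.ch (q + 1)) B S i ∧ w = TT x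

namespace PWb

theorem dis_Js (h : PWb g) (hk : 13 ≤ k) (h' : J1.TyJs F' g') : ∀ w ∈ g.B, w ∉ g'.B := by
  intro w hw
  obtain ⟨q, R, B, S, i, h1, hi, e⟩ := h.w w hw
  exact h1.pd.not_js h' hk hi e

theorem dis_Jt (h : PWb g) (hk : 13 ≤ k) (h' : J1.TyJt F' g') : ∀ w ∈ g.B, w ∉ g'.B := by
  intro w hw
  obtain ⟨q, R, B, S, i, h1, hi, e⟩ := h.w w hw
  exact h1.pd.not_jt h' hk hi e

theorem inn_Js (h : PWb g) (hk : 13 ≤ k) (h' : J1.TyJs F' g') : ∀ p ∈ g.arcs, ∀ w ∈ innA p, w ∉ g'.B := by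
  intro p hp w hw
  obtain ⟨q, R, B, S, i, x, h1, hi, e, rfl⟩ := h.a p hp w hw
  exact h1.pd.inn_js h' hk hi e

theorem inn_Jt (h : PWb g) (hk : 13 ≤ k) (h' : J1.TyJt F' g') : ∀ p ∈ g.arcs, ∀ w ∈ innA p, w ∉ g'.B := by
  intro p hp w hw
  obtain ⟨q, R, B, S, i, x, h1, hi, e, rfl⟩ := h.a p hp w hw
  exact h1.pd.inn_jt h' hk hi e

theorem Js_inn (h : PWb g) (hk : 13 ≤ k) (h' : J1.TyJs F' g') : ∀ p ∈ g'.arcs, ∀ w ∈ innA p, w ∉ g.B := by
  intro p hp w hw hB
  obtain ⟨q, R, B, S, i, h1, hi, e⟩ := h.w w hB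
  exact h1.pd.js_inn h' hk hi p hp w hw e

theorem Jt_inn (h : PWb g) (hk : 13 ≤ k) (h' : J1.TyJt F' g') : ∀ p ∈ g'.arcs, ∀ w ∈ innA p, w ∉ g.B := by
  intro p hp w hw hB
  obtain ⟨q, R, B, S, i, h1, hi, e⟩ := h.w w hB
  exact h1.pd.jt_inn h' hk hi p hp w hw e

theorem dis_S5 (h : PWb g) (h' : TyS5 F' g') : ∀ w ∈ g.B, w ∉ g'.B := by
  intro w hw hw'
  obtain ⟨q, R, B, S, i, h1, hi, e⟩ := h.w w hw
  exact h1.pd.ne_S5 h' hi hw' (by rw [e])

theorem inn_S5 (h : PWb g) (h' : TyS5 F' g') : ∀ p ∈ g.arcs, ∀ w ∈ innA p, w ∉ g'.B := by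
  intro p hp w hw hw'
  obtain ⟨q, R, B, S, i, x, h1, hi, e, rfl⟩ := h.a p hp w hw
  exact h1.pd.ne_S5 h' (bw_list20 hi) hw' (by rw [H1.cont_TT, e])

theorem dis_T (h : PWb g) (hk : 13 ≤ k) (h' : TyT F' g') : ∀ w ∈ g.B, w ∉ g'.B := by
  intro w hw hw'
  obtain ⟨q, R, B, S, i, h1, hi, e⟩ := h.w w hw
  obtain ⟨b, m, a, j, h3, hj, e3⟩ := h'.word hw'
  exact h1.ne_T hi (b := b) (m := m) h3.pos hj (by rw [← e, mem_treesOfNumNodesEq.1 w.2]; exact hk) (by rw [← e, e3])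

theorem inn_T (h : PWb g) (hk : 13 ≤ k) (h' : TyT F' g') : ∀ p ∈ g.arcs, ∀ w ∈ innA p, w ∉ g'.B := by
  intro p hp w hw hw'
  obtain ⟨q, R, B, S, i, x, h1, hi, e, rfl⟩ := h.a p hp w hw
  obtain ⟨b, m, a, j, h3, hj, e3⟩ := h'.word hw'
  exact h1.ne_T (bw_list20 hi) (b := b) (m := m) h3.pos hj (by rw [← e, mem_treesOfNumNodesEq.1 x.2]; exact hk)
    (by rw [← e, ← H1.cont_TT, e3])

theorem T_inn (h : PWb g) (hk : 13 ≤ k) (h' : TyT F' g') : ∀ p ∈ g'.arcs, ∀ w ∈ innA p, w ∉ g.B := by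
  intro p hp w hw hB
  obtain ⟨q, R, B, S, i, h1, hi, e⟩ := h.w w hB
  have hw' : w = TT p.1 := hw
  obtain ⟨n, _, hp1, _⟩ := h'.path p hp
  obtain ⟨b, m, a, j, h3, hj, e3⟩ := h'.word hp1
  exact h1.ne_T hi (b := b) (m := m) h3.pos hj (by rw [← e, mem_treesOfNumNodesEq.1 w.2]; exact hk)
    (by rw [← e, hw', H1.cont_TT, e3])

theorem dis_L (h : PWb g) (h' : TyL F' g') : ∀ w ∈ g.B, w ∉ g'.B := by
  obtain ⟨R', e, h3, h4, h5, h6, ht⟩ := h'
  have hX := ht2_ne (ht_ins_ge R' e h3)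
  intro w hw hw'
  obtain ⟨q, R, B, S, i, h1, hi, ew⟩ := h.w w hw
  rw [H1.ch_eq] at ew
  rcases ht.words _ hw' with e1 | ⟨_, e1 | e1⟩ <;> rw [ew] at e1
  · exact h1.pd.L0 hi hX e1
  · exact h1.pd.L1 hi hX h6 e1
  · exact h1.pd.L2 hi hX h5 e1

theorem dis_K (h : PWb g) {U : BinaryTree Unit} (hU : KSh U) (h' : TyK U F' g') : ∀ w ∈ g.B, w ∉ g'.B := by
  intro w hw hw'
  obtain ⟨q, R, B, S, i, h1, hi, ew⟩ := h.w w hw
  obtain ⟨k1, k2, k3⟩ := h1.pd.not_K hU hi
  rcases IsTri.words h' _ hw' with e1 | ⟨_, e1 | e1⟩ <;> rw [ew] at e1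
  · exact k1 e1
  · exact k2 e1
  · exact k3 e1

theorem dis_Km (h : PWb g) {U : BinaryTree Unit} (hU : KmSh U) (h' : TyK' U F' g') : ∀ w ∈ g.B, w ∉ g'.B := by
  intro w hw hw'
  obtain ⟨q, R, B, S, i, h1, hi, ew⟩ := h.w w hw
  obtain ⟨k1, k2, k3⟩ := h1.pd.not_Km hU hi
  rcases IsTri.words h' _ hw' with e1 | ⟨_, e1 | e1⟩ <;> rw [ew] at e1
  · exact k1 e1
  · exact k2 e1
  · exact k3 e1

theorem innP (h : PWb g) : ∀ p ∈ g.arcs, ∀ w ∈ innA p, H1.InnP 3 w.1 := by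
  intro p hp w hw
  obtain ⟨q, R, B, S, i, x, h1, hi, e, rfl⟩ := h.a p hp w hw
  exact (h1.pd.innP hi e).1

theorem inner_L (h : PWb g) (h' : TyL F' g') : ∀ p ∈ g.arcs, ∀ w ∈ innA p, w ∉ g'.B :=
  fun p hp w hw => (h.innP p hp w hw).not_L h'

theorem inner_K (h : PWb g) {U : BinaryTree Unit} (h' : TyK U F' g') : ∀ p ∈ g.arcs, ∀ w ∈ innA p, w ∉ g'.B :=
  fun p hp w hw => (h.innP p hp w hw).not_K h'

theorem inner_Km (h : PWb g) {U : BinaryTree Unit} (h' : TyK' U F' g') : ∀ p ∈ g.arcs, ∀ w ∈ innA p, w ∉ g'.B :=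
  fun p hp w hw => (h.innP p hp w hw).not_K' h'

end PWb

/-- any gadget on the words of ONE window (`gad20`, `gadB11`, `gadLC`, ..) -/
theorem PWb.of (h1 : H1.PT q R B S) (hs : R.numNodes + q + 3 = k) (w0 : X k)
    (hB : ∀ w ∈ g.B, ∃ i < 20, w = H1.wX R B S q w0 i)
    (ha : ∀ p ∈ g.arcs, ∃ i ∈ [0, 1, 3, 6, 8, 9], p.1 = H1.wX R B S q w0 i) : PWb g where
  w := fun w hw => by
    obtain ⟨i, hi, rfl⟩ := hB w hw
    exact ⟨q, R, B, S, i, h1, hi, H1.wX_eq h1.pd.dat hs w0 hi⟩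
  a := fun p hp w hw => by
    obtain ⟨i, hi, e⟩ := ha p hp
    have hw' : w = TT p.1 := hw
    exact ⟨q, R, B, S, i, _, h1, hi, H1.wX_eq h1.pd.dat hs w0 (bw_list20 hi), by rw [hw', e]⟩

/-! ### Instances -/

/-- B-windows, marker at least 3 -/
theorem TyBw.pw (h : TyBw F g) (h2 : ∀ d ∈ F, 2 ∉ contc d) : PWb g where
  w := fun w hw => by
    obtain ⟨c, q, R, B, S, i, _, h1, hi, e⟩ := h.bd h2 w hw
    exact ⟨q, R, B, S, i, h1.pt, hi, e⟩
  a := fun p hp w hw => by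
    obtain ⟨c, q, R, B, S, i, x, _, h1, hi, e, e2⟩ := h.inbd h2 p hp w hw
    exact ⟨q, R, B, S, i, x, h1.pt, hi, e, e2⟩

/-- a bare window with `q ≥ 1` -/
theorem HM.NodeM.pt (h : HM.NodeM k q R B S) (hq : 1 ≤ q) : H1.PT q R B S where
  pd := {
    dat := h.dat
    q1 := hq
    R3 := fun x hx => by have := h.part x hx; omega
    two := by
      have hc : 2 ≤ Multiset.card (cont R) := by
        first
        | exact h.cardR
        | (have ht := h.top
           have hm := h.mem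
           rw [OddHC.ht_eq] at ht
           have h0 : cont R ≠ 0 := by rintro e0; rw [e0] at hm; exact absurd hm (Multiset.notMem_zero _)
           have hs := sup_mem h0
           have he : (cont R).sup ∈ (cont R).erase (q + 3) := (Multiset.mem_erase_of_ne (by omega)).2 hs
           rw [← Multiset.cons_erase hm, Multiset.card_cons, ← Multiset.cons_erase he, Multiset.card_cons]
           omega)
      unfold H1.n2
      rw [Multiset.countP_eq_card.2]
      · exact hc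
      · intro x hx
        have := h.part x hx
        omega }
  c3 := by
    rw [Multiset.count_eq_zero.2]
    · omega
    · intro h3
      have := h.part 3 h3
      omega

/-- unmerged bare windows -/
theorem TyRq.pw (h : TyRq q F g) (hq : 1 ≤ q) : PWb g where
  w := fun w hw => by
    obtain ⟨R, B, S, w0, i, h1, hi, rfl, _⟩ := h.words w hw
    exact ⟨q, R, B, S, i, h1.pt hq, hi, H1.wX_eq h1.dat h1.size w0 hi⟩
  a := fun p hp w hw => by
    obtain ⟨R, B, S, w0, i, h1, hi, rfl, _⟩ := h.inn0 p hp w hw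
    exact ⟨q, R, B, S, i, _, h1.pt hq, hi, H1.wX_eq h1.dat h1.size w0 (bw_list20 hi), rfl⟩

/-- bare windows with `B = nil` merged with an E pair -/
theorem TyRqE.pw (h : TyRqE q F g) (hq : 1 ≤ q) : PWb g where
  w := fun w hw => by
    obtain ⟨R, B, S, w0, i, h1, hi, rfl, _⟩ := h.words' w hw
    exact ⟨q, R, B, S, i, h1.pt hq, hi, H1.wX_eq h1.dat h1.size w0 hi⟩
  a := fun p hp w hw => by
    obtain ⟨R, B, S, w0, i, h1, hi, rfl, _⟩ := h.inn0 p hp w hw
    have hi' : i ∈ [0, 1, 3, 6, 8, 9] := by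
      simp only [List.mem_cons, List.not_mem_nil, or_false] at hi ⊢
      omega
    exact ⟨q, R, B, S, i, _, h1.pt hq, hi', H1.wX_eq h1.dat h1.size w0 (bw_list20 hi'), rfl⟩

/-- link A of a window -/
theorem TyMarA.pw (h : TyMarA R (H1.ch (q + 1)) F g) (h1 : H1.PT q R B S) : PWb g where
  w := fun w hw => by
    rcases TyMar.words h w hw with ⟨e, _⟩ | ⟨_, e | e⟩
    · exact ⟨q, R, B, S, 5, h1, by norm_num, e⟩
    · exact ⟨q, R, B, S, 6, h1, by norm_num, e⟩
    · exact ⟨q, R, B, S, 0, h1, by norm_num, e⟩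
  a := fun p hp => by
    rw [TyMar.arcs h] at hp
    exact absurd hp (Set.notMem_empty _)

/-- triangle B of a window -/
theorem TyMarB.pw (h : TyMarB B S (H1.ch (q + 1)) F g) (h1 : H1.PT q R B S) : PWb g where
  w := fun w hw => by
    rcases TyMar.words h w hw with ⟨e, _⟩ | ⟨_, e | e⟩
    · exact ⟨q, R, B, S, 16, h1, by norm_num, e⟩
    · exact ⟨q, R, B, S, 10, h1, by norm_num, e⟩
    · exact ⟨q, R, B, S, 15, h1, by norm_num, e⟩
  a := fun p hp => by
    rw [TyMar.arcs h] at hp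
    exact absurd hp (Set.notMem_empty _)

end Pool.OddHC
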