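import Pool.Agent.Work.MP_8f87b2_h63.J4
import Pool.Agent.Work.MP_8f87b2_h61.JsPl

/-!
MP_8f87b2_co: the mirrored gadget J1a at `(s, 4, 2)` (`TyJt`) against plain triples: E, L, K, K', Cr, Cl (words).
`keyX` : statements on the mirrored triple and the right words `jt n i`.
-/

set_option autoImplicit false

namespace Pool.OddHC

open Finset Equiv BinaryTree Pool.Agent.Work.MP_8f87b2_co

namespace J1

open H1

variable {k : ℕ} {F F' : Set (Cyc k)} {g g' : DG k}

theorem mir_ne_t {X : BinaryTree Unit} (h : X ≠ .nil) : Tsq.mir X ≠ .nil := by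
  intro e
  apply h
  rw [← Tsq.mir_mir X, e]
  rfl

/-- the five critical `X` -/
def CrY (n : ℕ) (X : BinaryTree Unit) : Prop :=
  comps X = [ch n, ch 3, .nil] ∨ comps X = [.nil, ch n, ch 3] ∨ comps X = [RS n] ∨
    comps X = [ch (n + 1), ch 3] ∨ comps X = [ch n, ch 4]

theorem keyE_t {n : ℕ} (hn : 4 ≤ n) {X : BinaryTree Unit} (hX0 : X ≠ .nil) (hX : ¬ CrY n X) : ∀ i < 20,
    comps (w1 .nil X .nil) ≠ jt n i ∧ comps (w1 X .nil .nil) ≠ jt n i ∧ comps (w1 .nil .nil X) ≠ jt n i := by
  intro i hi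
  have hXc := comps_ne hX0
  have n0 : ch n ≠ .nil := by rw [Ne, ch_eq_nil]; omega
  have n1 : ch (n + 1) ≠ .nil := by rw [Ne, ch_eq_nil]; omega
  have n2 : ch 3 ≠ .nil := by rw [Ne, ch_eq_nil]; omega
  have n3 : ch 4 ≠ .nil := by rw [Ne, ch_eq_nil]; omega
  have n4 : ch 1 ≠ .nil := by rw [Ne, ch_eq_nil]; omega
  have eX : ∀ A, X = A → comps X = comps A := fun A e => by rw [e]
  refine ⟨?_, ?_, ?_⟩
  · -- host (X)
    intro e
    have e1 : [X] = jt n i := e
    interval_cases i <;> simp only [jt, List.cons.injEq, reduceCtorEq, and_false, and_true] at e1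
    · exact hX (Or.inl (by rw [e1]; rfl))
    · exact hX (Or.inr (Or.inl (by rw [e1]; rfl)))
    · exact hX (Or.inr (Or.inr (Or.inl (by rw [e1]; rfl))))
    · exact hX (Or.inr (Or.inr (Or.inr (Or.inl (by rw [e1]; rfl)))))
    · exact hX (Or.inr (Or.inr (Or.inr (Or.inr (by rw [e1]; rfl)))))
  · -- X()
    intro e
    have e1 : comps X ++ [.nil] = jt n i := by rw [← e, comps_w1]; rfl
    interval_cases i
    · exact n4 (snoc_inj (Y := [ch n, ch 3]) e1).2.symm
    · exact hX (Or.inl (snoc_inj (Y := [ch n, ch 3, .nil]) e1).1)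
    · exact hX (Or.inr (Or.inl (snoc_inj (Y := [.nil, ch n, ch 3]) e1).1))
    · have := (snoc_inj (Y := []) e1).1; exact hXc this
    · exact n2 (snoc_inj (Y := [ch 1, ch n]) e1).2.symm
    · exact n2 (snoc_inj (Y := [.nil, .nil, ch n]) e1).2.symm
    · exact hX (Or.inr (Or.inr (Or.inl (snoc_inj (Y := [RS n]) e1).1)))
    · have := (snoc_inj (Y := []) e1).1; exact hXc this
    · have := (snoc_inj (Y := [.nil]) e1).2; exact absurd this (by unfold RS; simp)
    · have := (snoc_inj (Y := []) e1).1; exact hXc this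
    · exact n0 (snoc_inj (Y := [ch 3, ch 1]) e1).2.symm
    · exact n0 (snoc_inj (Y := [ch 3, .nil, .nil]) e1).2.symm
    · exact hX (Or.inr (Or.inr (Or.inr (Or.inl (snoc_inj (Y := [ch (n + 1), ch 3]) e1).1))))
    · have := (snoc_inj (Y := [ch n]) e1).2; exact absurd this (by simp)
    · exact n2 (snoc_inj (Y := [.nil △ ch (n + 1)]) e1).2.symm
    · exact n2 (snoc_inj (Y := [.nil, ch (n + 1)]) e1).2.symm
    · exact hX (Or.inr (Or.inr (Or.inr (Or.inr (snoc_inj (Y := [ch n, ch 4]) e1).1))))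
    · have := (snoc_inj (Y := []) e1).1; exact hXc this
    · exact n3 (snoc_inj (Y := [.nil, ch n]) e1).2.symm
    · have := (snoc_inj (Y := []) e1).1; exact hXc this
  · -- ()X
    intro e
    have e1 : .nil :: comps X = jt n i := by rw [← e, comps_w1]; rfl
    interval_cases i <;> simp only [jt, List.cons.injEq] at e1
    · exact n0 e1.1.symm
    · exact n0 e1.1.symm
    · exact hX (Or.inl e1.2)
    · exact absurd e1.1 (by simp)
    · exact n4 e1.1.symm
    · exact hX (Or.inr (Or.inl e1.2))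
    · exact absurd e1.1 (by unfold RS; simp)
    · exact hXc e1.2
    · exact hX (Or.inr (Or.inr (Or.inl e1.2)))
    · exact hXc e1.2
    · exact n2 e1.1.symm
    · exact n2 e1.1.symm
    · exact n1 e1.1.symm
    · exact n0 e1.1.symm
    · exact absurd e1.1 (by simp)
    · exact hX (Or.inr (Or.inr (Or.inr (Or.inl e1.2))))
    · exact n0 e1.1.symm
    · exact hXc e1.2
    · exact hX (Or.inr (Or.inr (Or.inr (Or.inr e1.2))))
    · exact hXc e1.2


theorem keyL_t {n : ℕ} (hn : 4 ≤ n) {Y : BinaryTree Unit} : ∀ i < 20,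
    comps (w1 (lp 1) Y (lp 1)) ≠ jt n i ∧ comps (w1 Y (lp 1) (lp 1)) ≠ jt n i ∧
      comps (w1 (lp 1) (lp 1) Y) ≠ jt n i := by
  intro i hi
  have n0 : ch n ≠ .nil := by rw [Ne, ch_eq_nil]; omega
  have n1 : ch (n + 1) ≠ .nil := by rw [Ne, ch_eq_nil]; omega
  have n2 : ch 3 ≠ .nil := by rw [Ne, ch_eq_nil]; omega
  have n3 : ch 4 ≠ .nil := by rw [Ne, ch_eq_nil]; omega
  have n4 : ch 1 ≠ .nil := by rw [Ne, ch_eq_nil]; omega
  have m2 : ch 3 ≠ lp 1 := ch_ne_of (a := 3) (b := 1) (by omega)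
  have m3 : ch 4 ≠ lp 1 := ch_ne_of (a := 4) (b := 1) (by omega)
  have m0 : ch n ≠ lp 1 := ch_ne_of (a := n) (b := 1) (by omega)
  have m1 : ch (n + 1) ≠ lp 1 := ch_ne_of (a := n + 1) (b := 1) (by omega)
  have m5 : RS n ≠ lp 1 := by
    intro e
    have := congrArg BinaryTree.numNodes e
    change (ch n).numNodes + (ch 4).numNodes + 1 = 1 at this
    rw [ch_num] at this
    omega
  have m6 : (.nil : BinaryTree Unit) ≠ lp 1 := by
    change .nil ≠ (.nil △ .nil : BinaryTree Unit)
    simp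
  refine ⟨?_, ?_, ?_⟩
  · intro e
    have e1 : [.nil, Y, .nil] = jt n i := e
    interval_cases i <;> simp only [jt, List.cons.injEq, reduceCtorEq, and_false, and_true, false_and] at e1
    · exact n0 e1.1.symm
    · exact n4 e1.1.symm
    · exact n2 e1.1.symm
    · exact n1 e1.1.symm
    · exact n2 e1.2.2.symm
    · exact n0 e1.1.symm
    · exact n3 e1.2.2.symm
  · -- Y(())()
    intro e
    have e1 : (comps Y ++ [lp 1]) ++ [.nil] = jt n i := by
      rw [← e, comps_w1, List.append_assoc]; rfl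
    interval_cases i
    · exact n4 (snoc_inj (Y := [ch n, ch 3]) e1).2.symm
    · exact m6 (snoc_inj (Y := [ch n, ch 3]) (snoc_inj (Y := [ch n, ch 3, .nil]) e1).1).2.symm
    · exact m2 (snoc_inj (Y := [.nil, ch n]) (snoc_inj (Y := [.nil, ch n, ch 3]) e1).1).2.symm
    · have := (snoc_inj (Y := []) e1).2; exact absurd this (by simp)
    · exact n2 (snoc_inj (Y := [ch 1, ch n]) e1).2.symm
    · exact n2 (snoc_inj (Y := [.nil, .nil, ch n]) e1).2.symm
    · exact m5 (snoc_inj (Y := []) (snoc_inj (Y := [RS n]) e1).1).2.symm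
    · have := (snoc_inj (Y := []) e1).2; exact absurd this (by simp)
    · have := (snoc_inj (Y := [.nil]) e1).2; exact absurd this (by unfold RS; simp)
    · have := (snoc_inj (Y := []) e1).2; exact absurd this (by simp)
    · exact n0 (snoc_inj (Y := [ch 3, ch 1]) e1).2.symm
    · exact n0 (snoc_inj (Y := [ch 3, .nil, .nil]) e1).2.symm
    · exact m2 (snoc_inj (Y := [ch (n + 1)]) (snoc_inj (Y := [ch (n + 1), ch 3]) e1).1).2.symm
    · have := (snoc_inj (Y := [ch n]) e1).2; exact absurd this (by simp)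
    · exact n2 (snoc_inj (Y := [.nil △ ch (n + 1)]) e1).2.symm
    · exact n2 (snoc_inj (Y := [.nil, ch (n + 1)]) e1).2.symm
    · exact m3 (snoc_inj (Y := [ch n]) (snoc_inj (Y := [ch n, ch 4]) e1).1).2.symm
    · have := (snoc_inj (Y := []) e1).2; exact absurd this (by simp)
    · exact n3 (snoc_inj (Y := [.nil, ch n]) e1).2.symm
    · have := (snoc_inj (Y := []) e1).2; exact absurd this (by simp)
  · -- ()(())Y
    intro e
    have e1 : .nil :: lp 1 :: comps Y = jt n i := by rw [← e, comps_w1]; rfl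
    interval_cases i <;> simp only [jt, List.cons.injEq, reduceCtorEq, and_false, false_and] at e1
    · exact n0 e1.1.symm
    · exact n0 e1.1.symm
    · exact m0 e1.2.1.symm
    · exact n4 e1.1.symm
    · exact m6 e1.2.1.symm
    · exact absurd e1.1 (by unfold RS; simp)
    · exact m5 e1.2.1.symm
    · exact n2 e1.1.symm
    · exact n2 e1.1.symm
    · exact n1 e1.1.symm
    · exact n0 e1.1.symm
    · exact m1 e1.2.1.symm
    · exact n0 e1.1.symm
    · exact m0 e1.2.1.symm


theorem keyK_t {n : ℕ} (hn : 4 ≤ n) {S : BinaryTree Unit} (hS : S ≠ .nil)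
    (hz : ∀ j, (j = 0 ∨ j = 4 ∨ j = 10) → comps (w1 S (.nil △ .nil) .nil) ≠ jt n j ∧
      comps (w1 (.nil △ .nil) .nil S) ≠ jt n j) : ∀ i < 20,
    comps (w1 .nil S (.nil △ .nil)) ≠ jt n i ∧ comps (w1 S (.nil △ .nil) .nil) ≠ jt n i ∧
      comps (w1 (.nil △ .nil) .nil S) ≠ jt n i := by
  intro i hi
  have n0 : ch n ≠ .nil := by rw [Ne, ch_eq_nil]; omega
  have n1 : ch (n + 1) ≠ .nil := by rw [Ne, ch_eq_nil]; omega
  have n2 : ch 3 ≠ .nil := by rw [Ne, ch_eq_nil]; omega
  have n3 : ch 4 ≠ .nil := by rw [Ne, ch_eq_nil]; omega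
  have n4 : ch 1 ≠ .nil := by rw [Ne, ch_eq_nil]; omega
  have m2 : ch 3 ≠ ch 1 := ch_ne_of (by omega)
  have m3 : ch 4 ≠ ch 1 := ch_ne_of (by omega)
  have m0 : ch n ≠ ch 1 := ch_ne_of (by omega)
  have m5 : RS n ≠ ch 1 := by
    intro e
    have := congrArg BinaryTree.numNodes e
    change (ch n).numNodes + (ch 4).numNodes + 1 = 1 at this
    rw [ch_num] at this
    omega
  have z1 := hz 0 (Or.inl rfl)
  have hne : S ≠ RS n := by
    rintro rfl
    apply z1.1
    rfl
  refine ⟨?_, ?_, ?_⟩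
  · intro e
    have e1 : [S, .nil] = jt n i := e
    interval_cases i <;> simp only [jt, List.cons.injEq, reduceCtorEq, and_false, and_true, false_and] at e1
    · exact hne e1
    · exact absurd e1.2.symm (by unfold RS; simp)
    · exact n2 e1.2.symm
  · -- S(())
    intro e
    have e1 : comps S ++ [ch 1] = jt n i := by rw [← e, comps_w1]; rfl
    interval_cases i
    · exact z1.1 e
    · exact n4 (snoc_inj (Y := [ch n, ch 3, .nil]) e1).2
    · exact n4 (snoc_inj (Y := [.nil, ch n, ch 3]) e1).2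
    · have := (snoc_inj (Y := []) e1).1; exact comps_ne hS this
    · exact m2 (snoc_inj (Y := [ch 1, ch n]) e1).2.symm
    · exact m2 (snoc_inj (Y := [.nil, .nil, ch n]) e1).2.symm
    · exact n4 (snoc_inj (Y := [RS n]) e1).2
    · have := (snoc_inj (Y := []) e1).1; exact comps_ne hS this
    · exact m5 (snoc_inj (Y := [.nil]) e1).2.symm
    · have := (snoc_inj (Y := []) e1).1; exact comps_ne hS this
    · exact m0 (snoc_inj (Y := [ch 3, ch 1]) e1).2.symm
    · exact m0 (snoc_inj (Y := [ch 3, .nil, .nil]) e1).2.symm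
    · exact n4 (snoc_inj (Y := [ch (n + 1), ch 3]) e1).2
    · have := congrArg BinaryTree.numNodes (snoc_inj (Y := [ch n]) e1).2
      change 1 = (ch 3).numNodes + 1 + 1 at this
      omega
    · exact m2 (snoc_inj (Y := [.nil △ ch (n + 1)]) e1).2.symm
    · exact m2 (snoc_inj (Y := [.nil, ch (n + 1)]) e1).2.symm
    · exact n4 (snoc_inj (Y := [ch n, ch 4]) e1).2
    · have := (snoc_inj (Y := []) e1).1; exact comps_ne hS this
    · exact m3 (snoc_inj (Y := [.nil, ch n]) e1).2.symm
    · have := (snoc_inj (Y := []) e1).1; exact comps_ne hS this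
  · -- ()()S
    intro e
    have e1 : .nil :: .nil :: comps S = jt n i := by rw [← e, comps_w1]; rfl
    interval_cases i <;> simp only [jt, List.cons.injEq, reduceCtorEq, and_false, false_and] at e1
    · exact n0 e1.1.symm
    · exact n0 e1.1.symm
    · exact n0 e1.2.1.symm
    · exact n4 e1.1.symm
    · apply hne
      apply comps_inj
      rw [e1.2.2]
      rfl
    · exact absurd e1.1 (by unfold RS; simp)
    · exact absurd e1.2.1 (by unfold RS; simp)
    · exact n2 e1.1.symm
    · exact n2 e1.1.symm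
    · exact n1 e1.1.symm
    · exact n1 e1.2.1.symm
    · exact n0 e1.1.symm
    · exact n0 e1.2.1.symm


theorem keyKp_t {n : ℕ} (hn : 4 ≤ n) {S : BinaryTree Unit} (hS : S ≠ .nil)
    (hz : ∀ j, (j = 0 ∨ j = 4 ∨ j = 10) → comps (w1 S .nil (.nil △ .nil)) ≠ jt n j ∧
      comps (w1 .nil (.nil △ .nil) S) ≠ jt n j) : ∀ i < 20,
    comps (w1 (.nil △ .nil) S .nil) ≠ jt n i ∧ comps (w1 S .nil (.nil △ .nil)) ≠ jt n i ∧
      comps (w1 .nil (.nil △ .nil) S) ≠ jt n i := by
  intro i hi
  have n0 : ch n ≠ .nil := by rw [Ne, ch_eq_nil]; omega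
  have n1 : ch (n + 1) ≠ .nil := by rw [Ne, ch_eq_nil]; omega
  have n2 : ch 3 ≠ .nil := by rw [Ne, ch_eq_nil]; omega
  have n3 : ch 4 ≠ .nil := by rw [Ne, ch_eq_nil]; omega
  have n4 : ch 1 ≠ .nil := by rw [Ne, ch_eq_nil]; omega
  have m2 : ch 3 ≠ ch 1 := ch_ne_of (by omega)
  have m3 : ch 4 ≠ ch 1 := ch_ne_of (by omega)
  have m0 : ch n ≠ ch 1 := ch_ne_of (by omega)
  have m1 : ch (n + 1) ≠ ch 1 := ch_ne_of (by omega)
  have m5 : RS n ≠ ch 1 := by
    intro e
    have := congrArg BinaryTree.numNodes e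
    change (ch n).numNodes + (ch 4).numNodes + 1 = 1 at this
    rw [ch_num] at this
    omega
  have z4 := hz 4 (Or.inr (Or.inl rfl))
  have hne : S ≠ RS n := by
    rintro rfl
    apply z4.2
    rfl
  refine ⟨?_, ?_, ?_⟩
  · intro e
    have e1 : [.nil, S] = jt n i := e
    interval_cases i <;> simp only [jt, List.cons.injEq, reduceCtorEq, and_false, and_true, false_and] at e1
    · exact absurd e1.1 (by unfold RS; simp)
    · exact hne e1.2
    · exact n0 e1.1.symm
  · -- S()()
    intro e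
    have e1 : (comps S ++ [.nil]) ++ [.nil] = jt n i := by rw [← e, comps_w1, List.append_assoc]; rfl
    interval_cases i
    · exact n4 (snoc_inj (Y := [ch n, ch 3]) e1).2.symm
    · apply hne
      apply comps_inj
      exact (snoc_inj (Y := [ch n, ch 3]) (snoc_inj (Y := [ch n, ch 3, .nil]) e1).1).1
    · exact n2 (snoc_inj (Y := [.nil, ch n]) (snoc_inj (Y := [.nil, ch n, ch 3]) e1).1).2.symm
    · have := (snoc_inj (Y := []) e1).2; exact absurd this (by simp)
    · exact n2 (snoc_inj (Y := [ch 1, ch n]) e1).2.symm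
    · exact n2 (snoc_inj (Y := [.nil, .nil, ch n]) e1).2.symm
    · exact absurd (snoc_inj (Y := []) (snoc_inj (Y := [RS n]) e1).1).2 (by unfold RS; simp)
    · have := (snoc_inj (Y := []) e1).2; exact absurd this (by simp)
    · have := (snoc_inj (Y := [.nil]) e1).2; exact absurd this (by unfold RS; simp)
    · have := (snoc_inj (Y := []) e1).2; exact absurd this (by simp)
    · exact n0 (snoc_inj (Y := [ch 3, ch 1]) e1).2.symm
    · exact n0 (snoc_inj (Y := [ch 3, .nil, .nil]) e1).2.symm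
    · exact n2 (snoc_inj (Y := [ch (n + 1)]) (snoc_inj (Y := [ch (n + 1), ch 3]) e1).1).2.symm
    · have := (snoc_inj (Y := [ch n]) e1).2; exact absurd this (by simp)
    · exact n2 (snoc_inj (Y := [.nil △ ch (n + 1)]) e1).2.symm
    · exact n2 (snoc_inj (Y := [.nil, ch (n + 1)]) e1).2.symm
    · exact n3 (snoc_inj (Y := [ch n]) (snoc_inj (Y := [ch n, ch 4]) e1).1).2.symm
    · have := (snoc_inj (Y := []) e1).2; exact absurd this (by simp)
    · exact n3 (snoc_inj (Y := [.nil, ch n]) e1).2.symm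
    · have := (snoc_inj (Y := []) e1).2; exact absurd this (by simp)
  · -- (())S
    intro e
    have e1 : ch 1 :: comps S = jt n i := by rw [← e, comps_w1]; rfl
    interval_cases i <;> simp only [jt, List.cons.injEq] at e1
    · exact m0 e1.1.symm
    · exact m0 e1.1.symm
    · exact n4 e1.1
    · exact comps_ne hS e1.2
    · exact z4.2 e
    · exact n4 e1.1
    · exact m5 e1.1.symm
    · exact comps_ne hS e1.2
    · exact n4 e1.1
    · exact comps_ne hS e1.2
    · exact m2 e1.1.symm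
    · exact m2 e1.1.symm
    · exact m1 e1.1.symm
    · exact m0 e1.1.symm
    · have := congrArg BinaryTree.numNodes e1.1
      change 1 = 0 + (ch (n + 1)).numNodes + 1 at this
      rw [ch_num] at this
      omega
    · exact n4 e1.1
    · exact m0 e1.1.symm
    · exact comps_ne hS e1.2
    · exact n4 e1.1
    · exact comps_ne hS e1.2


/-- E against J1 mirrored: all `X` (also deep) whose mirror is not critical -/
theorem jt_E' {X : BinaryTree Unit} (h : IsTri .nil X .nil F g) (h' : TyJt F' g') (hd : ∀ c ∈ F, c ∉ F')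
    (hX : ∀ n, 4 ≤ n → n + 7 = k → ¬ CrY n (Tsq.mir X)) : ∀ w ∈ g.B, w ∉ g'.B := by
  have hX0 : X ≠ .nil := by
    rintro rfl
    exact h.new_ne rfl
  refine jt_tri h h' hd (P' := .nil) (Q' := Tsq.mir X) (R' := .nil) rfl rfl rfl ?_
  intro n hn hk _ i hi
  exact keyE_t hn (mir_ne_t hX0) (hX n hn hk) i hi

theorem crY_cont {n : ℕ} {X : BinaryTree Unit} (hn : 4 ≤ n) (h : CrY n X) : 2 ∉ OddHC.cont X ∧ 3 ∉ OddHC.cont X := by
  have key : ∀ M : Multiset ℕ, OddHC.cont X = M → (2 ∉ M ∧ 3 ∉ M) → 2 ∉ OddHC.cont X ∧ 3 ∉ OddHC.cont X := by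
    rintro M rfl h
    exact h
  rcases h with h | h | h | h | h
  · have e : X = app (ch (n + 1)) (app (ch 4) (ch 1)) := comps_inj (h.trans rfl)
    refine key ({n + 1} + ({4} + {1})) (by rw [e, cont_app, cont_app, ch_cont, ch_cont, ch_cont]) ?_
    simp only [Multiset.mem_add, Multiset.mem_singleton]
    omega
  · have e : X = app (ch 1) (app (ch (n + 1)) (ch 4)) := comps_inj (h.trans rfl)
    refine key ({1} + ({n + 1} + {4})) (by rw [e, cont_app, cont_app, ch_cont, ch_cont, ch_cont]) ?_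
    simp only [Multiset.mem_add, Multiset.mem_singleton]
    omega
  · have e : X = RS n △ .nil := comps_inj (h.trans rfl)
    have hc : OddHC.cont (RS n) = {n + 1} + {4} := by
      rw [← RS_eq, cont_app, ch_cont, ch_cont]
    have hs : (OddHC.cont (RS n)).sup = n + 1 := by
      rw [hc, sup_add', Multiset.sup_singleton, Multiset.sup_singleton]
      omega
    have hh : ∀ b, b ≤ 3 → (OddHC.cont X).count b = (OddHC.cont (RS n)).count b := by
      intro b hb
      rw [e, cont_node, cont_nil, add_zero]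
      exact count_raise b (by rw [hs]; omega) (by rw [hs]; omega)
    constructor
    · rw [← Multiset.count_eq_zero, hh 2 (by omega), hc]
      simp only [Multiset.count_add, Multiset.count_singleton]
      rw [if_neg (by omega), if_neg (by omega)]
    · rw [← Multiset.count_eq_zero, hh 3 (by omega), hc]
      simp only [Multiset.count_add, Multiset.count_singleton]
      rw [if_neg (by omega), if_neg (by omega)]
  · have e : X = app (ch (n + 2)) (ch 4) := comps_inj (h.trans rfl)
    refine key ({n + 2} + {4}) (by rw [e, cont_app, ch_cont, ch_cont]) ?_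
    simp only [Multiset.mem_add, Multiset.mem_singleton]
    omega
  · have e : X = app (ch (n + 1)) (ch 5) := comps_inj (h.trans rfl)
    refine key ({n + 1} + {5}) (by rw [e, cont_app, ch_cont, ch_cont]) ?_
    simp only [Multiset.mem_add, Multiset.mem_singleton]
    omega

/-- **E - J1 mirrored**, some T-cycle of the pair has a part 2 or 3 (the pair is not over a deep cycle) -/
theorem jt_E {X : BinaryTree Unit} (h : IsTri .nil X .nil F g) (h' : TyJt F' g') (hd : ∀ c ∈ F, c ∉ F')
    (hnd : ∃ c ∈ F, 2 ∈ contc c ∨ 3 ∈ contc c) : ∀ w ∈ g.B, w ∉ g'.B := by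
  refine jt_E' h h' hd ?_
  intro n hn hk hX
  obtain ⟨h2, h3⟩ := crY_cont hn hX
  rw [HM.cont_mir] at h2 h3
  obtain ⟨a, b, c, ha, hb, hc', e1, e2, e3, rfl, rfl⟩ := h
  obtain ⟨d, hd1, hd2⟩ := hnd
  have hcont : contc d = OddHC.cont X + {1} := by
    rcases hd1 with rfl | rfl
    · change OddHC.cont b.1 = _
      rw [hb]
      change OddHC.cont (app X (.nil △ .nil)) = _
      rw [cont_app]
      rfl
    · change OddHC.cont c.1 = _
      rw [hc']
      change OddHC.cont (app (ch 1) X) = _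
      rw [cont_app, ch_cont, add_comm]
  rw [hcont] at hd2
  simp only [Multiset.mem_add, Multiset.mem_singleton] at hd2
  rcases hd2 with (h | h) | (h | h)
  · exact h2 h
  · omega
  · exact h3 h
  · omega

/-- **L - J1 mirrored** -/
theorem jt_L (h : TyL F g) (h' : TyJt F' g') (hd : ∀ c ∈ F, c ∉ F') : ∀ w ∈ g.B, w ∉ g'.B := by
  obtain ⟨R', e, _, _, _, _, ht⟩ := h
  refine jt_tri ht h' hd (P' := lp 1) (Q' := Tsq.mir (ins R' e)) (R' := lp 1) rfl rfl rfl ?_
  intro n hn hk _ i hi
  exact keyL_t hn i hi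

/-- **K - J1 mirrored** -/
theorem jt_K {S : BinaryTree Unit} (h : TyK S F g) (h' : TyJt F' g') (hd : ∀ c ∈ F, c ∉ F')
    (hS : S ≠ .nil) : ∀ w ∈ g.B, w ∉ g'.B := by
  refine jt_tri h h' hd (P' := .nil △ .nil) (Q' := Tsq.mir S) (R' := .nil) rfl rfl rfl ?_
  intro n hn hk hz i hi
  exact keyKp_t hn (mir_ne_t hS) hz i hi

/-- **K' - J1 mirrored** -/
theorem jt_K' {S : BinaryTree Unit} (h : TyK' S F g) (h' : TyJt F' g') (hd : ∀ c ∈ F, c ∉ F')
    (hS : S ≠ .nil) : ∀ w ∈ g.B, w ∉ g'.B := by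
  refine jt_tri h h' hd (P' := .nil) (Q' := Tsq.mir S) (R' := .nil △ .nil) rfl rfl rfl ?_
  intro n hn hk hz i hi
  exact keyK_t hn (mir_ne_t hS) hz i hi

end J1

end Pool.OddHC
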