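import Pool.Agent.Work.MP_8f87b2_h63.J4Pl
import Pool.Agent.Work.MP_8f87b2_h61.JsC

/-!
MP_8f87b2_co: the mirrored gadget J1a at `(s, 4, 2)` (`TyJt`) against the content links C, C' (words).
-/

set_option autoImplicit false

namespace Pool.OddHC

open Finset Equiv BinaryTree Pool.Agent.Work.MP_8f87b2_co

namespace J1

open H1

variable {k : ℕ} {F F' : Set (Cyc k)} {g g' : DG k}

theorem mir_ch_t (n : ℕ) : Tsq.mir (ch n) = ch n := by
  induction n with
  | zero => rfl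
  | succ n ih =>
    change Tsq.mir (ch n △ .nil) = _
    rw [Tsq.mir_node, ih]
    rfl

/-- `C` mirrored is `C'`: host `[c](R')`, new words `[c+1]R'`, `R'()[c]` (`R' = mir R`) against the right words -/
theorem keyC_t {n c : ℕ} (hn : 6 ≤ n) {R : BinaryTree Unit} (hc : 2 ≤ c) (hR : c + 1 ≤ OddHC.ht R)
    (hp : ¬ (c = 3 ∧ comps R = [.nil, .nil, ch n]))
    (hz : ∀ j, (j = 0 ∨ j = 4 ∨ j = 10) → comps (w1 R .nil (ch c)) ≠ jt n j ∧ comps (w1 .nil (ch c) R) ≠ jt n j) :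
    ∀ i < 20, comps (w1 (ch c) R .nil) ≠ jt n i ∧ comps (w1 R .nil (ch c)) ≠ jt n i ∧
      comps (w1 .nil (ch c) R) ≠ jt n i := by
  intro i hi
  have n0 : ch n ≠ .nil := by rw [Ne, ch_eq_nil]; omega
  have n1 : ch (n + 1) ≠ .nil := by rw [Ne, ch_eq_nil]; omega
  have n2 : ch 3 ≠ .nil := by rw [Ne, ch_eq_nil]; omega
  have n3 : ch 4 ≠ .nil := by rw [Ne, ch_eq_nil]; omega
  have n4 : ch 1 ≠ .nil := by rw [Ne, ch_eq_nil]; omega
  have nc : ch c ≠ .nil := by rw [Ne, ch_eq_nil]; omega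
  have nc1 : ch (c - 1) ≠ .nil := by rw [Ne, ch_eq_nil]; omega
  have hR0 : R ≠ .nil := ht_ge_ne hR
  have hR1 := comps_ne hR0
  have lf0 : (.nil △ .nil : BinaryTree Unit) ≠ .nil := by simp
  have hcc : comps (ch c) = [ch (c - 1)] := comps_ch' (by omega)
  have hRR : ∀ a, ch a ≠ RS n := fun a => ch_ne_node n3
  refine ⟨?_, ?_, ?_⟩
  · intro e
    have e1 : [ch (c - 1), R] = jt n i := by rw [← e, comps_w1, hcc]; rfl
    interval_cases i <;> simp only [jt, List.cons.injEq, reduceCtorEq, and_false, and_true, false_and] at e1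
    · exact hR0 e1.2
    · exact nc1 e1.1
    · have h3 := ch_eq_iff.1 e1.1
      have h2 := e1.2
      rw [h2] at hR
      have h4 : OddHC.ht (ch 3 △ (.nil △ .nil)) = 4 := rfl
      omega
    · exact ch_ne_node n1 e1.1
  · -- R()[c]
    intro e
    have e1 : (comps R ++ [.nil]) ++ [ch (c - 1)] = jt n i := by
      rw [← e, comps_w1, List.append_assoc, hcc]; rfl
    interval_cases i
    · exact n2 (snoc_inj (Y := [ch n]) (snoc_inj (Y := [ch n, ch 3]) e1).1).2.symm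
    · exact nc1 (snoc_inj (Y := [ch n, ch 3, .nil]) e1).2
    · exact nc1 (snoc_inj (Y := [.nil, ch n, ch 3]) e1).2
    · exact absurd (snoc_inj (Y := []) e1).1 (by simp)
    · exact n0 (snoc_inj (Y := [ch 1]) (snoc_inj (Y := [ch 1, ch n]) e1).1).2.symm
    · exact n0 (snoc_inj (Y := [.nil, .nil]) (snoc_inj (Y := [.nil, .nil, ch n]) e1).1).2.symm
    · exact nc1 (snoc_inj (Y := [RS n]) e1).2
    · exact absurd (snoc_inj (Y := []) e1).1 (by simp)
    · exact hRR _ (snoc_inj (Y := [.nil]) e1).2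
    · exact absurd (snoc_inj (Y := []) e1).1 (by simp)
    · exact n4 (snoc_inj (Y := [ch 3]) (snoc_inj (Y := [ch 3, ch 1]) e1).1).2.symm
    · have h1 := snoc_inj (Y := [ch 3, .nil, .nil]) e1
      have h2 : R = ch 3 △ (.nil △ .nil) :=
        comps_inj ((snoc_inj (Y := [ch 3, .nil]) h1.1).1.trans rfl)
      have h3 := ch_eq_iff.1 h1.2
      rw [h2] at hR
      have h4 : OddHC.ht (ch 3 △ (.nil △ .nil)) = 4 := rfl
      omega
    · exact nc1 (snoc_inj (Y := [ch (n + 1), ch 3]) e1).2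
    · exact ch_ne_node lf0 (snoc_inj (Y := [ch n]) e1).2
    · exact absurd (snoc_inj (Y := []) (snoc_inj (Y := [.nil △ ch (n + 1)]) e1).1).2 (by simp)
    · exact n1 (snoc_inj (Y := [.nil]) (snoc_inj (Y := [.nil, ch (n + 1)]) e1).1).2.symm
    · exact nc1 (snoc_inj (Y := [ch n, ch 4]) e1).2
    · exact absurd (snoc_inj (Y := []) e1).1 (by simp)
    · exact n0 (snoc_inj (Y := [.nil]) (snoc_inj (Y := [.nil, ch n]) e1).1).2.symm
    · exact absurd (snoc_inj (Y := []) e1).1 (by simp)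
  · -- [c+1]R
    intro e
    have e1 : ch c :: comps R = jt n i := by rw [← e, comps_w1]; rfl
    interval_cases i <;> simp only [jt, List.cons.injEq] at e1
    · exact (hz 0 (Or.inl rfl)).2 e
    · have h2 : R = ch 3 △ (.nil △ (.nil △ .nil)) := comps_inj (e1.2.trans rfl)
      have h3 := ch_eq_iff.1 e1.1
      rw [h2] at hR
      have h4 : OddHC.ht (ch 3 △ (.nil △ (.nil △ .nil))) = 4 := rfl
      omega
    · exact nc e1.1
    · exact hR1 e1.2
    · exact (hz 4 (Or.inr (Or.inl rfl))).2 e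
    · exact nc e1.1
    · exact hRR _ e1.1
    · exact hR1 e1.2
    · exact nc e1.1
    · exact hR1 e1.2
    · exact (hz 10 (Or.inr (Or.inr rfl))).2 e
    · exact hp ⟨ch_eq_iff.1 e1.1, e1.2⟩
    · have h2 : R = ch 3 △ (.nil △ .nil) := comps_inj (e1.2.trans rfl)
      have h3 := ch_eq_iff.1 e1.1
      rw [h2] at hR
      have h4 : OddHC.ht (ch 3 △ (.nil △ .nil)) = 4 := rfl
      omega
    · have h2 : R = (ch 3 △ (.nil △ .nil)) △ .nil := comps_inj (e1.2.trans rfl)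
      have h3 := ch_eq_iff.1 e1.1
      rw [h2] at hR
      have h4 : OddHC.ht ((ch 3 △ (.nil △ .nil)) △ .nil) = 5 := rfl
      omega
    · exact ch_ne_node n1 e1.1
    · exact nc e1.1
    · have h2 : R = ch 4 △ (.nil △ .nil) := comps_inj (e1.2.trans rfl)
      have h3 := ch_eq_iff.1 e1.1
      rw [h2] at hR
      have h4 : OddHC.ht (ch 4 △ (.nil △ .nil)) = 5 := rfl
      omega
    · exact hR1 e1.2
    · exact nc e1.1
    · exact hR1 e1.2

/-- `C'` mirrored is `C`: host `(R')[c]`, new words `R'[c+1]`, `[c]()R'` (`R' = mir R`) against the right words -/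
theorem keyCp_t {n c : ℕ} (hn : 6 ≤ n) {R : BinaryTree Unit} (hc : 2 ≤ c) (hR : c + 1 ≤ OddHC.ht R) (h3 : c ≠ 3)
    (hp : ¬ (c = 4 ∧ comps R = [.nil, ch n])) :
    ∀ i < 20, comps (w1 .nil R (ch c)) ≠ jt n i ∧ comps (w1 R (ch c) .nil) ≠ jt n i ∧
      comps (w1 (ch c) .nil R) ≠ jt n i := by
  intro i hi
  have n0 : ch n ≠ .nil := by rw [Ne, ch_eq_nil]; omega
  have n1 : ch (n + 1) ≠ .nil := by rw [Ne, ch_eq_nil]; omega
  have n2 : ch 3 ≠ .nil := by rw [Ne, ch_eq_nil]; omega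
  have n3 : ch 4 ≠ .nil := by rw [Ne, ch_eq_nil]; omega
  have n4 : ch 1 ≠ .nil := by rw [Ne, ch_eq_nil]; omega
  have nc : ch c ≠ .nil := by rw [Ne, ch_eq_nil]; omega
  have nc1 : ch (c - 1) ≠ .nil := by rw [Ne, ch_eq_nil]; omega
  have hR0 : R ≠ .nil := ht_ge_ne hR
  have hR1 := comps_ne hR0
  have lf0 : (.nil △ .nil : BinaryTree Unit) ≠ .nil := by simp
  have hcc : comps (ch c) = [ch (c - 1)] := comps_ch' (by omega)
  have hRR : ∀ a, ch a ≠ RS n := fun a => ch_ne_node n3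
  refine ⟨?_, ?_, ?_⟩
  · intro e
    have e1 : [R, ch (c - 1)] = jt n i := by rw [← e, comps_w1, hcc]; rfl
    interval_cases i <;> simp only [jt, List.cons.injEq, reduceCtorEq, and_false, and_true, false_and] at e1
    · exact nc1 e1.2
    · exact hR0 e1.1
    · exact ch_ne_node lf0 e1.2
    · exact hp ⟨by have := ch_eq_iff.1 e1.2; omega, by rw [e1.1]; rfl⟩
  · -- R[c+1]
    intro e
    have e1 : comps R ++ [ch c] = jt n i := by rw [← e, comps_w1]; rfl
    interval_cases i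
    · have := ch_eq_iff.1 (snoc_inj (Y := [ch n, ch 3]) e1).2; omega
    · exact nc (snoc_inj (Y := [ch n, ch 3, .nil]) e1).2
    · exact nc (snoc_inj (Y := [.nil, ch n, ch 3]) e1).2
    · exact hR1 (snoc_inj (Y := []) e1).1
    · exact h3 (ch_eq_iff.1 (snoc_inj (Y := [ch 1, ch n]) e1).2)
    · exact h3 (ch_eq_iff.1 (snoc_inj (Y := [.nil, .nil, ch n]) e1).2)
    · exact nc (snoc_inj (Y := [RS n]) e1).2
    · exact hR1 (snoc_inj (Y := []) e1).1
    · exact hRR _ (snoc_inj (Y := [.nil]) e1).2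
    · exact hR1 (snoc_inj (Y := []) e1).1
    · have h1 := snoc_inj (Y := [ch 3, ch 1]) e1
      have h2 : R = ch 3 △ (ch 1 △ .nil) := comps_inj (h1.1.trans rfl)
      have h5 := ch_eq_iff.1 h1.2
      rw [h2] at hR
      have h4 : OddHC.ht (ch 3 △ (ch 1 △ .nil)) = 4 := rfl
      omega
    · have h1 := snoc_inj (Y := [ch 3, .nil, .nil]) e1
      have h2 : R = ch 3 △ (.nil △ (.nil △ .nil)) := comps_inj (h1.1.trans rfl)
      have h5 := ch_eq_iff.1 h1.2
      rw [h2] at hR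
      have h4 : OddHC.ht (ch 3 △ (.nil △ (.nil △ .nil))) = 4 := rfl
      omega
    · exact nc (snoc_inj (Y := [ch (n + 1), ch 3]) e1).2
    · exact ch_ne_node lf0 (snoc_inj (Y := [ch n]) e1).2
    · exact h3 (ch_eq_iff.1 (snoc_inj (Y := [.nil △ ch (n + 1)]) e1).2)
    · exact h3 (ch_eq_iff.1 (snoc_inj (Y := [.nil, ch (n + 1)]) e1).2)
    · exact nc (snoc_inj (Y := [ch n, ch 4]) e1).2
    · exact hR1 (snoc_inj (Y := []) e1).1
    · have h1 := snoc_inj (Y := [.nil, ch n]) e1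
      exact hp ⟨ch_eq_iff.1 h1.2, h1.1⟩
    · exact hR1 (snoc_inj (Y := []) e1).1
  · -- [c]()R
    intro e
    have e1 : ch (c - 1) :: .nil :: comps R = jt n i := by rw [← e, comps_w1, hcc]; rfl
    interval_cases i <;> simp only [jt, List.cons.injEq] at e1
    · exact n2 e1.2.1.symm
    · exact n2 e1.2.1.symm
    · exact nc1 e1.1
    · exact absurd e1.2 (by simp)
    · exact n0 e1.2.1.symm
    · exact nc1 e1.1
    · exact hR1 e1.2.2
    · exact absurd e1.2 (by simp)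
    · exact nc1 e1.1
    · exact absurd e1.2 (by simp)
    · exact n4 e1.2.1.symm
    · exact hp ⟨by have := ch_eq_iff.1 e1.1; omega, e1.2.2⟩
    · exact n2 e1.2.1.symm
    · exact absurd e1.2.1 (by simp)
    · exact n2 e1.2.1.symm
    · exact nc1 e1.1
    · exact n3 e1.2.1.symm
    · exact absurd e1.2 (by simp)
    · exact nc1 e1.1
    · exact absurd e1.2 (by simp)

/-- **C - J1 mirrored**: host `(R)[c]`, new words `R[c+1]`, `[c]()R` -/
theorem jt_C {c : ℕ} {R : BinaryTree Unit} (h : TyC c R F g) (h' : TyJt F' g') (hd : ∀ c ∈ F, c ∉ F')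
    (hc : 2 ≤ c) (hR : c + 1 ≤ OddHC.ht R) (hk13 : 13 ≤ k)
    (hp : ∀ s, ¬ (c = 3 ∧ R = app (ch s) (.nil △ (.nil △ .nil)))) : ∀ w ∈ g.B, w ∉ g'.B := by
  refine jt_tri h h' hd (P' := ch c) (Q' := Tsq.mir R) (R' := .nil) (mir_ch_t c) rfl rfl ?_
  intro n hn hk hz i hi
  refine keyC_t (by omega) hc (by rw [HM.ht_mir]; exact hR) ?_ hz i hi
  rintro ⟨h1, h2⟩
  refine hp (n + 1) ⟨h1, ?_⟩
  have h3 : Tsq.mir R = .nil △ (.nil △ ch (n + 1)) := comps_inj (h2.trans rfl)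
  rw [← Tsq.mir_mir R, h3, Tsq.mir_node, Tsq.mir_node, mir_ch_t]
  rw [app_assoc']
  rfl

/-- **C' - J1 mirrored**: host `[c](R)`, new words `[c+1]R`, `R()[c]` -/
theorem jt_C' {c : ℕ} {R : BinaryTree Unit} (h : TyC' c R F g) (h' : TyJt F' g') (hd : ∀ c ∈ F, c ∉ F')
    (hc : 2 ≤ c) (hR : c + 1 ≤ OddHC.ht R) (hk13 : 13 ≤ k) (h3 : c ≠ 3)
    (hp : ∀ s, ¬ (c = 4 ∧ R = app (ch s) (.nil △ .nil))) : ∀ w ∈ g.B, w ∉ g'.B := by
  refine jt_tri h h' hd (P' := .nil) (Q' := Tsq.mir R) (R' := ch c) rfl rfl (mir_ch_t c) ?_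
  intro n hn hk _ i hi
  refine keyCp_t (by omega) hc (by rw [HM.ht_mir]; exact hR) h3 ?_ i hi
  rintro ⟨h1, h2⟩
  refine hp (n + 1) ⟨h1, ?_⟩
  have h4 : Tsq.mir R = .nil △ ch (n + 1) := comps_inj (h2.trans rfl)
  rw [← Tsq.mir_mir R, h4, Tsq.mir_node, mir_ch_t]
  rfl

end J1

end Pool.OddHC
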