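import Pool.Agent.Work.MP_8f87b2_h63.J4C
import Pool.Agent.Work.MP_8f87b2_h61.JsI

/-!
MP_8f87b2_co: the inner words of the mirrored gadget J1a at `(s, 4, 2)` (`TyJt`): twice prime for `13 ≤ k`.
-/

set_option autoImplicit false

namespace Pool.OddHC

open Finset Equiv BinaryTree Pool.Agent.Work.MP_8f87b2_co

namespace J1

open H1

variable {k : ℕ} {F F' : Set (Cyc k)} {g g' : DG k}

/-- contents of the words 1, 3, 6, 8, 9 -/
def kc (n : ℕ) : ℕ → Multiset ℕ
  | 1 => {4} + {1} + {1} + {n + 1}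
  | 3 => {4} + {1} + {n + 2}
  | 6 => {4} + {1} + {n + 2}
  | 8 => {4} + {1} + {n + 2}
  | _ => {4} + {n + 3}

theorem cont_W4 (n : ℕ) (hn : 4 ≤ n) {i : ℕ} (hi : i ∈ [1, 3, 6, 8, 9]) :
    OddHC.cont (W (RS n) .nil (ch 4) (ch (n + 1)) i) = kc n i := by
  have cR : OddHC.cont (RS n) = {4} + {n + 1} := by
    rw [← RS_eq, cont_app, ch_cont, ch_cont, add_comm]
  have cn : OddHC.cont (.nil : BinaryTree Unit) = 0 := cont_nil
  have l4 : ∀ x ∈ ({4} : Multiset ℕ), x < n + 1 := by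
    intro x hx; rw [Multiset.mem_singleton] at hx; omega
  have l4' : ∀ x ∈ ({4} : Multiset ℕ), x < n + 2 := by
    intro x hx; rw [Multiset.mem_singleton] at hx; omega
  have l41 : ∀ x ∈ ({4} + {1} : Multiset ℕ), x < n + 1 := by
    intro x hx; rw [Multiset.mem_add, Multiset.mem_singleton, Multiset.mem_singleton] at hx; omega
  have r1 : raise ({4} + {n + 1} : Multiset ℕ) = {4} + {n + 2} := raise_top l4
  have r2 : raise ({4} + {n + 2} : Multiset ℕ) = {4} + {n + 3} := raise_top l4'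
  have r3 : raise ({4} + {1} + {n + 1} : Multiset ℕ) = {4} + {1} + {n + 2} := raise_top l41
  have a0 : ∀ X : BinaryTree Unit, app .nil X = X := fun _ => rfl
  simp only [List.mem_cons, List.not_mem_nil, or_false] at hi
  rcases hi with rfl | rfl | rfl | rfl | rfl
  · simp only [W, cont_app, cont_node, a0, cn, raise_zero, cR, kc, add_zero]
    abel
  · simp only [W, cont_app, cont_node, cn, raise_zero, cR, kc, add_zero]
    rw [show ({4} + {n + 1} + {1} : Multiset ℕ) = {4} + {1} + {n + 1} by abel, r3]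
  · simp only [W, cont_app, cont_node, a0, cn, raise_zero, cR, kc, add_zero, r1]
    abel
  · simp only [W, cont_app, cont_node, a0, cn, raise_zero, cR, kc, add_zero, r1]
    abel
  · simp only [W, cont_app, cont_node, a0, cn, raise_zero, cR, kc, add_zero, r1, r2]

/-- **the inner words of `TyJt`**: twice prime, height `≥ 8`, no part 2 or 3, explicit mirror -/
theorem TyJt.inn (h : TyJt F g) (hk : 13 ≤ k) : ∃ n, n + 7 = k ∧ ∀ p ∈ g.arcs, ∀ w ∈ innA p,
    DP w.1 ∧ 7 ≤ OddHC.ht w.1 ∧ 2 ∉ OddHC.cont w.1 ∧ 3 ∉ OddHC.cont w.1 ∧ 2 ≤ (OddHC.cont w.1).card ∧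
      ∃ i ∈ [1, 3, 6, 8, 9], OddHC.cont w.1 = kc n i ∧ Tsq.mir w.1 = nst (n - 3) (app (ch 4) (zz 3 i)) := by
  obtain ⟨n, w0, h1, h2, h3, rfl, rfl⟩ := h
  rw [RS_eq] at h2 h3 ⊢
  have hn : n + 7 = k := by
    have := h2.num
    change (app (ch (n + 1)) (ch 4)).numNodes + 2 = k at this
    rw [num_app, ch_num, ch_num] at this
    omega
  refine ⟨n, hn, ?_⟩
  intro p hp w hw
  have key : ∀ i j, i ∈ [1, 3, 6, 8, 9] → (i, j) ∈ [(0, 10), (1, 11), (3, 12), (6, 15), (8, 14), (9, 17)] →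
      p = (jY (RS n) (ch 4) (ch (n + 1)) w0 j, jY (RS n) (ch 4) (ch (n + 1)) w0 i) →
      DP w.1 ∧ 7 ≤ OddHC.ht w.1 ∧ 2 ∉ OddHC.cont w.1 ∧ 3 ∉ OddHC.cont w.1 ∧ 2 ≤ (OddHC.cont w.1).card ∧
      ∃ i ∈ [1, 3, 6, 8, 9], OddHC.cont w.1 = kc n i ∧ Tsq.mir w.1 = nst (n - 3) (app (ch 4) (zz 3 i)) := by
    intro i j hi hij hp'
    have hi20 : i < 20 := by
      simp only [List.mem_cons, List.not_mem_nil, or_false] at hi
      omega
    have e : w = TT (jY (RS n) (ch 4) (ch (n + 1)) w0 j) := by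
      have : w = TT p.1 := hw
      rw [this, hp']
    have e2 : TT w = jY (RS n) (ch 4) (ch (n + 1)) w0 i := by
      rw [e]; exact jY_link h2 w0 hij
    have e3 : TT (jX (RS n) (ch 4) (ch (n + 1)) w0 i) = Tsq.mirX w := by
      have := Tsq.TT_mir w
      rw [e2] at this
      unfold jY at this
      rw [HM.mirX_mirX] at this
      exact this
    have hx : (jX (RS n) (ch 4) (ch (n + 1)) w0 i).1 = J.j1w (n + 1) 4 i := jX_eq h2 w0 hi20
    obtain ⟨d, rfl⟩ : ∃ d, n = d + 3 := ⟨n - 3, by omega⟩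
    have hT := j1_TT (c := 3) (d := d) (x := jX (RS (d + 3)) (ch 4) (ch (d + 3 + 1)) w0 i) hi
      (by rw [hx]; congr 1; omega)
    rw [e3] at hT
    change Tsq.mir w.1 = _ at hT
    have hD : DP w.1 := by
      have : DP (Tsq.mir w.1) := by rw [hT]; exact dp_nst (by omega) _
      have := this.mir
      rwa [Tsq.mir_mir] at this
    have hc : OddHC.cont w.1 = kc (d + 3) i := by
      rw [← cont_TT w, e2, jY_cont, jX_eq h2 w0 hi20]
      exact cont_W4 (d + 3) (by omega) hi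
    refine ⟨hD, ?_, ?_, ?_, ?_, i, hi, hc, by rw [hT]; rfl⟩
    · have hs : d + 3 + 1 ≤ (kc (d + 3) i).sup := by
        simp only [List.mem_cons, List.not_mem_nil, or_false] at hi
        have k2 : ∀ (x : ℕ) (M : Multiset ℕ), d + 3 + 1 ≤ x → x ∈ M → d + 3 + 1 ≤ M.sup := fun x M h1 h2 =>
          h1.trans (Multiset.le_sup h2)
        rcases hi with rfl | rfl | rfl | rfl | rfl
        · exact k2 (d + 3 + 1) _ le_rfl (by simp [kc])
        · exact k2 (d + 3 + 2) _ (by omega) (by simp [kc])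
        · exact k2 (d + 3 + 2) _ (by omega) (by simp [kc])
        · exact k2 (d + 3 + 2) _ (by omega) (by simp [kc])
        · exact k2 (d + 3 + 3) _ (by omega) (by simp [kc])
      rw [OddHC.ht_eq, hc]
      omega
    · rw [hc]
      simp only [List.mem_cons, List.not_mem_nil, or_false] at hi
      rcases hi with rfl | rfl | rfl | rfl | rfl <;> simp [kc]
    · rw [hc]
      simp only [List.mem_cons, List.not_mem_nil, or_false] at hi
      rcases hi with rfl | rfl | rfl | rfl | rfl <;> simp [kc]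
    · rw [hc]
      simp only [List.mem_cons, List.not_mem_nil, or_false] at hi
      rcases hi with rfl | rfl | rfl | rfl | rfl <;> simp [kc]
  have hp' : p = (jY (RS n) (ch 4) (ch (n + 1)) w0 11, jY (RS n) (ch 4) (ch (n + 1)) w0 1) ∨
      p = (jY (RS n) (ch 4) (ch (n + 1)) w0 12, jY (RS n) (ch 4) (ch (n + 1)) w0 3) ∨
      p = (jY (RS n) (ch 4) (ch (n + 1)) w0 15, jY (RS n) (ch 4) (ch (n + 1)) w0 6) ∨
      p = (jY (RS n) (ch 4) (ch (n + 1)) w0 14, jY (RS n) (ch 4) (ch (n + 1)) w0 8) ∨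
      p = (jY (RS n) (ch 4) (ch (n + 1)) w0 17, jY (RS n) (ch 4) (ch (n + 1)) w0 9) := hp
  rcases hp' with e | e | e | e | e
  · exact key 1 11 (by simp) (by simp) e
  · exact key 3 12 (by simp) (by simp) e
  · exact key 6 15 (by simp) (by simp) e
  · exact key 8 14 (by simp) (by simp) e
  · exact key 9 17 (by simp) (by simp) e

/-- **E**, deep or not: only the host `(X)` -/
theorem dp_tri_nil {Y : BinaryTree Unit} (h : IsTri .nil Y .nil F g) {w : X k} (hw : DP w.1) (hB : w ∈ g.B) :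
    w.1 = Y △ .nil := by
  rcases h.words w hB with e | ⟨_, e | e⟩
  · rw [e]; rfl
  · rw [e] at hw
    obtain ⟨_, h2⟩ := (dp_w1 hw).2.2
    exact absurd h2 (by simp)
  · rw [e] at hw
    obtain ⟨_, h2⟩ := (dp_w1 hw).2.2
    exact absurd h2 (by simp)

/-- **inner words of `TyJt` against E** (some member has a part 2 or 3) -/
theorem TyJt.inner_E {X : BinaryTree Unit} (h : TyJt F g) (hk : 13 ≤ k) (h' : IsTri .nil X .nil F' g')
    (hnd : ∃ c ∈ F', 2 ∈ contc c ∨ 3 ∈ contc c) : ∀ p ∈ g.arcs, ∀ w ∈ innA p, w ∉ g'.B := by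
  obtain ⟨n, hn, hi⟩ := h.inn hk
  intro p hp w hw hB
  obtain ⟨hD, h7, n2, n3, _, _⟩ := hi p hp w hw
  have e := dp_tri_nil h' hD hB
  have hcw : OddHC.cont w.1 = raise (OddHC.cont X) := by
    rw [e, cont_node, cont_nil, add_zero]
  have hs : 4 ≤ (OddHC.cont X).sup := by
    have := congrArg Multiset.sup hcw
    rw [sup_raise, ← OddHC.ht_eq] at this
    omega
  have cc : ∀ b, b ≤ 3 → (OddHC.cont w.1).count b = (OddHC.cont X).count b := by
    intro b hb
    rw [hcw]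
    exact count_raise b (by omega) (by omega)
  have m2 : 2 ∉ OddHC.cont X := by
    rw [← Multiset.count_eq_zero, ← cc 2 (by norm_num), Multiset.count_eq_zero]; exact n2
  have m3 : 3 ∉ OddHC.cont X := by
    rw [← Multiset.count_eq_zero, ← cc 3 (by norm_num), Multiset.count_eq_zero]; exact n3
  obtain ⟨c, hc, h23⟩ := hnd
  obtain ⟨a, b, c', ha, hb, hc', e1, e2, e3, rfl, rfl⟩ := h'
  have cb : contc (cyc b) = OddHC.cont X + {1} := by
    rw [contc_cyc, hb]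
    change OddHC.cont (app X (w1 .nil .nil .nil)) = _
    rw [cont_app]
    change OddHC.cont X + OddHC.cont (.nil △ .nil) = _
    rw [cont_node, cont_nil, raise_zero, add_zero]
  have cc' : contc (cyc c') = OddHC.cont X + {1} := by
    rw [contc_cyc, hc']
    change OddHC.cont (.nil △ X) = _
    rw [cont_node, cont_nil, raise_zero, add_comm]
  have key : contc c = OddHC.cont X + {1} := by
    rcases hc with rfl | hc
    · exact cb
    · rw [Set.mem_singleton_iff.1 hc]; exact cc'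
  rw [key] at h23
  rcases h23 with h | h
  · rw [Multiset.mem_add, Multiset.mem_singleton] at h
    rcases h with h | h
    · exact m2 h
    · omega
  · rw [Multiset.mem_add, Multiset.mem_singleton] at h
    rcases h with h | h
    · exact m3 h
    · omega

/-- **inner words of `TyJt` against a deep E**: `X` is not the inside of an inner word -/
theorem TyJt.inner_E' {X : BinaryTree Unit} (h : TyJt F g) (hk : 13 ≤ k) (h' : IsTri .nil X .nil F' g')
    (hX : ∀ i ∈ [1, 3, 6, 8, 9], Tsq.mir X ≠ nst (k - 11) (app (ch 4) (zz 3 i))) :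
    ∀ p ∈ g.arcs, ∀ w ∈ innA p, w ∉ g'.B := by
  obtain ⟨n, hn, hi⟩ := h.inn hk
  intro p hp w hw hB
  obtain ⟨hD, h7, _, _, _, i, hi, _, e1⟩ := hi p hp w hw
  have e := dp_tri_nil h' hD hB
  apply hX i hi
  rw [e, Tsq.mir_node] at e1
  obtain ⟨d, hd⟩ : ∃ d, n - 3 = d + 1 := ⟨n - 4, by omega⟩
  rw [hd] at e1
  have e2 : Tsq.mir X △ (.nil : BinaryTree Unit) = nst d (app (ch 4) (zz 3 i)) △ .nil := e1
  rw [(node_inj e2).1]
  congr 1
  omega

/-- **I-J1M-L** -/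
theorem TyJt.inner_L (h : TyJt F g) (hk : 13 ≤ k) (h' : TyL F' g') : ∀ p ∈ g.arcs, ∀ w ∈ innA p, w ∉ g'.B := by
  obtain ⟨n, hn, hi⟩ := h.inn hk
  exact fun p hp w hw => dp_L h' (hi p hp w hw).1

/-- **I-J1M-K** -/
theorem TyJt.inner_K {S : BinaryTree Unit} (h : TyJt F g) (hk : 13 ≤ k) (h' : TyK S F' g') :
    ∀ p ∈ g.arcs, ∀ w ∈ innA p, w ∉ g'.B := by
  obtain ⟨n, hn, hi⟩ := h.inn hk
  intro p hp w hw
  obtain ⟨a, b, _, _, d, _⟩ := hi p hp w hw
  exact dp_K h' a (by omega)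

/-- **I-J1M-K'** -/
theorem TyJt.inner_K' {S : BinaryTree Unit} (h : TyJt F g) (hk : 13 ≤ k) (h' : TyK' S F' g') :
    ∀ p ∈ g.arcs, ∀ w ∈ innA p, w ∉ g'.B := by
  obtain ⟨n, hn, hi⟩ := h.inn hk
  intro p hp w hw
  obtain ⟨a, b, _, _, d, _⟩ := hi p hp w hw
  exact dp_K' h' a (by omega)

/-- **I-J1M-Cr** -/
theorem TyJt.inner_C {c : ℕ} {R : BinaryTree Unit} (h : TyJt F g) (hk : 13 ≤ k) (h' : TyC c R F' g') (hc : 1 ≤ c) :
    ∀ p ∈ g.arcs, ∀ w ∈ innA p, w ∉ g'.B := by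
  obtain ⟨n, hn, hi⟩ := h.inn hk
  intro p hp w hw
  obtain ⟨a, b, _, _, d, _⟩ := hi p hp w hw
  exact dp_C h' a hc d

/-- **I-J1M-Cl** -/
theorem TyJt.inner_C' {c : ℕ} {R : BinaryTree Unit} (h : TyJt F g) (hk : 13 ≤ k) (h' : TyC' c R F' g')
    (hc : 1 ≤ c) : ∀ p ∈ g.arcs, ∀ w ∈ innA p, w ∉ g'.B := by
  obtain ⟨n, hn, hi⟩ := h.inn hk
  intro p hp w hw
  obtain ⟨a, b, _, _, d, _⟩ := hi p hp w hw
  exact dp_C' h' a hc d

/-- **I-J1M-T** -/
theorem TyJt.inner_T (h : TyJt F g) (hk : 13 ≤ k) (h' : TyT F' g') : ∀ p ∈ g.arcs, ∀ w ∈ innA p, w ∉ g'.B := by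
  obtain ⟨n, hn, hi⟩ := h.inn hk
  intro p hp w hw
  obtain ⟨a, b, _, _, d, _⟩ := hi p hp w hw
  exact dp_T h' (by omega)

/-- **I-J1M-A** -/
theorem TyJt.inner_A (h : TyJt F g) (hk : 13 ≤ k) (h' : TyA F' g') : ∀ p ∈ g.arcs, ∀ w ∈ innA p, w ∉ g'.B := by
  obtain ⟨n, hn, hi⟩ := h.inn hk
  exact fun p hp w hw => dp_A h' (hi p hp w hw).1

/-- **I-J1M-A0** -/
theorem TyJt.inner_A0 (h : TyJt F g) (hk : 13 ≤ k) (h' : TyA0 F' g') : ∀ p ∈ g.arcs, ∀ w ∈ innA p, w ∉ g'.B := by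
  obtain ⟨n, hn, hi⟩ := h.inn hk
  exact fun p hp w hw => dp_A0 h' (hi p hp w hw).1

/-- **I-J1M-B0** -/
theorem TyJt.inner_B0 (h : TyJt F g) (hk : 13 ≤ k) (h' : TyB0 F' g') : ∀ p ∈ g.arcs, ∀ w ∈ innA p, w ∉ g'.B := by
  obtain ⟨n, hn, hi⟩ := h.inn hk
  exact fun p hp w hw => dp_B0 h' (hi p hp w hw).1

end J1

end Pool.OddHC
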