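import Pool.Agent.Work.MP_8f87b2_mid.Same

/-!
MP_8f87b2_co: the contents of ALL twenty words of a window with data `H1.Dat q R B S` (R may contain parts `< q + 3`;
`B` only parts `≥ q + 3`).
-/

set_option autoImplicit false
set_option linter.unusedSimpArgs false

namespace Pool.OddHC

open BinaryTree

namespace H1

variable {q : ℕ} {R B S : BinaryTree Unit}

/-- the contents of the twenty words -/
def wcn (q : ℕ) (cR cB cS : Multiset ℕ) : ℕ → Multiset ℕ
  | 0 => cR + {q + 3}
  | 1 => cR + {q + 1} + {1} + {1}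
  | 2 => cR + {q + 1} + {1} + {1}
  | 3 => raise cR + {q + 1} + {1}
  | 4 => cR + {q + 2} + {1}
  | 5 => cR + {q + 2} + {1}
  | 6 => raise cR + {q + 2}
  | 7 => raise cR + {q + 1} + {1}
  | 8 => raise cR + {q + 1} + {1}
  | 9 => raise (raise cR) + {q + 1}
  | 10 => cR + {q + 3}
  | 11 => cR + {q + 1} + {1} + {1}
  | 12 => raise cS + cB + {q + 1} + {1}
  | 13 => if cB = 0 then cS + {q + 2} + {1} else cS + raise cB + {q + 1} + {1}
  | 14 => raise cS + cB + {q + 1} + {1}
  | 15 => raise cS + cB + {q + 2}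
  | 16 => cS + raise cB + {q + 2}
  | 17 => raise (raise cS) + cB + {q + 1}
  | 18 => cS + raise cB + {q + 1} + {1}
  | _ => raise (cS + raise cB) + {q + 1}

theorem Dat.neS (h : Dat q R B S) : OddHC.cont S ≠ 0 := by
  intro h0
  have h1 := h.htS
  have h2 := h.big
  rw [OddHC.ht_eq S, h0] at h1
  rw [← h1] at h2
  simp at h2

theorem Dat.neR (h : Dat q R B S) : OddHC.cont R ≠ 0 := by
  intro h0
  have h2 := h.big
  rw [OddHC.ht_eq, h0] at h2
  simp at h2

/-- **the contents of all the words** -/
theorem cont_all (h : Dat q R B S) {i : ℕ} (hi : i < 20) :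
    OddHC.cont (W R (ch (q + 1)) B S i) = wcn q (OddHC.cont R) (OddHC.cont B) (OddHC.cont S) i := by
  have hS := h.htS
  have hB := h.htB
  have hb := h.big
  have hc : OddHC.cont B + OddHC.cont S = OddHC.cont R := h.cont
  have nR := h.neR
  have nS := h.neS
  have c0 : OddHC.cont (BinaryTree.nil : BinaryTree Unit) = 0 := rfl
  have cQ : OddHC.cont (ch (q + 1)) = {q + 1} := ch_cont q
  have cq2 : OddHC.cont (ch (q + 1) △ BinaryTree.nil) = {q + 2} := ch_cont (q + 1)
  have cq3 : OddHC.cont ((ch (q + 1) △ BinaryTree.nil) △ BinaryTree.nil) = {q + 3} := ch_cont (q + 2)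
  have rq2 : raise (OddHC.cont (ch (q + 1))) = {q + 2} := by
    rw [← cq2, cont_node, c0, add_zero]
  have rq3 : raise (raise (OddHC.cont (ch (q + 1)))) = {q + 3} := by
    rw [rq2, ← cq2, ← cq3, cont_node (ch (q + 1) △ BinaryTree.nil), c0, add_zero]
  have e1 : raise (0 : Multiset ℕ) = {1} := raise_zero
  have r1 : raise ({q + 1} + {1} : Multiset ℕ) = {q + 2} + {1} := raise_two (q + 1) (by omega)
  have sR : q + 3 ≤ (OddHC.cont R).sup := by rw [← OddHC.ht_eq]; exact hb
  have sS : q + 3 ≤ (OddHC.cont S).sup := by rw [← OddHC.ht_eq, hS]; exact hb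
  have sB : (OddHC.cont B).sup ≤ (OddHC.cont S).sup := by
    rw [← OddHC.ht_eq, ← OddHC.ht_eq, hS]; exact hB
  have add2 : ∀ M : Multiset ℕ, M ≠ 0 → q + 3 ≤ M.sup → raise (M + {1} + {q + 1}) = raise M + {1} + {q + 1} := by
    intro M hM hs
    rw [add_assoc, raise_add hM, add_assoc]
    intro x hx
    rw [Multiset.mem_add, Multiset.mem_singleton, Multiset.mem_singleton] at hx
    omega
  have addq : ∀ M : Multiset ℕ, M ≠ 0 → q + 3 ≤ M.sup → raise (M + {1}) = raise M + {1} := by
    intro M hM hs
    rw [raise_add hM]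
    intro x hx
    rw [Multiset.mem_singleton] at hx
    omega
  interval_cases i
  · simp only [W, cont_app, cont_node, c0, add_zero, rq3, wcn]
  · simp only [W, cont_app, cont_node, c0, add_zero, e1, cQ, wcn]; abel
  · simp only [W, cont_app, cont_node, c0, add_zero, e1, cQ, wcn]; abel
  · simp only [W, cont_app, cont_node, c0, add_zero, e1, cQ, wcn]
    rw [← add_assoc, add2 _ nR sR]; abel
  · simp only [W, cont_app, cont_node, c0, add_zero, e1, cQ, wcn]
    rw [r1]; abel
  · simp only [W, cont_node, c0, e1, rq2, wcn]; abel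
  · simp only [W, cont_node, c0, add_zero, rq2, wcn]
  · simp only [W, cont_app, cont_node, c0, add_zero, e1, cQ, wcn]
    rw [add_comm {1} (OddHC.cont R), addq _ nR sR]; abel
  · simp only [W, cont_app, cont_node, c0, add_zero, e1, cQ, wcn]; abel
  · simp only [W, cont_node, c0, add_zero, cQ, wcn]
  · simp only [W, cont_app, cont_node, c0, add_zero, rq3, wcn]
    rw [← hc]; abel
  · simp only [W, cont_app, cont_node, c0, e1, cQ, wcn]
    rw [← hc]; abel
  · simp only [W, cont_app, cont_node, c0, e1, cQ, wcn]; abel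
  · by_cases hBn : OddHC.cont B = 0
    · simp only [W, cont_app, cont_node, c0, add_zero, e1, cQ, wcn, if_pos hBn]
      rw [hBn, zero_add, add_comm {1} {q + 1}, r1]; abel
    · have sBq : q + 3 ≤ (OddHC.cont B).sup := h.bare _ (sup_mem hBn)
      simp only [W, cont_app, cont_node, c0, add_zero, e1, cQ, wcn, if_neg hBn]
      rw [← add_assoc (OddHC.cont B), add2 _ hBn sBq]; abel
  · simp only [W, cont_app, cont_node, c0, add_zero, e1, cQ, wcn]
    rw [show ({q + 1} + ({1} + OddHC.cont S) : Multiset ℕ) = OddHC.cont S + {1} + {q + 1} by abel,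
      add2 _ nS sS]; abel
  · simp only [W, cont_node, rq2, wcn]; abel
  · simp only [W, cont_app, cont_node, c0, add_zero, rq2, wcn]; abel
  · have hr : raise (raise (OddHC.cont S) + OddHC.cont B) = raise (raise (OddHC.cont S)) + OddHC.cont B := by
      apply raise_add
      · intro h0
        have := congrArg Multiset.sup h0
        rw [sup_raise] at this
        simp at this
      · intro x hx
        rw [sup_raise]
        have := Multiset.le_sup hx
        omega
    simp only [W, cont_app, cont_node, c0, add_zero, cQ, wcn]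
    rw [hr]; abel
  · simp only [W, cont_app, cont_node, c0, add_zero, e1, cQ, wcn]; abel
  · simp only [W, cont_app, cont_node, c0, add_zero, cQ, wcn]

/-- number of parts `≥ 2` -/
def n2 (M : Multiset ℕ) : ℕ := M.countP (2 ≤ ·)

theorem n2_add (M N : Multiset ℕ) : n2 (M + N) = n2 M + n2 N := by unfold n2; rw [Multiset.countP_add]

theorem n2_single (a : ℕ) : n2 {a} = if 2 ≤ a then 1 else 0 := by
  unfold n2
  rw [← Multiset.cons_zero, Multiset.countP_cons, Multiset.countP_zero, zero_add]

theorem n2_raise (M : Multiset ℕ) : n2 M ≤ n2 (raise M) := by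
  unfold raise n2
  rcases eq_or_ne M 0 with rfl | h0
  · simp
  · conv_lhs => rw [← Multiset.cons_erase (sup_mem h0)]
    rw [Multiset.countP_cons, Multiset.countP_cons]
    split_ifs <;> omega

/-- every word has at least `n2 (cont R) + 1` parts `≥ 2` (`q ≥ 1`) -/
theorem n2_all (h : Dat q R B S) (hq : 1 ≤ q) {i : ℕ} (hi : i < 20) :
    n2 (OddHC.cont R) + 1 ≤ n2 (OddHC.cont (W R (ch (q + 1)) B S i)) := by
  rw [cont_all h hi]
  have hc : n2 (OddHC.cont B) + n2 (OddHC.cont S) = n2 (OddHC.cont R) := by rw [← n2_add, h.cont]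
  have a1 := n2_raise (OddHC.cont R)
  have a2 := n2_raise (raise (OddHC.cont R))
  have a3 := n2_raise (OddHC.cont S)
  have a4 := n2_raise (raise (OddHC.cont S))
  have a5 := n2_raise (OddHC.cont B)
  have a6 := n2_raise (OddHC.cont S + raise (OddHC.cont B))
  have b1 : n2 ({q + 1} : Multiset ℕ) = 1 := by rw [n2_single, if_pos (by omega)]
  have b2 : n2 ({q + 2} : Multiset ℕ) = 1 := by rw [n2_single, if_pos (by omega)]
  have b3 : n2 ({q + 3} : Multiset ℕ) = 1 := by rw [n2_single, if_pos (by omega)]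
  rw [n2_add] at a6
  have hz : OddHC.cont B = 0 → n2 (OddHC.cont B) = 0 := fun e => by rw [e]; rfl
  interval_cases i <;> simp only [wcn] <;> (try split_ifs) <;> simp only [n2_add, b1, b2, b3] <;>
    first | omega | (have := hz ‹_›; omega)

/-- a part of `S` which is smaller than the top is in every word -/
theorem mem_all (h : Dat q R B S) {c : ℕ} (hc : c ∈ OddHC.cont S) (hc2 : c < q + 3) {i : ℕ} (hi : i < 20) :
    c ∈ OddHC.cont (W R (ch (q + 1)) B S i) := by
  rw [cont_all h hi]
  have hcR : c ∈ OddHC.cont R := by rw [← h.cont, Multiset.mem_add]; exact Or.inr hc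
  have sR : q + 3 ≤ (OddHC.cont R).sup := by rw [← OddHC.ht_eq]; exact h.big
  have sS : q + 3 ≤ (OddHC.cont S).sup := by rw [← OddHC.ht_eq, h.htS]; exact h.big
  have key : ∀ M : Multiset ℕ, c ∈ M → q + 3 ≤ M.sup → c ∈ raise M ∧ q + 3 ≤ (raise M).sup := by
    intro M h1 h2
    refine ⟨?_, by rw [sup_raise]; omega⟩
    unfold raise
    exact Multiset.mem_cons_of_mem ((Multiset.mem_erase_of_ne (by omega)).2 h1)
  have k1 := key _ hcR sR
  have k2 := key _ k1.1 k1.2
  have k3 := key _ hc sS
  have k4 := key _ k3.1 k3.2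
  have k5 := key (OddHC.cont S + raise (OddHC.cont B)) (Multiset.mem_add.2 (Or.inl hc)) (by rw [sup_add']; omega)
  interval_cases i <;> simp only [wcn] <;> (try split_ifs) <;> simp only [Multiset.mem_add] <;> tauto

end H1

end Pool.OddHC
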