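import Pool.Agent.Work.MP_8f87b2_h63.BWc
import Pool.Agent.Work.MP_8f87b2_h13.TyRq

/-!
MP_8f87b2_co: the right windows `TyRq q`, `q ≥ 1`, `z` with at least three parts `≥ 2`, against J1 and J1 mirrored (words, inner
words in both directions).
-/

set_option autoImplicit false

namespace Pool.OddHC

open Finset Equiv BinaryTree Pool.Agent.Work.MP_8f87b2_co

variable {k q : ℕ} {F F' : Set (Cyc k)} {g g' : DG k}

open HM in
/-- the data of a window `TyRq q`, `q ≥ 1` -/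
theorem pd_of_node {R B S : BinaryTree Unit} (h : NodeM k q R B S) (hq : 1 ≤ q) (h2 : 2 ≤ H1.n2 (OddHC.cont R)) :
    H1.PD q R B S where
  dat := h.dat
  q1 := hq
  R3 := fun x hx => by have := h.part x hx; omega
  two := h2

open HM in
theorem TyRq.pd (h : TyRq q F g) (hq : 1 ≤ q) (h3 : ∀ c ∈ F, 3 ≤ H1.n2 (contc c)) :
    (∀ w ∈ g.B, ∃ (R B S : BinaryTree Unit) (i : ℕ), H1.PD q R B S ∧ i < 20 ∧ w.1 = H1.W R (H1.ch (q + 1)) B S i) ∧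
    (∀ p ∈ g.arcs, ∀ w ∈ innA p, ∃ (R B S : BinaryTree Unit) (i : ℕ) (x : OddHC.X k), H1.PD q R B S ∧
      i ∈ [0, 1, 3, 6, 8, 9] ∧ x.1 = H1.W R (H1.ch (q + 1)) B S i ∧ w = TT x) := by
  have key : ∀ {R B S : BinaryTree Unit} {w0 : OddHC.X k}, NodeM k q R B S → cyc (H1.wX R B S q w0 0) ∈ F →
      H1.PD q R B S := by
    intro R B S w0 h1 hm
    refine pd_of_node h1 hq ?_
    have := h3 _ hm
    rw [contc_cyc, H1.wX_eq h1.dat h1.size w0 (by norm_num), H1.cont_W0, H1.n2_add, H1.n2_single, if_pos (by omega)] at this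
    omega
  constructor
  · intro w hw
    obtain ⟨R, B, S, w0, i, h1, hi, e, hm⟩ := h.words w hw
    exact ⟨R, B, S, i, key h1 hm, hi, by rw [e, H1.wX_eq h1.dat h1.size w0 hi]⟩
  · intro p hp w hw
    obtain ⟨R, B, S, w0, i, h1, hi, e, hm⟩ := h.inn0 p hp w hw
    have hi20 : i < 20 := by
      simp only [List.mem_cons, List.not_mem_nil, or_false] at hi
      omega
    exact ⟨R, B, S, i, _, key h1 hm, hi, H1.wX_eq h1.dat h1.size w0 hi20, e⟩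

/-- **W Rq - J1** -/
theorem TyRq.dis_Js (h : TyRq q F g) (hq : 1 ≤ q) (h3 : ∀ c ∈ F, 3 ≤ H1.n2 (contc c)) (hk : 13 ≤ k)
    (h' : J1.TyJs F' g') : ∀ w ∈ g.B, w ∉ g'.B := by
  intro w hw
  obtain ⟨R, B, S, i, h1, hi, e⟩ := (h.pd hq h3).1 w hw
  exact h1.not_js h' hk hi e

/-- **W Rq - J1 mirrored** -/
theorem TyRq.dis_Jt (h : TyRq q F g) (hq : 1 ≤ q) (h3 : ∀ c ∈ F, 3 ≤ H1.n2 (contc c)) (hk : 13 ≤ k)
    (h' : J1.TyJt F' g') : ∀ w ∈ g.B, w ∉ g'.B := by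
  intro w hw
  obtain ⟨R, B, S, i, h1, hi, e⟩ := (h.pd hq h3).1 w hw
  exact h1.not_jt h' hk hi e

/-- **I Rq - J1** -/
theorem TyRq.inn_Js (h : TyRq q F g) (hq : 1 ≤ q) (h3 : ∀ c ∈ F, 3 ≤ H1.n2 (contc c)) (hk : 13 ≤ k)
    (h' : J1.TyJs F' g') : ∀ p ∈ g.arcs, ∀ w ∈ innA p, w ∉ g'.B := by
  intro p hp w hw
  obtain ⟨R, B, S, i, x, h1, hi, e, rfl⟩ := (h.pd hq h3).2 p hp w hw
  exact h1.inn_js h' hk hi e

/-- **I Rq - J1 mirrored** -/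
theorem TyRq.inn_Jt (h : TyRq q F g) (hq : 1 ≤ q) (h3 : ∀ c ∈ F, 3 ≤ H1.n2 (contc c)) (hk : 13 ≤ k)
    (h' : J1.TyJt F' g') : ∀ p ∈ g.arcs, ∀ w ∈ innA p, w ∉ g'.B := by
  intro p hp w hw
  obtain ⟨R, B, S, i, x, h1, hi, e, rfl⟩ := (h.pd hq h3).2 p hp w hw
  exact h1.inn_jt h' hk hi e

/-- **I J1 - Rq** -/
theorem TyRq.Js_inn (h : TyRq q F g) (hk : 13 ≤ k) (h' : J1.TyJs F' g') :
    ∀ p ∈ g'.arcs, ∀ w ∈ innA p, w ∉ g.B := by
  intro p hp w hw hB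
  obtain ⟨R, B, S, w0, i, h1, hi, e, _⟩ := h.words w hB
  have hD := (h'.inn hk p hp w hw).1
  rw [e, H1.wX_eq h1.dat h1.size w0 hi] at hD
  refine J1.dp_W h1.dat.ne ?_ hi hD
  intro e0
  have := h1.dat.neS
  rw [e0] at this
  exact this rfl

/-- **I J1 mirrored - Rq** -/
theorem TyRq.Jt_inn (h : TyRq q F g) (hk : 13 ≤ k) (h' : J1.TyJt F' g') :
    ∀ p ∈ g'.arcs, ∀ w ∈ innA p, w ∉ g.B := by
  intro p hp w hw hB
  obtain ⟨R, B, S, w0, i, h1, hi, e, _⟩ := h.words w hB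
  obtain ⟨n, _, h2⟩ := h'.inn hk
  have hD := (h2 p hp w hw).1
  rw [e, H1.wX_eq h1.dat h1.size w0 hi] at hD
  refine J1.dp_W h1.dat.ne ?_ hi hD
  intro e0
  have := h1.dat.neS
  rw [e0] at this
  exact this rfl

end Pool.OddHC
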