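import Pool.Agent.Work.MP_8f87b2_h61.JsW
import Pool.Agent.Work.MP_8f87b2_h24.GadJAM
import Pool.Agent.Work.MP_8f87b2_h60.A0Gad

/-!
MP_8f87b2_co: the MIRRORED gadget J1a at the T-cycle of content `(s, 4, 2)`, `s ≥ 5` (`TyJt`): words = mirror of the words of
`R = [s][4]`, `B = [4]`, `S = [s]`. Interface lemmas, existence, components of the twenty words.
-/

set_option autoImplicit false

namespace Pool.OddHC

open Finset Equiv BinaryTree Pool.Agent.Work.MP_8f87b2_co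

namespace J1

open H1

variable {k : ℕ} {F F' : Set (Cyc k)} {g g' : DG k} {R B S : BinaryTree Unit}

/-- the mirrored words -/
noncomputable def jY (R B S : BinaryTree Unit) (w0 : X k) (i : ℕ) : X k := Tsq.mirX (jX R B S w0 i)

theorem jY_cont (R B S : BinaryTree Unit) (w0 : X k) (i : ℕ) :
    OddHC.cont (jY R B S w0 i).1 = OddHC.cont (jX R B S w0 i).1 := HM.cont_mir _

theorem jY_val (h : JDat k R B S) (w0 : X k) {i : ℕ} (hi : i < 20) :
    (jY R B S w0 i).1 = Tsq.mir (W R .nil B S i) := by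
  change Tsq.mir (jX R B S w0 i).1 = _
  rw [jX_eq h w0 hi]

theorem jY_w20M (h : JDat k R B S) (w0 : X k) {i : ℕ} (hi : i < 20) :
    (jY R B S w0 i).1 = w20M (Tsq.mir R) .nil (Tsq.mir B) (Tsq.mir S) i := by
  rw [jY_val h w0 hi, HM.mir_W _ _ _ _ hi]
  rfl

theorem mirX_inj' {a b : X k} (h : Tsq.mirX a = Tsq.mirX b) : a = b := by
  rw [← HM.mirX_mirX a, h, HM.mirX_mirX]

theorem jY_link (h : JDat k R B S) (w0 : X k) {i j : ℕ}
    (hij : (i, j) ∈ [(0, 10), (1, 11), (3, 12), (6, 15), (8, 14), (9, 17)]) :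
    TT (TT (jY R B S w0 j)) = jY R B S w0 i :=
  Tsq.TT_mir2 (jX_link h w0 hij)

theorem jY_rank (h : JDat k R B S) (w0 : X k) {i : ℕ} (hi : i < 20) (h0 : i ≠ 0) (h4 : i ≠ 4) (h10 : i ≠ 10) :
    Lower (contc (cyc (jY R B S w0 i))) (contc (cyc (jY R B S w0 0))) := by
  rw [contc_cyc, contc_cyc, jY_cont, jY_cont]
  have := jX_rank h w0 hi h0 h4 h10
  rw [contc_cyc, contc_cyc] at this
  exact this

theorem jY_hold (h : JDat k R B S) (w0 : X k) : ∀ i < 20, i ≠ 0 → i ≠ 4 → i ≠ 10 →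
    ¬ TT.SameCycle (jY R B S w0 0) (jY R B S w0 i) := by
  intro i hi h0 h4 h10 hs
  exact (jY_rank h w0 hi h0 h4 h10).ne (congrArg contc (cyc_eq.2 hs)).symm

theorem jY_ne (h : JDat k R B S) (w0 : X k) : TT (jY R B S w0 10) ≠ jY R B S w0 4 := by
  intro e
  have e1 := jX_link h w0 (i := 0) (j := 10) (by simp)
  unfold jY at e
  rw [← e1, Tsq.TT_mir] at e
  exact jX_ne h w0 (mirX_inj' e)

theorem jY_abs (h : JDat k R B S) (w0 : X k) (h4 : TT.SameCycle (jY R B S w0 0) (jY R B S w0 4)) :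
    (gadJAM (jY R B S w0)).Abs := by
  have hn := h.dat.num
  have hk := h.num
  refine gadJAM_abs' (R := Tsq.mir R) (B := Tsq.mir B) (S := Tsq.mir S) (by rw [Tsq.mir_num]; omega)
    (by rw [Tsq.mir_num, Tsq.mir_num]; omega) (fun i hi => jY_w20M h w0 hi)
    (fun i hi j hj e => jX_inj h w0 i hi j hj (mirX_inj' e)) (jY_link h w0 (by simp)) (jY_ne h w0) h4
    (jY_hold h w0)

theorem mem_gadJAM {w : ℕ → X k} {x : X k} : x ∈ (gadJAM w).B ↔ ∃ i < 20, w i = x := by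
  classical
  change x ∈ (range 20).image w ↔ _
  rw [Finset.mem_image]
  constructor
  · rintro ⟨i, hi, rfl⟩
    exact ⟨i, Finset.mem_range.1 hi, rfl⟩
  · rintro ⟨i, hi, rfl⟩; exact ⟨i, Finset.mem_range.2 hi, rfl⟩

/-- TYPE J1 mirrored with `R = [n+1][4]` (`s = n + 1`) -/
def TyJt (F : Set (Cyc k)) (g : DG k) : Prop :=
  ∃ (n : ℕ) (w0 : X k), 4 ≤ n ∧ JDat k (app (ch (n + 1)) (ch 4)) (ch 4) (ch (n + 1)) ∧
    cyc (jY (app (ch (n + 1)) (ch 4)) (ch 4) (ch (n + 1)) w0 4) =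
      cyc (jY (app (ch (n + 1)) (ch 4)) (ch 4) (ch (n + 1)) w0 0) ∧
    F = {cyc (jY (app (ch (n + 1)) (ch 4)) (ch 4) (ch (n + 1)) w0 0)} ∧
    g = gadJAM (jY (app (ch (n + 1)) (ch 4)) (ch 4) (ch (n + 1)) w0)

theorem TyJt.hF (h : TyJt F g) : ∀ w, w ∈ g.F ↔ cyc w ∈ F := by
  obtain ⟨n, w0, _, h1, h4, rfl, rfl⟩ := h
  intro w
  change TT.SameCycle _ _ ↔ cyc w = _
  rw [← cyc_eq]
  exact ⟨fun e => e.symm, fun e => e.symm⟩

theorem TyJt.new (h : TyJt F g) : ∀ c ∈ F, ∃ u ∈ g.B, cyc u = c := by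
  obtain ⟨n, w0, _, h1, h4, rfl, rfl⟩ := h
  rintro c rfl
  exact ⟨_, mem_gadJAM.2 ⟨0, by norm_num, rfl⟩, rfl⟩

theorem TyJt.old (h : TyJt F g) : ∃ u ∈ g.B, cyc u ∉ F := by
  obtain ⟨n, w0, _, h1, h4, rfl, rfl⟩ := h
  refine ⟨_, mem_gadJAM.2 ⟨1, by norm_num, rfl⟩, ?_⟩
  intro e
  exact jY_hold h1 w0 1 (by norm_num) (by norm_num) (by norm_num) (by norm_num)
    (cyc_eq.1 (Eq.symm e))

theorem TyJt.abs (h : TyJt F g) : g.Abs := by
  obtain ⟨n, w0, _, h1, h4, rfl, rfl⟩ := h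
  exact jY_abs h1 w0 (cyc_eq.1 h4.symm)

theorem jY_cyc10 (h : JDat k R B S) (w0 : X k) : cyc (jY R B S w0 10) = cyc (jY R B S w0 0) := by
  rw [← jY_link h w0 (i := 0) (j := 10) (by simp)]
  exact cyc_eq.2 ⟨2, by simp [pow_succ]⟩

/-- rank: every old word is `Lower` than the new T-cycle -/
theorem TyJt.rank (h : TyJt F g) : ∀ w ∈ g.B, cyc w ∈ F ∨ ∀ c ∈ F, Lower (contc (cyc w)) (contc c) := by
  obtain ⟨n, w0, _, h1, h4, rfl, rfl⟩ := h
  intro w hw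
  obtain ⟨i, hi, rfl⟩ := mem_gadJAM.1 hw
  by_cases h0 : i = 0
  · left; rw [h0]; rfl
  · by_cases h10 : i = 10
    · left
      rw [h10]
      exact jY_cyc10 h1 w0
    · by_cases h4' : i = 4
      · left; rw [h4']; exact h4
      · right
        rintro c rfl
        exact jY_rank h1 w0 hi h0 h4' h10

theorem TyJt.path (h : TyJt F g) : ∀ a ∈ g.arcs, ∃ n : ℕ, (TT ^ (n + 1)) a.1 = a.2 ∧ a.1 ∈ g.B ∧
    ∀ i < n, (TT ^ (i + 1)) a.1 ∈ innA a := by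
  obtain ⟨n, w0, _, h1, h4, rfl, rfl⟩ := h
  intro p hp
  have key : ∀ i j, (i, j) ∈ [(0, 10), (1, 11), (3, 12), (6, 15), (8, 14), (9, 17)] → j < 20 →
      p = (jY (app (ch (n + 1)) (ch 4)) (ch 4) (ch (n + 1)) w0 j,
        jY (app (ch (n + 1)) (ch 4)) (ch 4) (ch (n + 1)) w0 i) →
      ∃ m : ℕ, (TT ^ (m + 1)) p.1 = p.2 ∧
        p.1 ∈ (gadJAM (jY (app (ch (n + 1)) (ch 4)) (ch 4) (ch (n + 1)) w0)).B ∧
        ∀ i < m, (TT ^ (i + 1)) p.1 ∈ innA p := by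
    rintro i j hij hj rfl
    refine ⟨1, ?_, mem_gadJAM.2 ⟨j, hj, rfl⟩, ?_⟩
    · rw [pow_succ, pow_one, Perm.mul_apply]
      exact jY_link h1 w0 hij
    · intro m hm
      obtain rfl : m = 0 := by omega
      rw [pow_one]
      rfl
  have hp' : p = (jY (app (ch (n + 1)) (ch 4)) (ch 4) (ch (n + 1)) w0 11,
        jY (app (ch (n + 1)) (ch 4)) (ch 4) (ch (n + 1)) w0 1) ∨
      p = (jY (app (ch (n + 1)) (ch 4)) (ch 4) (ch (n + 1)) w0 12,
        jY (app (ch (n + 1)) (ch 4)) (ch 4) (ch (n + 1)) w0 3) ∨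
      p = (jY (app (ch (n + 1)) (ch 4)) (ch 4) (ch (n + 1)) w0 15,
        jY (app (ch (n + 1)) (ch 4)) (ch 4) (ch (n + 1)) w0 6) ∨
      p = (jY (app (ch (n + 1)) (ch 4)) (ch 4) (ch (n + 1)) w0 14,
        jY (app (ch (n + 1)) (ch 4)) (ch 4) (ch (n + 1)) w0 8) ∨
      p = (jY (app (ch (n + 1)) (ch 4)) (ch 4) (ch (n + 1)) w0 17,
        jY (app (ch (n + 1)) (ch 4)) (ch 4) (ch (n + 1)) w0 9) := hp
  rcases hp' with e | e | e | e | e
  · exact key 1 11 (by simp) (by norm_num) e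
  · exact key 3 12 (by simp) (by norm_num) e
  · exact key 6 15 (by simp) (by norm_num) e
  · exact key 8 14 (by simp) (by norm_num) e
  · exact key 9 17 (by simp) (by norm_num) e

/-- existence -/
theorem exJt {s : ℕ} (hs : 5 ≤ s) (hk : s + 6 = k) (z : Cyc k) (hz : contc z = {s} + {4} + {2}) :
    ∃ g, TyJt {z} g := by
  subst hk
  obtain ⟨n, rfl⟩ : ∃ n, s = n + 1 := ⟨s - 1, by omega⟩
  obtain ⟨w, rfl⟩ := Quotient.exists_rep z
  have hd : JDat (n + 1 + 6) (app (ch (n + 1)) (ch 4)) (ch 4) (ch (n + 1)) :=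
    JDat_ss (s := n + 1) (c := 4) (by norm_num) (by omega)
  have e0 : OddHC.cont (app (ch (n + 1)) (ch 4)) = {n + 1} + {4} := by
    rw [cont_app, ch_cont, ch_cont]
  have c0 : OddHC.cont (jY (app (ch (n + 1)) (ch 4)) (ch 4) (ch (n + 1)) w 0).1 = {n + 1} + {4} + {2} := by
    rw [jY_cont, jX_cont hd w, e0]
  have c4 : OddHC.cont (jY (app (ch (n + 1)) (ch 4)) (ch 4) (ch (n + 1)) w 4).1 = {n + 1} + {4} + {2} := by
    rw [jY_cont, jX_eq hd w (by norm_num), cont_z.2, e0]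
  have one : ∀ w w' : X (n + 1 + 6), OddHC.cont w.1 = {n + 1} + {4} + {2} →
      OddHC.cont w'.1 = {n + 1} + {4} + {2} → TT.SameCycle w w' := fun w w' h h' => same_42 hs w w' h h'
  refine ⟨_, n, w, by omega, hd, ?_, ?_, rfl⟩
  · exact cyc_eq.2 (one _ _ c4 c0)
  · rw [show (Quotient.mk _ w : Cyc (n + 1 + 6)) = cyc w from rfl, cyc_eq.2 (one _ _ hz c0)]

/-! ### The components of the right words -/

/-- `[n+1][4]` -/
def RS (n : ℕ) : BinaryTree Unit := ch n △ ch 4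

theorem RS_eq (n : ℕ) : app (ch (n + 1)) (ch 4) = RS n := rfl

/-- components of the twenty right words of `R = [n+1][4]` -/
def jt (n : ℕ) : ℕ → List (BinaryTree Unit)
  | 0 => [ch n, ch 3, ch 1]
  | 1 => [ch n, ch 3, .nil, .nil]
  | 2 => [.nil, ch n, ch 3, .nil]
  | 3 => [ch n △ (ch 3 △ (.nil △ .nil))]
  | 4 => [ch 1, ch n, ch 3]
  | 5 => [.nil, .nil, ch n, ch 3]
  | 6 => [RS n, .nil]
  | 7 => [.nil △ RS n]
  | 8 => [.nil, RS n]
  | 9 => [RS n △ .nil]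
  | 10 => [ch 3, ch 1, ch n]
  | 11 => [ch 3, .nil, .nil, ch n]
  | 12 => [ch (n + 1), ch 3, .nil]
  | 13 => [ch n, ch 3 △ (.nil △ .nil)]
  | 14 => [.nil △ ch (n + 1), ch 3]
  | 15 => [.nil, ch (n + 1), ch 3]
  | 16 => [ch n, ch 4, .nil]
  | 17 => [ch (n + 1) △ ch 4]
  | 18 => [.nil, ch n, ch 4]
  | _ => [ch n △ (ch 4 △ .nil)]

theorem comps_Wt (n : ℕ) {i : ℕ} (hi : i < 20) : comps (W (RS n) .nil (ch 4) (ch (n + 1)) i) = jt n i := by
  interval_cases i <;> rfl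

/-- the words of the mirrored gadget, mirrored -/
theorem TyJt.words (h : TyJt F g) : ∃ n, 4 ≤ n ∧ n + 7 = k ∧
    (∀ w ∈ g.B, ∃ i < 20, comps (Tsq.mir w.1) = jt n i) ∧
    (∀ w : X k, comps (Tsq.mir w.1) = jt n 0 ∨ comps (Tsq.mir w.1) = jt n 4 ∨ comps (Tsq.mir w.1) = jt n 10 →
      cyc w ∈ F) := by
  obtain ⟨n, w0, h1, h2, h3, rfl, rfl⟩ := h
  have hk := h2.num
  rw [RS_eq] at h2 h3 ⊢
  refine ⟨n, h1, ?_, ?_, ?_⟩
  · change (app (ch (n + 1)) (ch 4)).numNodes + 2 = k at hk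
    rw [num_app, ch_num, ch_num] at hk
    omega
  · intro w hw
    obtain ⟨i, hi, rfl⟩ := mem_gadJAM.1 hw
    refine ⟨i, hi, ?_⟩
    rw [jY_val h2 w0 hi, Tsq.mir_mir, comps_Wt n hi]
  · have key : ∀ (w : X k) (i : ℕ), i < 20 → comps (Tsq.mir w.1) = jt n i →
        w = jY (RS n) (ch 4) (ch (n + 1)) w0 i := by
      intro w i hi e
      apply Subtype.ext
      rw [jY_val h2 w0 hi, ← comps_inj (e.trans (comps_Wt n hi).symm), Tsq.mir_mir]
    rintro w (e | e | e)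
    · rw [key w 0 (by norm_num) e]; rfl
    · rw [key w 4 (by norm_num) e]; exact h3
    · rw [key w 10 (by norm_num) e]; exact jY_cyc10 h2 w0

theorem mir_w1' (P Q R : BinaryTree Unit) :
    Tsq.mir (w1 P Q R) = w1 (Tsq.mir R) (Tsq.mir Q) (Tsq.mir P) := by
  have h0 : Tsq.mir BinaryTree.nil = BinaryTree.nil := rfl
  simp only [w1, Tsq.mir_node, Tsq.mir_app, h0, app, app_assoc']

/-- a plain triple against the mirrored gadget: statements on the mirrored triple `mir R, mir Q, mir P` -/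
theorem jt_tri {P Q R : BinaryTree Unit} (h : IsTri P Q R F g) (h' : TyJt F' g') (hd : ∀ c ∈ F, c ∉ F')
    {P' Q' R' : BinaryTree Unit} (hP : Tsq.mir R = P') (hQ : Tsq.mir Q = Q') (hR : Tsq.mir P = R')
    (key : ∀ n, 4 ≤ n → n + 7 = k →
      (∀ j, (j = 0 ∨ j = 4 ∨ j = 10) → comps (w1 Q' R' P') ≠ jt n j ∧ comps (w1 R' P' Q') ≠ jt n j) →
      ∀ i < 20, comps (w1 P' Q' R') ≠ jt n i ∧ comps (w1 Q' R' P') ≠ jt n i ∧ comps (w1 R' P' Q') ≠ jt n i) :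
    ∀ w ∈ g.B, w ∉ g'.B := by
  subst hP hQ hR
  obtain ⟨n, h1, h2, h3, h4⟩ := h'.words
  have hn : ∀ j, (j = 0 ∨ j = 4 ∨ j = 10) → comps (w1 (Tsq.mir Q) (Tsq.mir P) (Tsq.mir R)) ≠ jt n j ∧
      comps (w1 (Tsq.mir P) (Tsq.mir R) (Tsq.mir Q)) ≠ jt n j := by
    obtain ⟨a, b, c, ha, hb, hc, e1, e2, e3, rfl, rfl⟩ := h
    intro j hj
    have hF : ∀ w : X k, comps (Tsq.mir w.1) = jt n j → cyc w ∈ F' := by
      intro w e
      apply h4
      rcases hj with rfl | rfl | rfl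
      · exact Or.inl e
      · exact Or.inr (Or.inl e)
      · exact Or.inr (Or.inr e)
    constructor
    · intro e
      exact hd (cyc c) (Or.inr rfl) (hF c (by rw [hc, mir_w1', e]))
    · intro e
      exact hd (cyc b) (Or.inl rfl) (hF b (by rw [hb, mir_w1', e]))
  intro w hw hw'
  obtain ⟨i, hi, e⟩ := h3 w hw'
  obtain ⟨k1, k2, k3⟩ := key n h1 h2 hn i hi
  rcases h.words w hw with e' | ⟨_, e' | e'⟩
  · exact k1 (by rw [← mir_w1', ← e', e])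
  · exact k3 (by rw [← mir_w1', ← e', e])
  · exact k2 (by rw [← mir_w1', ← e', e])

end J1

end Pool.OddHC
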