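import Pool.Agent.Work.MP_8f87b2_h63.BWt
import Pool.Agent.Work.MP_8f87b2_h63.RqJ
import Pool.Agent.Work.MP_8f87b2_h69w.TyBw

/-!
MP_8f87b2_co: rows of the B-windows `TyBw` with a marker `c ≥ 3` (no square in the new T-cycle): J1, J1 mirrored, S5, T, L, K, Km
(words and inner words, both directions).
-/

set_option autoImplicit false

namespace Pool.OddHC

open Finset Equiv BinaryTree Pool.Agent.Work.MP_8f87b2_co

variable {k : ℕ} {F F' : Set (Cyc k)} {g g' : DG k}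

/-- the content data of a B-window -/
theorem NodeBw.bd {c q : ℕ} {R B S : BinaryTree Unit} (h : NodeBw k c q R B S) (c3 : 3 ≤ c) : H1.BD q c R B S where
  dat := h.dat
  c3 := c3
  cb := h.lt
  mem := h.memS
  one := h.one
  big := h.part

/-- the marker of a B-window without squares is at least 3 -/
theorem NodeBw.c3 {c q : ℕ} {R B S : BinaryTree Unit} (h : NodeBw k c q R B S) (w0 : X k)
    (h2 : 2 ∉ contc (cyc (H1.wX R B S q w0 0))) : 3 ≤ c := by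
  by_contra hc
  have := h.c2
  obtain rfl : c = 2 := by omega
  apply h2
  rw [contc_cyc, h.toV.cont0]
  exact Multiset.mem_add.2 (Or.inl h.memR)

/-- the words of a B-window with a marker at least 3 -/
theorem TyBw.bd (h : TyBw F g) (h2 : ∀ d ∈ F, 2 ∉ contc d) : ∀ w ∈ g.B, ∃ (c q : ℕ) (R B S : BinaryTree Unit) (i : ℕ),
    NodeBw k c q R B S ∧ H1.BD q c R B S ∧ i < 20 ∧ w.1 = H1.W R (H1.ch (q + 1)) B S i := by
  intro w hw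
  obtain ⟨c, q, R, B, S, w0, i, h1, hi, rfl, hm⟩ := h.words w hw
  exact ⟨c, q, R, B, S, i, h1, h1.bd (h1.c3 w0 (h2 _ hm)), hi, h1.word w0 hi⟩

/-- the inner words of a B-window -/
theorem TyBw.inn0 (h : TyBw F g) : ∀ p ∈ g.arcs, ∀ w ∈ innA p, ∃ (c q : ℕ) (R B S : BinaryTree Unit) (w0 : X k) (i : ℕ),
    NodeBw k c q R B S ∧ i ∈ [0, 1, 3, 6, 8, 9] ∧ w = TT (H1.wX R B S q w0 i) ∧ cyc (H1.wX R B S q w0 0) ∈ F := by
  obtain ⟨c, q, R, B, S, w0, h1, hne, rfl, rfl⟩ := h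
  intro p hp w hw
  have hw' : w = TT p.1 := hw
  subst hw'
  have hp' : p = (H1.wX R B S q w0 0, H1.wX R B S q w0 10) ∨
      p = (H1.wX R B S q w0 1, H1.wX R B S q w0 11) ∨
      p = (H1.wX R B S q w0 3, H1.wX R B S q w0 12) ∨
      p = (H1.wX R B S q w0 6, H1.wX R B S q w0 15) ∨
      p = (H1.wX R B S q w0 8, H1.wX R B S q w0 14) ∨
      p = (H1.wX R B S q w0 9, H1.wX R B S q w0 17) := hp
  rcases hp' with rfl | rfl | rfl | rfl | rfl | rfl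
  · exact ⟨c, q, R, B, S, w0, 0, h1, by simp, rfl, rfl⟩
  · exact ⟨c, q, R, B, S, w0, 1, h1, by simp, rfl, rfl⟩
  · exact ⟨c, q, R, B, S, w0, 3, h1, by simp, rfl, rfl⟩
  · exact ⟨c, q, R, B, S, w0, 6, h1, by simp, rfl, rfl⟩
  · exact ⟨c, q, R, B, S, w0, 8, h1, by simp, rfl, rfl⟩
  · exact ⟨c, q, R, B, S, w0, 9, h1, by simp, rfl, rfl⟩

theorem bw_list20 {i : ℕ} (hi : i ∈ [0, 1, 3, 6, 8, 9]) : i < 20 := by
  simp only [List.mem_cons, List.not_mem_nil, or_false] at hi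
  omega

theorem TyBw.inbd (h : TyBw F g) (h2 : ∀ d ∈ F, 2 ∉ contc d) : ∀ p ∈ g.arcs, ∀ w ∈ innA p,
    ∃ (c q : ℕ) (R B S : BinaryTree Unit) (i : ℕ) (x : X k), NodeBw k c q R B S ∧ H1.BD q c R B S ∧
      i ∈ [0, 1, 3, 6, 8, 9] ∧ x.1 = H1.W R (H1.ch (q + 1)) B S i ∧ w = TT x := by
  intro p hp w hw
  obtain ⟨c, q, R, B, S, w0, i, h1, hi, e, hm⟩ := h.inn0 p hp w hw
  exact ⟨c, q, R, B, S, i, _, h1, h1.bd (h1.c3 w0 (h2 _ hm)), hi, h1.word w0 (bw_list20 hi), e⟩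

/-! ### J1, J1 mirrored -/

/-- **W Bw - J1** -/
theorem TyBw.dis_Js (h : TyBw F g) (h2 : ∀ d ∈ F, 2 ∉ contc d) (hk : 13 ≤ k) (h' : J1.TyJs F' g') :
    ∀ w ∈ g.B, w ∉ g'.B := by
  intro w hw
  obtain ⟨c, q, R, B, S, i, _, h1, hi, e⟩ := h.bd h2 w hw
  exact h1.pd.not_js h' hk hi e

/-- **W Bw - J1 mirrored** -/
theorem TyBw.dis_Jt (h : TyBw F g) (h2 : ∀ d ∈ F, 2 ∉ contc d) (hk : 13 ≤ k) (h' : J1.TyJt F' g') :
    ∀ w ∈ g.B, w ∉ g'.B := by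
  intro w hw
  obtain ⟨c, q, R, B, S, i, _, h1, hi, e⟩ := h.bd h2 w hw
  exact h1.pd.not_jt h' hk hi e

/-- **I Bw - J1** -/
theorem TyBw.inn_Js (h : TyBw F g) (h2 : ∀ d ∈ F, 2 ∉ contc d) (hk : 13 ≤ k) (h' : J1.TyJs F' g') :
    ∀ p ∈ g.arcs, ∀ w ∈ innA p, w ∉ g'.B := by
  intro p hp w hw
  obtain ⟨c, q, R, B, S, i, x, _, h1, hi, e, rfl⟩ := h.inbd h2 p hp w hw
  exact h1.pd.inn_js h' hk hi e

/-- **I Bw - J1 mirrored** -/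
theorem TyBw.inn_Jt (h : TyBw F g) (h2 : ∀ d ∈ F, 2 ∉ contc d) (hk : 13 ≤ k) (h' : J1.TyJt F' g') :
    ∀ p ∈ g.arcs, ∀ w ∈ innA p, w ∉ g'.B := by
  intro p hp w hw
  obtain ⟨c, q, R, B, S, i, x, _, h1, hi, e, rfl⟩ := h.inbd h2 p hp w hw
  exact h1.pd.inn_jt h' hk hi e

/-- **I J1 - Bw** (every marker) -/
theorem TyBw.Js_inn (h : TyBw F g) (hk : 13 ≤ k) (h' : J1.TyJs F' g') :
    ∀ p ∈ g'.arcs, ∀ w ∈ innA p, w ∉ g.B := by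
  intro p hp w hw hB
  obtain ⟨c, q, R, B, S, w0, i, h1, hi, e, _⟩ := h.words w hB
  have hD := (h'.inn hk p hp w hw).1
  rw [e, h1.word w0 hi] at hD
  exact J1.dp_W h1.dat.ne h1.toV.neS hi hD

/-- **I J1 mirrored - Bw** (every marker) -/
theorem TyBw.Jt_inn (h : TyBw F g) (hk : 13 ≤ k) (h' : J1.TyJt F' g') :
    ∀ p ∈ g'.arcs, ∀ w ∈ innA p, w ∉ g.B := by
  intro p hp w hw hB
  obtain ⟨c, q, R, B, S, w0, i, h1, hi, e, _⟩ := h.words w hB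
  obtain ⟨n, _, h2⟩ := h'.inn hk
  have hD := (h2 p hp w hw).1
  rw [e, h1.word w0 hi] at hD
  exact J1.dp_W h1.dat.ne h1.toV.neS hi hD

/-! ### S5 -/

/-- **W Bw - S5** -/
theorem TyBw.dis_S5 (h : TyBw F g) (h2 : ∀ d ∈ F, 2 ∉ contc d) (h' : TyS5 F' g') : ∀ w ∈ g.B, w ∉ g'.B := by
  intro w hw hw'
  obtain ⟨c, q, R, B, S, i, _, h1, hi, e⟩ := h.bd h2 w hw
  exact h1.pd.ne_S5 h' hi hw' (by rw [e])

/-- **I Bw - S5** -/
theorem TyBw.inn_S5 (h : TyBw F g) (h2 : ∀ d ∈ F, 2 ∉ contc d) (h' : TyS5 F' g') :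
    ∀ p ∈ g.arcs, ∀ w ∈ innA p, w ∉ g'.B := by
  intro p hp w hw hw'
  obtain ⟨c, q, R, B, S, i, x, _, h1, hi, e, rfl⟩ := h.inbd h2 p hp w hw
  exact h1.pd.ne_S5 h' (bw_list20 hi) hw' (by rw [H1.cont_TT, e])

/-! ### T -/

theorem NodeBw.size20 {c q : ℕ} {R B S : BinaryTree Unit} (h : NodeBw k c q R B S) {i : ℕ} (hi : i < 20) (x : X k)
    (e : x.1 = H1.W R (H1.ch (q + 1)) B S i) : (H1.W R (H1.ch (q + 1)) B S i).numNodes = k := by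
  rw [← e]
  exact mem_treesOfNumNodesEq.1 x.2

/-- **W Bw - T** -/
theorem TyBw.dis_T (h : TyBw F g) (h2 : ∀ d ∈ F, 2 ∉ contc d) (hk : 13 ≤ k) (h' : TyT F' g') :
    ∀ w ∈ g.B, w ∉ g'.B := by
  intro w hw hw'
  obtain ⟨c, q, R, B, S, i, h0, h1, hi, e⟩ := h.bd h2 w hw
  obtain ⟨b, m, a, j, h3, hj, e3⟩ := h'.word hw'
  exact h1.ne_T hi h3.pos hj (by rw [h0.size20 hi w e]; exact hk) (by rw [← e, e3])

/-- **I Bw - T** -/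
theorem TyBw.inn_T (h : TyBw F g) (h2 : ∀ d ∈ F, 2 ∉ contc d) (hk : 13 ≤ k) (h' : TyT F' g') :
    ∀ p ∈ g.arcs, ∀ w ∈ innA p, w ∉ g'.B := by
  intro p hp w hw hw'
  obtain ⟨c, q, R, B, S, i, x, h0, h1, hi, e, rfl⟩ := h.inbd h2 p hp w hw
  obtain ⟨b, m, a, j, h3, hj, e3⟩ := h'.word hw'
  exact h1.ne_T (bw_list20 hi) h3.pos hj (by rw [h0.size20 (bw_list20 hi) x e]; exact hk)
    (by rw [← e, ← H1.cont_TT, e3])

/-- **I T - Bw** -/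
theorem TyBw.T_inn (h : TyBw F g) (h2 : ∀ d ∈ F, 2 ∉ contc d) (hk : 13 ≤ k) (h' : TyT F' g') :
    ∀ p ∈ g'.arcs, ∀ w ∈ innA p, w ∉ g.B := by
  intro p hp w hw hB
  obtain ⟨c, q, R, B, S, i, h0, h1, hi, e⟩ := h.bd h2 w hB
  have hw' : w = TT p.1 := hw
  obtain ⟨n, _, hp1, _⟩ := h'.path p hp
  obtain ⟨b, m, a, j, h3, hj, e3⟩ := h'.word hp1
  exact h1.ne_T hi (b := b) (m := m) h3.pos hj (by rw [h0.size20 hi w e]; exact hk)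
    (by rw [← e, hw', H1.cont_TT, e3])

/-! ### L, K, Km -/

/-- **W Bw - L** -/
theorem TyBw.dis_L (h : TyBw F g) (h2 : ∀ d ∈ F, 2 ∉ contc d) (h' : TyL F' g') : ∀ w ∈ g.B, w ∉ g'.B := by
  obtain ⟨R', e, h3, h4, h5, h6, ht⟩ := h'
  have hX := ht2_ne (ht_ins_ge R' e h3)
  intro w hw hw'
  obtain ⟨c, q, R, B, S, i, _, h1, hi, ew⟩ := h.bd h2 w hw
  rw [H1.ch_eq] at ew
  rcases ht.words _ hw' with e1 | ⟨_, e1 | e1⟩ <;> rw [ew] at e1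
  · exact h1.pd.L0 hi hX e1
  · exact h1.pd.L1 hi hX h6 e1
  · exact h1.pd.L2 hi hX h5 e1

/-- **W Bw - K** -/
theorem TyBw.dis_K (h : TyBw F g) (h2 : ∀ d ∈ F, 2 ∉ contc d) {U : BinaryTree Unit} (hU : KSh U) (h' : TyK U F' g') :
    ∀ w ∈ g.B, w ∉ g'.B := by
  intro w hw hw'
  obtain ⟨c, q, R, B, S, i, _, h1, hi, ew⟩ := h.bd h2 w hw
  obtain ⟨k1, k2, k3⟩ := h1.pd.not_K hU hi
  rcases IsTri.words h' _ hw' with e1 | ⟨_, e1 | e1⟩ <;> rw [ew] at e1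
  · exact k1 e1
  · exact k2 e1
  · exact k3 e1

/-- **W Bw - Km** -/
theorem TyBw.dis_Km (h : TyBw F g) (h2 : ∀ d ∈ F, 2 ∉ contc d) {U : BinaryTree Unit} (hU : KmSh U) (h' : TyK' U F' g') :
    ∀ w ∈ g.B, w ∉ g'.B := by
  intro w hw hw'
  obtain ⟨c, q, R, B, S, i, _, h1, hi, ew⟩ := h.bd h2 w hw
  obtain ⟨k1, k2, k3⟩ := h1.pd.not_Km hU hi
  rcases IsTri.words h' _ hw' with e1 | ⟨_, e1 | e1⟩ <;> rw [ew] at e1
  · exact k1 e1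
  · exact k2 e1
  · exact k3 e1

/-- the inner words start and end high -/
theorem NodeBw.innP {c q : ℕ} {R B S : BinaryTree Unit} (h : NodeBw k c q R B S) (c3 : 3 ≤ c) (w0 : X k) {i : ℕ}
    (hi : i ∈ [0, 1, 3, 6, 8, 9]) : H1.InnP c (TT (H1.wX R B S q w0 i)).1 ∧
      H1.InnP c (Tsq.mirX (TT (H1.wX R B S q w0 i))).1 := by
  have hp : ∀ x ∈ OddHC.cont R, c ≤ x := by
    intro x hx
    have := h.lt
    rcases h.part x hx with e | e <;> omega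
  have ht : c < Tsq.ht R := by
    rw [H1.ht_eq]
    have := h.top
    have := h.lt
    omega
  obtain ⟨a, b, h1⟩ := H1.hg_FMT (by omega) (H1.hg_of_cont (by omega) hp) ht
  obtain ⟨u, v, h2⟩ := H1.FMT_W (q := q) (B := B) (S := S) h1 (by rw [H1.ht_eq]; exact h.top) i hi
  rw [← h.word w0 (bw_list20 hi)] at h2
  obtain ⟨h3, h4⟩ := h2.inner
  exact ⟨⟨c3, h3, h4⟩, ⟨c3, h4.mir, h3.mir⟩⟩

theorem TyBw.innP (h : TyBw F g) (h2 : ∀ d ∈ F, 2 ∉ contc d) : ∀ p ∈ g.arcs, ∀ w ∈ innA p, ∃ c : ℕ, H1.InnP c w.1 := by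
  intro p hp w hw
  obtain ⟨c, q, R, B, S, w0, i, h1, hi, rfl, hm⟩ := h.inn0 p hp w hw
  exact ⟨c, (h1.innP (h1.c3 w0 (h2 _ hm)) w0 hi).1⟩

/-- **I Bw - L** -/
theorem TyBw.inner_L (h : TyBw F g) (h2 : ∀ d ∈ F, 2 ∉ contc d) (h' : TyL F' g') :
    ∀ p ∈ g.arcs, ∀ w ∈ innA p, w ∉ g'.B := fun p hp w hw => by
  obtain ⟨c, h1⟩ := h.innP h2 p hp w hw
  exact h1.not_L h'

/-- **I Bw - K** -/
theorem TyBw.inner_K (h : TyBw F g) (h2 : ∀ d ∈ F, 2 ∉ contc d) {U : BinaryTree Unit} (h' : TyK U F' g') :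
    ∀ p ∈ g.arcs, ∀ w ∈ innA p, w ∉ g'.B := fun p hp w hw => by
  obtain ⟨c, h1⟩ := h.innP h2 p hp w hw
  exact h1.not_K h'

/-- **I Bw - Km** -/
theorem TyBw.inner_Km (h : TyBw F g) (h2 : ∀ d ∈ F, 2 ∉ contc d) {U : BinaryTree Unit} (h' : TyK' U F' g') :
    ∀ p ∈ g.arcs, ∀ w ∈ innA p, w ∉ g'.B := fun p hp w hw => by
  obtain ⟨c, h1⟩ := h.innP h2 p hp w hw
  exact h1.not_K' h'

end Pool.OddHC
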