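import Pool.Agent.Work.MP_8f87b2_h63.WCont
import Pool.Agent.Work.MP_8f87b2_h61.JtW
import Pool.Agent.Work.MP_8f87b2_h63.J4I
import Pool.Agent.Work.MP_8f87b2_h62.W3c
import Pool.Agent.Work.MP_8f87b2_h20.S5Cont
import Pool.Agent.Work.MP_8f87b2_h20.S5Link

/-!
MP_8f87b2_co: the words of a B-WINDOW (window at `[b]`, `b = q + 3`, with the marker `[c]`, `3 ≤ c < b`, inside `R`, not in
`B`) against J1 (right and mirrored), the triples of section 5 and the windows of height 3, by contents.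
-/

set_option autoImplicit false
set_option linter.unusedSimpArgs false

namespace Pool.OddHC

open Finset Equiv BinaryTree Pool.Agent.Work.MP_8f87b2_co

namespace H1

variable {k : ℕ} {q c : ℕ} {R B S : BinaryTree Unit}

/-- the data of a window with `q ≥ 1`: all parts of `R` at least 3, at least two parts -/
structure PD (q : ℕ) (R B S : BinaryTree Unit) : Prop where
  dat : Dat q R B S
  q1 : 1 ≤ q
  R3 : ∀ x ∈ OddHC.cont R, 3 ≤ x
  two : 2 ≤ H1.n2 (OddHC.cont R)

theorem PD.S3 (h : PD q R B S) : ∀ x ∈ OddHC.cont S, 3 ≤ x := fun x hx =>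
  h.R3 x (by rw [← h.dat.cont, Multiset.mem_add]; exact Or.inr hx)

theorem PD.B3 (h : PD q R B S) : ∀ x ∈ OddHC.cont B, 3 ≤ x := fun x hx =>
  h.R3 x (by rw [← h.dat.cont, Multiset.mem_add]; exact Or.inl hx)

theorem PD.supR (h : PD q R B S) : q + 3 ≤ (OddHC.cont R).sup := by
  rw [← OddHC.ht_eq]; exact h.dat.big

theorem PD.supS (h : PD q R B S) : q + 3 ≤ (OddHC.cont S).sup := by
  rw [← OddHC.ht_eq, h.dat.htS]; exact h.dat.big

/-- all parts at least 3 -/
def V3 (M : Multiset ℕ) : Prop := ∀ x ∈ M, 3 ≤ x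

theorem V3.raise {M : Multiset ℕ} (h : V3 M) (h0 : M ≠ 0) : V3 (raise M) := by
  intro x hx
  rcases Multiset.mem_cons.1 hx with h1 | h1
  · have := h _ (sup_mem h0); omega
  · exact h x (Multiset.mem_of_mem_erase h1)

theorem V3.add {M N : Multiset ℕ} (h : V3 M) (h' : V3 N) : V3 (M + N) := by
  intro x hx
  rcases Multiset.mem_add.1 hx with h1 | h1
  · exact h x h1
  · exact h' x h1

theorem V3.count {M : Multiset ℕ} (h : V3 M) {j : ℕ} (hj : j < 3) : M.count j = 0 := by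
  rw [Multiset.count_eq_zero]
  intro hm
  have := h j hm
  omega

theorem raise_ne (M : Multiset ℕ) : raise M ≠ 0 := by
  unfold raise; simp

/-- numbers of parts 1, 2 of the words of a B-window -/
theorem PD.c12 (h : PD q R B S) {i : ℕ} (hi : i < 20) :
    (OddHC.cont (W R (ch (q + 1)) B S i)).count 1 ≤ 2 ∧ (OddHC.cont (W R (ch (q + 1)) B S i)).count 2 ≤ 1 ∧
    (1 ≤ (OddHC.cont (W R (ch (q + 1)) B S i)).count 2 → q = 1 ∧
      (i = 1 ∨ i = 2 ∨ i = 11 ∨ i = 3 ∨ i = 7 ∨ i = 8 ∨ i = 9 ∨ i = 12 ∨ i = 13 ∨ i = 14 ∨ i = 17 ∨ i = 18 ∨ i = 19)) ∧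
    ((OddHC.cont (W R (ch (q + 1)) B S i)).count 1 = 0 → 1 ≤ (OddHC.cont (W R (ch (q + 1)) B S i)).count 2 →
      i = 9 ∨ i = 17 ∨ i = 19) := by
  rw [cont_all h.dat hi]
  have q1 := h.q1
  have nR := h.dat.neR
  have nS := h.dat.neS
  have vR : V3 (OddHC.cont R) := h.R3
  have vS : V3 (OddHC.cont S) := h.S3
  have vB : V3 (OddHC.cont B) := h.B3
  have vR1 := vR.raise nR
  have vR2 := vR1.raise (raise_ne _)
  have vS1 := vS.raise nS
  have vS2 := vS1.raise (raise_ne _)
  have z1 := fun (j : ℕ) (hj : j < 3) => vR.count hj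
  have z2 := fun (j : ℕ) (hj : j < 3) => vR1.count hj
  have z3 := fun (j : ℕ) (hj : j < 3) => vR2.count hj
  have z4 := fun (j : ℕ) (hj : j < 3) => vS.count hj
  have z5 := fun (j : ℕ) (hj : j < 3) => vS1.count hj
  have z6 := fun (j : ℕ) (hj : j < 3) => vS2.count hj
  have z7 := fun (j : ℕ) (hj : j < 3) => vB.count hj
  have a1 : ({1} : Multiset ℕ).count 1 = 1 := Multiset.count_singleton_self _
  have a2 : ({1} : Multiset ℕ).count 2 = 0 := by decide
  have a3 : ({q + 1} : Multiset ℕ).count 1 = 0 := by rw [Multiset.count_singleton, if_neg (by omega)]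
  have a4 : ({q + 1} : Multiset ℕ).count 2 = if q = 1 then 1 else 0 := by
    rw [Multiset.count_singleton]
    by_cases e : q = 1
    · rw [if_pos (by omega), if_pos e]
    · rw [if_neg (by omega), if_neg e]
  have a5 : ∀ j < 3, ({q + 2} : Multiset ℕ).count j = 0 := by
    intro j hj; rw [Multiset.count_singleton, if_neg (by omega)]
  have a6 : ∀ j < 3, ({q + 3} : Multiset ℕ).count j = 0 := by
    intro j hj; rw [Multiset.count_singleton, if_neg (by omega)]
  have hB : ((raise (OddHC.cont B)).count 1 = if OddHC.cont B = 0 then 1 else 0) ∧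
      (raise (OddHC.cont B)).count 2 = 0 := by
    by_cases e : OddHC.cont B = 0
    · rw [e, raise_zero, if_pos rfl]
      exact ⟨a1, a2⟩
    · rw [if_neg e]
      exact ⟨(vB.raise e).count (by norm_num), (vB.raise e).count (by norm_num)⟩
  have hSB : (raise (OddHC.cont S + raise (OddHC.cont B))).count 1 = (if OddHC.cont B = 0 then 1 else 0) ∧
      (raise (OddHC.cont S + raise (OddHC.cont B))).count 2 = 0 := by
    have hsup : 3 ≤ (OddHC.cont S + raise (OddHC.cont B)).sup := by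
      rw [sup_add']
      have := h.supS
      omega
    have e1 : (raise (OddHC.cont S + raise (OddHC.cont B))).count 1 =
        (OddHC.cont S + raise (OddHC.cont B)).count 1 := count_raise 1 (by omega) (by omega)
    have e2 : (raise (OddHC.cont S + raise (OddHC.cont B))).count 2 =
        (OddHC.cont S + raise (OddHC.cont B)).count 2 := count_raise 2 (by omega) (by omega)
    rw [e1, e2, Multiset.count_add, Multiset.count_add, z4 1 (by norm_num), z4 2 (by norm_num), hB.1, hB.2]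
    constructor <;> simp
  have b1 := z1 1 (by norm_num)
  have b2 := z1 2 (by norm_num)
  have b3 := z2 1 (by norm_num)
  have b4 := z2 2 (by norm_num)
  have b5 := z3 1 (by norm_num)
  have b6 := z3 2 (by norm_num)
  have b7 := z4 1 (by norm_num)
  have b8 := z4 2 (by norm_num)
  have b9 := z5 1 (by norm_num)
  have b10 := z5 2 (by norm_num)
  have b11 := z6 1 (by norm_num)
  have b12 := z6 2 (by norm_num)
  have b13 := z7 1 (by norm_num)
  have b14 := z7 2 (by norm_num)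
  have c1 := a5 1 (by norm_num)
  have c2 := a5 2 (by norm_num)
  have c4 := a6 1 (by norm_num)
  have c5 := a6 2 (by norm_num)
  obtain ⟨hB1, hB2⟩ := hB
  obtain ⟨hS1, hS2⟩ := hSB
  obtain ⟨u, hu, hu'⟩ : ∃ u, ({q + 1} : Multiset ℕ).count 2 = u ∧ (u = 1 ∧ q = 1 ∨ u = 0) := by
    refine ⟨_, a4, ?_⟩
    by_cases e : q = 1
    · rw [if_pos e]; exact Or.inl ⟨rfl, e⟩
    · rw [if_neg e]; exact Or.inr rfl
  obtain ⟨v, hv, hv1, hv'⟩ : ∃ v, (raise (OddHC.cont B)).count 1 = v ∧
      (raise (OddHC.cont S + raise (OddHC.cont B))).count 1 = v ∧ v ≤ 1 := by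
    refine ⟨_, hB1, hS1, ?_⟩
    split_ifs <;> omega
  interval_cases i <;> simp only [wcn] <;> (try split_ifs) <;>
    simp only [Multiset.count_add, a1, a2, a3, hu, b1, b2, b3, b4, b5, b6, b7, b8, b9, b10, b11, b12, b13, b14, c1,
      c2, c4, c5, hv, hB2, hv1, hS2] <;>
    refine ⟨by omega, by omega, fun hh => ⟨by omega, ?_⟩, fun hh1 hh2 => ?_⟩ <;> first | omega | simp

theorem PD.n2 (h : PD q R B S) {i : ℕ} (hi : i < 20) : 3 ≤ H1.n2 (OddHC.cont (W R (ch (q + 1)) B S i)) := by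
  have := n2_all h.dat h.q1 hi
  have := h.two
  omega

/-! ### J1, J1 mirrored: only the content of the new T-cycle -/

theorem PD.ne_jt (h : PD q R B S) {i j n : ℕ} (hi : i < 20) (hj : j < 20) (hn : 4 ≤ n)
    (e : OddHC.cont (W R (ch (q + 1)) B S i) = J1.jtc n j) :
    q = 1 ∧ (i = 9 ∨ i = 17 ∨ i = 19) ∧ (j = 0 ∨ j = 4 ∨ j = 10) := by
  have h1 := h.n2 hi
  obtain ⟨_, _, h3, h4⟩ := h.c12 hi
  rw [e] at h1 h3 h4
  have t1 : H1.n2 ({1} : Multiset ℕ) = 0 := by rw [n2_single, if_neg (by norm_num)]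
  have t2 : ∀ a, 2 ≤ a → H1.n2 ({a} : Multiset ℕ) = 1 := fun a ha => by rw [n2_single, if_pos ha]
  have key : J1.jtc n j = {4} + {2} + {n + 1} → q = 1 ∧ (i = 9 ∨ i = 17 ∨ i = 19) := by
    intro e2
    rw [e2] at h3 h4
    refine ⟨(h3 (by simp [Multiset.count_singleton])).1, h4 ?_ (by simp [Multiset.count_singleton])⟩
    rw [Multiset.count_eq_zero]
    simp only [Multiset.mem_add, Multiset.mem_singleton]
    omega
  interval_cases j <;>
    first
    | exact ⟨(key rfl).1, (key rfl).2, by omega⟩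
    | (simp only [J1.jtc, n2_add, t1] at h1
       rw [t2 _ (by omega), t2 _ (by omega)] at h1
       omega)

theorem PD.ne_jc (h : PD q R B S) {i j n : ℕ} (hi : i < 20) (hj : j < 20) (hn : 4 ≤ n)
    (e : OddHC.cont (W R (ch (q + 1)) B S i) = J1.jc n j) :
    q = 1 ∧ (i = 9 ∨ i = 17 ∨ i = 19) ∧ (j = 0 ∨ j = 4 ∨ j = 10) := by
  have h1 := h.n2 hi
  obtain ⟨_, _, h3, h4⟩ := h.c12 hi
  rw [e] at h1 h3 h4
  have t1 : H1.n2 ({1} : Multiset ℕ) = 0 := by rw [n2_single, if_neg (by norm_num)]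
  have t2 : ∀ a, 2 ≤ a → H1.n2 ({a} : Multiset ℕ) = 1 := fun a ha => by rw [n2_single, if_pos ha]
  have key : J1.jc n j = {3} + {2} + {n + 1} → q = 1 ∧ (i = 9 ∨ i = 17 ∨ i = 19) := by
    intro e2
    rw [e2] at h3 h4
    refine ⟨(h3 (by simp [Multiset.count_singleton])).1, h4 ?_ (by simp [Multiset.count_singleton])⟩
    rw [Multiset.count_eq_zero]
    simp only [Multiset.mem_add, Multiset.mem_singleton]
    omega
  interval_cases j <;>
    first
    | exact ⟨(key rfl).1, (key rfl).2, by omega⟩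
    | (simp only [J1.jc, n2_add, t1] at h1
       rw [t2 _ (by omega), t2 _ (by omega)] at h1
       omega)

theorem PD.neR (h : PD q R B S) : R ≠ .nil := h.dat.ne

theorem PD.neS (h : PD q R B S) : S ≠ .nil := by
  intro e
  have := h.dat.neS
  rw [e] at this
  exact this rfl

/-- the words 9, 17, 19 for `q = 1` have two components -/
theorem two_comps {i : ℕ} (hi : i = 9 ∨ i = 17 ∨ i = 19) : (comps (W R (ch 2) B S i)).length = 2 := by
  have cQ : comps (ch 2) = [ch 1] := rfl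
  rcases hi with rfl | rfl | rfl
  · change (comps ((R △ .nil) △ ch 2)).length = 2
    rw [comps_node, cQ]; rfl
  · change (comps (app (ch 2) ((S △ B) △ .nil))).length = 2
    rw [comps_app, comps_node, cQ]; rfl
  · change (comps (app S (B △ .nil) △ ch 2)).length = 2
    rw [comps_node, cQ]; rfl

theorem comps_mir_length (t : BinaryTree Unit) : (comps (Tsq.mir t)).length = (comps t).length := by
  induction t with
  | nil => rfl
  | node _ A C _ ihC =>
    change (comps (Tsq.mir (A △ C))).length = (comps (A △ C)).length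
    rw [Tsq.mir_node, comps_app, List.length_append, ihC, comps_node, List.length_cons]
    rfl

/-- **words against J1** -/
theorem PD.not_js {F : Set (Cyc k)} {g : DG k} (h : PD q R B S) (h' : J1.TyJs F g) (hk : 13 ≤ k) {w : X k} {i : ℕ}
    (hi : i < 20) (hw : w.1 = W R (ch (q + 1)) B S i) : w ∉ g.B := by
  intro hB
  obtain ⟨n, hn, _, h2⟩ := h'.words' hk
  obtain ⟨j, hj, e1, e2⟩ := h2 w hB
  rw [hw] at e1 e2
  obtain ⟨rfl, h3, h4⟩ := h.ne_jc hi hj (by omega) e2
  have := two_comps (R := R) (B := B) (S := S) h3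
  rw [e1] at this
  rcases h4 with rfl | rfl | rfl <;> exact absurd this (by simp [J1.jl])

/-- **words against J1 mirrored** -/
theorem PD.not_jt {F : Set (Cyc k)} {g : DG k} (h : PD q R B S) (h' : J1.TyJt F g) (hk : 13 ≤ k) {w : X k} {i : ℕ}
    (hi : i < 20) (hw : w.1 = W R (ch (q + 1)) B S i) : w ∉ g.B := by
  intro hB
  obtain ⟨n, hn, _, h2⟩ := h'.words' hk
  obtain ⟨j, hj, e1, e2⟩ := h2 w hB
  rw [hw] at e1 e2
  obtain ⟨rfl, h3, h4⟩ := h.ne_jt hi hj (by omega) e2
  have := two_comps (R := R) (B := B) (S := S) h3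
  rw [← comps_mir_length, e1] at this
  rcases h4 with rfl | rfl | rfl <;> exact absurd this (by simp [J1.jt])

/-- inner words of J1 and J1 mirrored are no words of a window -/
theorem PD.js_inn {F : Set (Cyc k)} {g : DG k} (h : PD q R B S) (h' : J1.TyJs F g) (hk : 13 ≤ k) {i : ℕ} (hi : i < 20) :
    ∀ p ∈ g.arcs, ∀ w ∈ innA p, w.1 ≠ W R (ch (q + 1)) B S i := by
  intro p hp w hw e
  have := (h'.inn hk p hp w hw).1
  rw [e] at this
  exact J1.dp_W h.neR h.neS hi this

theorem PD.jt_inn {F : Set (Cyc k)} {g : DG k} (h : PD q R B S) (h' : J1.TyJt F g) (hk : 13 ≤ k) {i : ℕ} (hi : i < 20) :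
    ∀ p ∈ g.arcs, ∀ w ∈ innA p, w.1 ≠ W R (ch (q + 1)) B S i := by
  intro p hp w hw e
  obtain ⟨n, _, h1⟩ := h'.inn hk
  have := (h1 p hp w hw).1
  rw [e] at this
  exact J1.dp_W h.neR h.neS hi this

/-! ### Inner words of the window -/

theorem mir_chn (n : ℕ) : Tsq.mir (ch n) = ch n := J1.mir_ch_t n

/-- `T (mir y)` starts with `1^(n+1)` if `mir y = A [n+1] C`, `A`, `C` low -/
theorem TT_start {n : ℕ} {A C : BinaryTree Unit} {y : X k} (hA : Tsq.ht A < n + 1) (hC : Tsq.ht C ≤ n + 1)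
    (hy : y.1 = app A (app (ch (n + 1)) C)) : ∃ r, wd (TT y).1 = List.replicate (n + 1) true ++ r := by
  have h0 := J.FM_ch n
  have hS : Tsq.ht (ch (n + 1)) = n + 1 := by rw [H1.ht_eq, H1.ch_ht]
  have h1 := h0.app_right (Z := C) (by rw [hS]; exact hC)
  have hS1 : Tsq.ht (app (ch (n + 1)) C) = n + 1 := by rw [Tsq.ht_app, hS]; omega
  have h2 := h1.app_left (P := A) (by rw [hS1]; exact hA)
  rw [← hy] at h2
  refine ⟨(wd C).map not ++ false :: (wd A ++ List.replicate n true).map not, ?_⟩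
  rw [h2.wdT]
  simp

/-- the word 9 for `q = 1` is not `T⁻¹` of a word whose mirror is `A [n+1] C` -/
theorem inn9 {n : ℕ} {A C : BinaryTree Unit} {x : X k} (hn : 2 ≤ n) (hx : x.1 = W R (ch 2) B S 9)
    (hA : Tsq.ht A < n + 1) (hC : Tsq.ht C ≤ n + 1) : Tsq.mir (TT x).1 ≠ app A (app (ch (n + 1)) C) := by
  intro e
  have h1 : TT (Tsq.mirX (TT x)) = Tsq.mirX x := Tsq.TT_mir x
  obtain ⟨r, hr⟩ := TT_start (y := Tsq.mirX (TT x)) hA hC e
  rw [h1] at hr
  change wd (Tsq.mir x.1) = _ at hr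
  rw [hx] at hr
  have e2 : Tsq.mir (W R (ch 2) B S 9) = app (ch 2) (Tsq.mir (R △ .nil) △ .nil) := by
    change Tsq.mir ((R △ .nil) △ ch 2) = _
    rw [Tsq.mir_node, mir_chn]
  rw [e2, wd_app] at hr
  obtain ⟨m, rfl⟩ : ∃ m, n = m + 2 := ⟨n - 2, by omega⟩
  have e3 : wd (ch 2) = [true, true, false, false] := rfl
  rw [e3, show m + 2 + 1 = 3 + m by omega, List.replicate_add] at hr
  simp [List.replicate_succ] at hr

/-- **inner words of the window against J1** -/
theorem PD.inn_js {F : Set (Cyc k)} {g : DG k} (h : PD q R B S) (h' : J1.TyJs F g) (hk : 13 ≤ k) {x : X k} {i : ℕ}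
    (hi : i ∈ [0, 1, 3, 6, 8, 9]) (hx : x.1 = W R (ch (q + 1)) B S i) : TT x ∉ g.B := by
  intro hB
  have hi20 : i < 20 := by
    simp only [List.mem_cons, List.not_mem_nil, or_false] at hi
    omega
  obtain ⟨n, hn, _, h2⟩ := h'.words' hk
  obtain ⟨j, hj, e1, e2⟩ := h2 (TT x) hB
  rw [H1.cont_TT, hx] at e2
  obtain ⟨rfl, h3, h4⟩ := h.ne_jc hi20 hj (by omega) e2
  obtain rfl : i = 9 := by
    simp only [List.mem_cons, List.not_mem_nil, or_false] at hi
    omega
  have t1 : Tsq.ht (ch 2) = 2 := by rw [H1.ht_eq, H1.ch_ht]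
  have t2 : Tsq.ht (ch 3) = 3 := by rw [H1.ht_eq, H1.ch_ht]
  rcases h4 with rfl | rfl | rfl
  · -- [n+1][3](())
    have e3 : (TT x).1 = app (ch (n + 1)) (app (ch 3) (ch 2)) := comps_inj (e1.trans rfl)
    refine inn9 (n := n) (A := app (ch 2) (ch 3)) (C := .nil) (by omega) hx ?_ ?_ ?_
    · rw [Tsq.ht_app]; omega
    · change 0 ≤ n + 1; omega
    · rw [e3, Tsq.mir_app, Tsq.mir_app, mir_chn, mir_chn, mir_chn, app_nil]
  · -- (())[n+1][3]
    have e3 : (TT x).1 = app (ch 2) (app (ch (n + 1)) (ch 3)) := comps_inj (e1.trans rfl)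
    refine inn9 (n := n) (A := ch 3) (C := ch 2) (by omega) hx ?_ ?_ ?_
    · omega
    · omega
    · rw [e3, Tsq.mir_app, Tsq.mir_app, mir_chn, mir_chn, mir_chn, app_assoc']
  · -- [3](())[n+1]
    have e3 : (TT x).1 = app (ch 3) (app (ch 2) (ch (n + 1))) := comps_inj (e1.trans rfl)
    refine inn9 (n := n) (A := .nil) (C := app (ch 2) (ch 3)) (by omega) hx ?_ ?_ ?_
    · change 0 < n + 1; omega
    · rw [Tsq.ht_app]; omega
    · rw [e3, Tsq.mir_app, Tsq.mir_app, mir_chn, mir_chn, mir_chn, app_assoc']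
      rfl

/-- **inner words of the window against J1 mirrored** -/
theorem PD.inn_jt {F : Set (Cyc k)} {g : DG k} (h : PD q R B S) (h' : J1.TyJt F g) (hk : 13 ≤ k) {x : X k} {i : ℕ}
    (hi : i ∈ [0, 1, 3, 6, 8, 9]) (hx : x.1 = W R (ch (q + 1)) B S i) : TT x ∉ g.B := by
  intro hB
  have hi20 : i < 20 := by
    simp only [List.mem_cons, List.not_mem_nil, or_false] at hi
    omega
  obtain ⟨n, hn, _, h2⟩ := h'.words' hk
  obtain ⟨j, hj, e1, e2⟩ := h2 (TT x) hB
  rw [H1.cont_TT, hx] at e2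
  obtain ⟨rfl, h3, h4⟩ := h.ne_jt hi20 hj (by omega) e2
  obtain rfl : i = 9 := by
    simp only [List.mem_cons, List.not_mem_nil, or_false] at hi
    omega
  have t1 : Tsq.ht (ch 2) = 2 := by rw [H1.ht_eq, H1.ch_ht]
  have t2 : Tsq.ht (ch 4) = 4 := by rw [H1.ht_eq, H1.ch_ht]
  rcases h4 with rfl | rfl | rfl
  · have e3 : Tsq.mir (TT x).1 = app (ch (n + 1)) (app (ch 4) (ch 2)) := comps_inj (e1.trans rfl)
    refine inn9 (n := n) (A := .nil) (C := app (ch 4) (ch 2)) (by omega) hx ?_ ?_ ?_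
    · change 0 < n + 1; omega
    · rw [Tsq.ht_app]; omega
    · rw [e3]; rfl
  · have e3 : Tsq.mir (TT x).1 = app (ch 2) (app (ch (n + 1)) (ch 4)) := comps_inj (e1.trans rfl)
    refine inn9 (n := n) (A := ch 2) (C := ch 4) (by omega) hx ?_ ?_ ?_
    · omega
    · omega
    · rw [e3]
  · have e3 : Tsq.mir (TT x).1 = app (ch 4) (app (ch 2) (ch (n + 1))) := comps_inj (e1.trans rfl)
    refine inn9 (n := n) (A := app (ch 4) (ch 2)) (C := .nil) (by omega) hx ?_ ?_ ?_
    · rw [Tsq.ht_app]; omega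
    · change 0 ≤ n + 1; omega
    · rw [e3, app_nil, app_assoc']

end H1

end Pool.OddHC
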