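import Pool.Agent.Work.MP_8f87b2_h63.RqJ

/-!
MP_8f87b2_co: windows with `q ≥ 1` against the triples of section 5 and the windows of height 3, by contents.
-/

set_option autoImplicit false
set_option linter.unusedSimpArgs false

namespace Pool.OddHC

open Finset Equiv BinaryTree Pool.Agent.Work.MP_8f87b2_co

variable {k q : ℕ} {F F' : Set (Cyc k)} {g g' : DG k}

/-- the words of section 5 have at least three parts 1 or at least two parts 2 -/
theorem TyS5.c12 (h : TyS5 F g) : ∀ w ∈ g.B, 3 ≤ (OddHC.cont w.1).count 1 ∨ 2 ≤ (OddHC.cont w.1).count 2 := by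
  obtain ⟨s, n, hs, hn, h⟩ := h
  have a1 : ({1} : Multiset ℕ).count 1 = 1 := Multiset.count_singleton_self _
  have c1 : ∀ m : ℕ, (OddHC.cont (lp m)).count 1 = m := by
    intro m; rw [S5.c_lp, Multiset.count_replicate_self]
  have c2 : OddHC.cont (H1.ch s) = {s} := by
    obtain ⟨m, rfl⟩ : ∃ m, s = m + 1 := ⟨s - 1, by omega⟩
    exact H1.ch_cont m
  have c3 : (raise (OddHC.cont (lp (n + 2)))).count 1 = n + 1 := by
    rw [S5.c_lp, show n + 2 = (n + 1) + 1 from rfl, S5.raise_lp, Multiset.count_add, Multiset.count_replicate_self,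
      Multiset.count_singleton, if_neg (by norm_num), zero_add]
  have cn : OddHC.cont (.nil : BinaryTree Unit) = 0 := cont_nil
  have cr : ∀ M : Multiset ℕ, 2 ≤ M.sup → (raise M).count 1 = M.count 1 := fun M h => H1.raise_one h
  rcases h with h | h | h
  · intro w hw
    left
    rcases h.words w hw with e | ⟨_, e | e⟩ <;> rw [e, w1, cont_app, cont_node, Multiset.count_add, Multiset.count_add]
    · rw [c1]; omega
    · rw [c1]; omega
    · rw [c3]; omega
  · intro w hw
    left
    rcases h.words w hw with e | ⟨_, e | e⟩ <;> rw [e, w1, cont_app, cont_node, Multiset.count_add, Multiset.count_add]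
    · rw [c1]; omega
    · rw [c3]; omega
    · rw [c1]; omega
  · intro w hw
    have hQ : (raise (OddHC.cont (app (H1.ch s) (lp n)))).count 1 = n := by
      rw [cr _ (by rw [cont_app, sup_add', c2, Multiset.sup_singleton]; omega), cont_app, c2, Multiset.count_add, c1,
        Multiset.count_singleton, if_neg (by omega), zero_add]
    have hQ2 : (OddHC.cont (app (H1.ch s) (lp n))).count 1 = n := by
      rw [cont_app, c2, Multiset.count_add, c1, Multiset.count_singleton, if_neg (by omega), zero_add]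
    rcases h.words w hw with e | ⟨_, e | e⟩
    · left
      rw [e, w1, cont_app, cont_node, Multiset.count_add, Multiset.count_add, hQ, c1]
      omega
    · left
      rw [e, w1, cont_app, cont_node, Multiset.count_add, Multiset.count_add, hQ2, c1]
      omega
    · right
      have r1 : raise (OddHC.cont (lp 1)) = {2} := by
        rw [S5.c_lp, show (1 : ℕ) = 0 + 1 from rfl, S5.raise_lp]
        rfl
      have r2 : OddHC.cont (H1.ch 2) = {2} := H1.ch_cont 1
      rw [e, w1, cont_app, cont_node, Multiset.count_add, Multiset.count_add, r1, r2, Multiset.count_singleton_self]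
      omega

/-- **contents of a window with `q ≥ 1` and of section 5** -/
theorem H1.PD.ne_S5 {R B S : BinaryTree Unit} (h : H1.PD q R B S) (h' : TyS5 F g) {i : ℕ} (hi : i < 20) {w : X k}
    (hw : w ∈ g.B) : OddHC.cont (H1.W R (H1.ch (q + 1)) B S i) ≠ OddHC.cont w.1 := by
  intro e
  obtain ⟨h1, h2, _⟩ := h.c12 hi
  rw [e] at h1 h2
  rcases h'.c12 w hw with h3 | h3 <;> omega

/-- parts ≥ 4 -/
def bw4 (M : Multiset ℕ) : ℕ := M.countP (4 ≤ ·)

theorem bw4_add (M N : Multiset ℕ) : bw4 (M + N) = bw4 M + bw4 N := by unfold bw4; rw [Multiset.countP_add]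

theorem bw4_le (M : Multiset ℕ) (h : M.sup ≤ 3) : bw4 M = 0 := by
  unfold bw4
  rw [Multiset.countP_eq_zero]
  intro x hx
  have := Multiset.le_sup hx
  omega

theorem bw4_raise (M : Multiset ℕ) (h : bw4 M ≤ 1) : bw4 (raise M) ≤ 1 := by
  rcases Nat.lt_or_ge M.sup 4 with h1 | h1
  · have h0 := bw4_le M (by omega)
    unfold raise bw4
    rw [Multiset.countP_cons]
    have : (M.erase M.sup).countP (4 ≤ ·) ≤ M.countP (4 ≤ ·) := Multiset.countP_le_of_le _ (Multiset.erase_le _ _)
    unfold bw4 at h0
    split_ifs <;> omega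
  · have h0 : M ≠ 0 := by rintro rfl; simp at h1
    unfold raise bw4
    unfold bw4 at h
    rw [Multiset.countP_cons_of_pos _ (by omega)]
    rw [← Multiset.cons_erase (sup_mem h0), Multiset.countP_cons_of_pos _ (by omega)] at h
    omega

/-- the parts of a small content -/
theorem bw_sum_le {M : Multiset ℕ} (h5 : ∀ x ∈ M, x ≤ 5) :
    M.sum ≤ M.count 1 + 2 * M.count 2 + 3 * M.count 3 + 5 * bw4 M := by
  induction M using Multiset.induction_on with
  | empty => simp
  | cons a M ih =>
    have h1 := ih (fun x hx => h5 x (Multiset.mem_cons_of_mem hx))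
    have h2 := h5 a (Multiset.mem_cons_self a M)
    unfold bw4 at *
    rw [Multiset.sum_cons, Multiset.countP_cons, Multiset.count_cons, Multiset.count_cons, Multiset.count_cons]
    interval_cases a <;> simp <;> omega

theorem bw4_single (a : ℕ) : bw4 {a} = if 4 ≤ a then 1 else 0 := by
  unfold bw4
  rw [← Multiset.cons_zero, Multiset.countP_cons, Multiset.countP_zero, zero_add]

/-- the words of the windows of height 3: at most one part `≥ 4`, a part 2 -/
theorem bw_T_words {b m a i : ℕ} (ha : 1 ≤ a) (hi : i < 20) :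
    bw4 (OddHC.cont (H1.w3 b m a i)) ≤ 1 ∧ 1 ≤ (OddHC.cont (H1.w3 b m a i)).count 2 := by
  have hd := H1.dat3 b m a
  have eS : OddHC.cont (H1.S3 m a) = {3} + (Multiset.replicate m 1 + Multiset.replicate a 2) := by
    unfold H1.S3
    rw [cont_node, H1.cont_L3]
    rfl
  have h2S : 2 ∈ OddHC.cont (H1.S3 m a) := by
    rw [eS, Multiset.mem_add, Multiset.mem_add]
    exact Or.inr (Or.inr (Multiset.mem_replicate.2 ⟨by omega, rfl⟩))
  refine ⟨?_, Multiset.one_le_count_iff_mem.2 (H1.mem_all hd h2S (by norm_num) hi)⟩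
  have hR : bw4 (OddHC.cont (H1.R3 b m a)) = 0 := by
    apply bw4_le
    rw [← OddHC.ht_eq, H1.ht_R3]
  have hS : bw4 (OddHC.cont (H1.S3 m a)) = 0 := by
    apply bw4_le
    rw [← OddHC.ht_eq, hd.htS, H1.ht_R3]
  have hB : bw4 (OddHC.cont (H1.th b .nil)) = 0 := by
    apply bw4_le
    rw [← OddHC.ht_eq]
    exact H1.ht_th b
  have r1 := bw4_raise _ (show bw4 (OddHC.cont (H1.R3 b m a)) ≤ 1 by omega)
  have r2 := bw4_raise _ r1
  have r3 := bw4_raise _ (show bw4 (OddHC.cont (H1.S3 m a)) ≤ 1 by omega)
  have r4 := bw4_raise _ r3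
  have r5 := bw4_raise _ (show bw4 (OddHC.cont (H1.th b .nil)) ≤ 1 by omega)
  have r6 := bw4_raise (OddHC.cont (H1.S3 m a) + raise (OddHC.cont (H1.th b .nil))) (by rw [bw4_add]; omega)
  have b1 : bw4 ({0 + 1} : Multiset ℕ) = 0 := by rw [bw4_single]; norm_num
  have b2 : bw4 ({0 + 2} : Multiset ℕ) = 0 := by rw [bw4_single]; norm_num
  have b3 : bw4 ({0 + 3} : Multiset ℕ) = 0 := by rw [bw4_single]; norm_num
  have b4 : bw4 ({1} : Multiset ℕ) = 0 := by rw [bw4_single]; norm_num
  unfold H1.w3
  rw [show (1 : ℕ) = 0 + 1 from rfl, H1.cont_all hd hi]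
  interval_cases i <;> simp only [H1.wcn] <;> (try split_ifs) <;> simp only [bw4_add, b1, b2, b3, b4] <;> omega

/-- **the data of a B-window**: the marker `[c]`, `3 ≤ c < q + 3`, is once in `R`, in the piece `S`; the other parts are
`≥ q + 3` -/
structure H1.BD (q c : ℕ) (R B S : BinaryTree Unit) : Prop where
  dat : H1.Dat q R B S
  c3 : 3 ≤ c
  cb : c < q + 3
  mem : c ∈ OddHC.cont S
  one : (OddHC.cont R).count c = 1
  big : ∀ x ∈ OddHC.cont R, x = c ∨ q + 3 ≤ x

namespace H1

variable {c : ℕ} {R B S : BinaryTree Unit}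

theorem BD.pd (h : BD q c R B S) : PD q R B S where
  dat := h.dat
  q1 := by have := h.c3; have := h.cb; omega
  R3 := fun x hx => by
    have := h.c3; have := h.cb
    rcases h.big x hx with e | e <;> omega
  two := by
    have h3 := h.c3
    have hcb := h.cb
    have hR : c ∈ OddHC.cont R := by rw [← h.dat.cont, Multiset.mem_add]; exact Or.inr h.mem
    have hs : (OddHC.cont R).sup ∈ OddHC.cont R := sup_mem h.dat.neR
    have hb : q + 3 ≤ (OddHC.cont R).sup := by rw [← OddHC.ht_eq]; exact h.dat.big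
    have he : (OddHC.cont R).sup ∈ (OddHC.cont R).erase c := (Multiset.mem_erase_of_ne (by omega)).2 hs
    unfold n2
    rw [← Multiset.cons_erase hR, Multiset.countP_cons_of_pos _ (by omega), ← Multiset.cons_erase he,
      Multiset.countP_cons_of_pos _ (by omega)]
    omega

/-- the words with a part 2 (`q = 1`, `c = 3`) have one part 3 -/
theorem BD.count3 (h : BD q c R B S) (hq : q = 1) {i : ℕ} (hi : i < 20)
    (h2 : 1 ≤ (OddHC.cont (W R (ch (q + 1)) B S i)).count 2) :
    (OddHC.cont (W R (ch (q + 1)) B S i)).count 3 ≤ 1 := by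
  obtain ⟨_, _, h3, _⟩ := h.pd.c12 hi
  obtain ⟨_, hj⟩ := h3 h2
  have hc : c = 3 := by have := h.c3; have := h.cb; omega
  subst hc
  subst hq
  rw [cont_all h.dat hi] at h2 ⊢
  have hR : (OddHC.cont R).count 3 = 1 := h.one
  have hsum : (OddHC.cont B).count 3 + (OddHC.cont S).count 3 = 1 := by
    rw [← Multiset.count_add, h.dat.cont, hR]
  have hS : 1 ≤ (OddHC.cont S).count 3 := Multiset.one_le_count_iff_mem.2 h.mem
  have sR : 1 + 3 ≤ (OddHC.cont R).sup := h.pd.supR
  have sS : 1 + 3 ≤ (OddHC.cont S).sup := h.pd.supS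
  have r1 : (raise (OddHC.cont R)).count 3 = (OddHC.cont R).count 3 := count_raise 3 (by omega) (by omega)
  have r2 : (raise (raise (OddHC.cont R))).count 3 = (raise (OddHC.cont R)).count 3 :=
    count_raise 3 (by rw [sup_raise]; omega) (by rw [sup_raise]; omega)
  have r3 : (raise (OddHC.cont S)).count 3 = (OddHC.cont S).count 3 := count_raise 3 (by omega) (by omega)
  have r4 : (raise (raise (OddHC.cont S))).count 3 = (raise (OddHC.cont S)).count 3 :=
    count_raise 3 (by rw [sup_raise]; omega) (by rw [sup_raise]; omega)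
  have r5 : (raise (OddHC.cont B)).count 3 = 0 := by
    by_cases e : OddHC.cont B = 0
    · rw [e, raise_zero]; decide
    · have h0 : (OddHC.cont B).count 3 = 0 := by omega
      have sB : 3 < (OddHC.cont B).sup := by
        have h4 := h.dat.bare _ (sup_mem e)
        omega
      rw [count_raise 3 (by omega) (by omega), h0]
  have r6 : (raise (OddHC.cont S + raise (OddHC.cont B))).count 3 = (OddHC.cont S + raise (OddHC.cont B)).count 3 := by
    apply count_raise 3 <;> (rw [sup_add']; omega)
  rw [Multiset.count_add] at r6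
  have a1 : ({1} : Multiset ℕ).count 3 = 0 := by decide
  have a2 : ({1 + 1} : Multiset ℕ).count 3 = 0 := by decide
  have vS : (OddHC.cont S).count 2 = 0 := by
    apply V3.count h.pd.S3 (by norm_num)
  rcases hj with e | e | e | e | e | e | e | e | e | e | e | e | e <;> subst e <;> simp only [wcn] at h2 ⊢
  case inr.inr.inr.inr.inr.inr.inr.inr.inl =>
    split_ifs at h2 ⊢
    · exfalso
      rw [Multiset.count_add, Multiset.count_add, vS] at h2
      revert h2
      decide
    · simp only [Multiset.count_add, a1, a2]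
      omega
  all_goals
    simp only [Multiset.count_add, a1, a2]
    omega

/-- **the words of a B-window are no words of the windows of height 3** (`k ≥ 13`) -/
theorem BD.ne_T (h : BD q c R B S) {i : ℕ} (hi : i < 20) {b m a j : ℕ} (ha : 1 ≤ a) (hj : j < 20)
    (hk : 13 ≤ (W R (ch (q + 1)) B S i).numNodes) :
    OddHC.cont (W R (ch (q + 1)) B S i) ≠ OddHC.cont (w3 b m a j) := by
  intro e
  obtain ⟨t1, t2⟩ := bw_T_words (b := b) (m := m) ha hj
  obtain ⟨h1, h2, h3, _⟩ := h.pd.c12 hi
  rw [← e] at t1 t2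
  obtain ⟨hq, _⟩ := h3 t2
  have h4 := h.count3 hq hi t2
  have h5 : ∀ x ∈ OddHC.cont (W R (ch (q + 1)) B S i), x ≤ 5 := by
    intro x hx
    rw [e] at hx
    have := Multiset.le_sup hx
    rw [← OddHC.ht_eq] at this
    exact this.trans (J1.ht_w3 b m a hj)
  have h6 := bw_sum_le h5
  rw [cont_sum] at h6
  omega

end H1

end Pool.OddHC
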