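import Pool.Agent.Work.MP_8f87b2_h63.BWs
import Pool.Agent.Work.MP_8f87b2_h13.RqK

/-!
MP_8f87b2_co: windows with `q ≥ 1` and all parts of `R` at least 3 (bare windows and B-windows) against the triples L, K, Km.
-/

set_option autoImplicit false
set_option linter.all false

namespace Pool.OddHC

open Finset Equiv BinaryTree Pool.Agent.Work.MP_8f87b2_co HM

variable {k q : ℕ} {F F' : Set (Cyc k)} {g g' : DG k} {R B S X U : BinaryTree Unit}

namespace H1

/-- the two-sided component data of `R`, `S`, `B` -/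
theorem PD.cp (h : PD q R B S) :
    (∃ r R1 R2 r', comps R = r :: R1 ∧ comps R = R2 ++ [r'] ∧ lo 0 r = 0 ∧ lo 0 r' = 0) ∧
    (∃ s S1 S2 s', comps S = s :: S1 ∧ comps S = S2 ++ [s'] ∧ lo 0 s = 0 ∧ lo 0 s' = 0) ∧
    (B = .nil ∨ ∃ b B1 B2 b', B ≠ .nil ∧ comps B = b :: B1 ∧ comps B = B2 ++ [b'] ∧ lo 0 b = 0 ∧ lo 0 b' = 0) := by
  have hR : Hv 0 R := h.R3
  have hS : Hv 0 S := h.S3
  have hB : Hv 0 B := h.B3
  have nR : R ≠ .nil := by
    rintro rfl
    exact h.dat.neR rfl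
  have nS : S ≠ .nil := by
    rintro rfl
    exact h.dat.neS rfl
  obtain ⟨r, R1, hr, hr0⟩ := hR.cons nR
  obtain ⟨R2, r', hr', hr0'⟩ := hR.snoc nR
  obtain ⟨s, S1, hs, hs0⟩ := hS.cons nS
  obtain ⟨S2, s', hs', hs0'⟩ := hS.snoc nS
  refine ⟨⟨r, R1, R2, r', hr, hr', hr0, hr0'⟩, ⟨s, S1, S2, s', hs, hs', hs0, hs0'⟩, ?_⟩
  by_cases e : B = .nil
  · exact Or.inl e
  · obtain ⟨b, B1, hb, hb0⟩ := hB.cons e
    obtain ⟨B2, b', hb', hb0'⟩ := hB.snoc e
    exact Or.inr ⟨b, B1, B2, b', e, hb, hb', hb0, hb0'⟩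

/-- **L** -/
theorem PD.L0 (h : PD q R B S) {i : ℕ} (hi : i < 20) (hX : X ≠ .nil) :
    W R (pc (q + 1)) B S i ≠ w1 (lp 1) X (lp 1) := by
  intro e
  obtain ⟨⟨r, R1, R2, r', hr, hr', hr0, hr0'⟩, ⟨s, S1, S2, s', hs, hs', hs0, hs0'⟩, hB⟩ := h.cp
  obtain ⟨q, rfl⟩ : ∃ q', q = q' + 1 := ⟨q - 1, by have := h.q1; omega⟩
  have hr1 := lo_ne_nil hr0
  have hr1' := lo_ne_nil hr0'
  have hs1 := lo_ne_nil hs0
  have hs1' := lo_ne_nil hs0'
  have hr2 := lo_ne_pc hr0 (show 1 < 0 + 2 by omega)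
  have hr2' := lo_ne_pc hr0' (show 1 < 0 + 2 by omega)
  have hs2 := lo_ne_pc hs0 (show 1 < 0 + 2 by omega)
  have hs2' := lo_ne_pc hs0' (show 1 < 0 + 2 by omega)
  have hRn := h.neR
  have hSn := h.neS
  have hl1 : comps (lp 1) = [.nil] := rfl
  have hl2 : lp 1 = pc 1 := rfl
  have hp0 : pc 0 = .nil := rfl
  have hp : ∀ n, pc (n + 1) ≠ .nil := fun n => pc_ne (by omega)
  have hp1' : BinaryTree.nil ≠ pc 1 := (hp 0).symm
  have ha : ∀ n (Y : BinaryTree Unit), app (pc (n + 1)) Y ≠ .nil := fun n Y => by rw [pc, app]; simp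
  have hXc := comps_ne hX
  have e1 := congrArg comps e
  have e2 := congrArg (fun t => (comps t).reverse) e
  rcases hB with hB | ⟨b, B1, B2, b', hBn, hb, hb', hb0, hb0'⟩
  · have hb : comps B = [] := by rw [hB]; rfl
    interval_cases i <;>
    simp [W, comps_w1, comps_node, comps_app, comps_pc, comps, hr, hs, hb, hl1, hl2, hr1, hs1, hr2, hs2, hp, hp0, hp1', hRn, hSn, ha, hX, hX.symm, hXc] at e1 <;>
    simp [W, comps_w1, comps_node, comps_app, comps_pc, comps, hr', hs', hb, hl1, hl2, hr1', hs1', hr2', hs2', hp, hp0, hp1', hRn, hSn, ha, hX, hX.symm, hXc] at e2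
  · have hb1 := lo_ne_nil hb0
    have hb1' := lo_ne_nil hb0'
    have hb2 := lo_ne_pc hb0 (show 1 < 0 + 2 by omega)
    have hb2' := lo_ne_pc hb0' (show 1 < 0 + 2 by omega)
    interval_cases i <;>
    simp [W, comps_w1, comps_node, comps_app, comps_pc, comps, hr, hs, hb, hl1, hl2, hr1, hs1, hb1, hr2, hs2, hb2, hBn, hp, hp0, hp1', hRn, hSn, ha, hX, hX.symm, hXc] at e1 <;>
    simp [W, comps_w1, comps_node, comps_app, comps_pc, comps, hr', hs', hb', hl1, hl2, hr1', hs1', hb1', hr2', hs2', hb2', hBn, hp, hp0, hp1', hRn, hSn, ha, hX, hX.symm, hXc] at e2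

theorem PD.L1 (h : PD q R B S) {i : ℕ} (hi : i < 20) (hX : X ≠ .nil) (hl : H1.lastB X = false) :
    W R (pc (q + 1)) B S i ≠ w1 X (lp 1) (lp 1) := by
  intro e
  obtain ⟨⟨r, R1, R2, r', hr, hr', hr0, hr0'⟩, ⟨s, S1, S2, s', hs, hs', hs0, hs0'⟩, hB⟩ := h.cp
  obtain ⟨q, rfl⟩ : ∃ q', q = q' + 1 := ⟨q - 1, by have := h.q1; omega⟩
  have hr1 := lo_ne_nil hr0
  have hr1' := lo_ne_nil hr0'
  have hs1 := lo_ne_nil hs0
  have hs1' := lo_ne_nil hs0'
  have hr2 := lo_ne_pc hr0 (show 1 < 0 + 2 by omega)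
  have hr2' := lo_ne_pc hr0' (show 1 < 0 + 2 by omega)
  have hs2 := lo_ne_pc hs0 (show 1 < 0 + 2 by omega)
  have hs2' := lo_ne_pc hs0' (show 1 < 0 + 2 by omega)
  have hRn := h.neR
  have hSn := h.neS
  have hl1 : comps (lp 1) = [.nil] := rfl
  have hl2 : lp 1 = pc 1 := rfl
  have hp0 : pc 0 = .nil := rfl
  have hp : ∀ n, pc (n + 1) ≠ .nil := fun n => pc_ne (by omega)
  have hp1' : BinaryTree.nil ≠ pc 1 := (hp 0).symm
  have ha : ∀ n (Y : BinaryTree Unit), app (pc (n + 1)) Y ≠ .nil := fun n Y => by rw [pc, app]; simp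
  have hXc := comps_ne hX
  have e1 := congrArg comps e
  have e2 := congrArg (fun t => (comps t).reverse) e
  rcases hB with hB | ⟨b, B1, B2, b', hBn, hb, hb', hb0, hb0'⟩
  · have hb : comps B = [] := by rw [hB]; rfl
    interval_cases i <;>
    simp [W, comps_w1, comps_node, comps_app, comps_pc, comps, hr, hs, hb, hl1, hl2, hr1, hs1, hr2, hs2, hp, hp0, hp1', hRn, hSn, ha, hX, hX.symm, hXc] at e1 <;>
    simp [W, comps_w1, comps_node, comps_app, comps_pc, comps, hr', hs', hb, hl1, hl2, hr1', hs1', hr2', hs2', hp, hp0, hp1', hRn, hSn, ha, hX, hX.symm, hXc] at e2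
    have e4 : comps X = (r' :: R2.reverse).reverse ++ [.nil] := by
      have e5 := congrArg List.reverse e2.2
      rw [List.reverse_reverse] at e5
      rw [← e5, List.reverse_cons]
    rw [lastB_comps e4] at hl
    exact absurd hl (by simp)
  · have hb1 := lo_ne_nil hb0
    have hb1' := lo_ne_nil hb0'
    have hb2 := lo_ne_pc hb0 (show 1 < 0 + 2 by omega)
    have hb2' := lo_ne_pc hb0' (show 1 < 0 + 2 by omega)
    interval_cases i <;>
    simp [W, comps_w1, comps_node, comps_app, comps_pc, comps, hr, hs, hb, hl1, hl2, hr1, hs1, hb1, hr2, hs2, hb2, hBn, hp, hp0, hp1', hRn, hSn, ha, hX, hX.symm, hXc] at e1 <;>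
    simp [W, comps_w1, comps_node, comps_app, comps_pc, comps, hr', hs', hb', hl1, hl2, hr1', hs1', hb1', hr2', hs2', hb2', hBn, hp, hp0, hp1', hRn, hSn, ha, hX, hX.symm, hXc] at e2
    have e4 : comps X = (r' :: R2.reverse).reverse ++ [.nil] := by
      have e5 := congrArg List.reverse e2.2
      rw [List.reverse_reverse] at e5
      rw [← e5, List.reverse_cons]
    rw [lastB_comps e4] at hl
    exact absurd hl (by simp)

theorem PD.L2 (h : PD q R B S) {i : ℕ} (hi : i < 20) (hX : X ≠ .nil) (hf : H1.fb X = false) :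
    W R (pc (q + 1)) B S i ≠ w1 (lp 1) (lp 1) X := by
  intro e
  obtain ⟨⟨r, R1, R2, r', hr, hr', hr0, hr0'⟩, ⟨s, S1, S2, s', hs, hs', hs0, hs0'⟩, hB⟩ := h.cp
  obtain ⟨q, rfl⟩ : ∃ q', q = q' + 1 := ⟨q - 1, by have := h.q1; omega⟩
  have hr1 := lo_ne_nil hr0
  have hr1' := lo_ne_nil hr0'
  have hs1 := lo_ne_nil hs0
  have hs1' := lo_ne_nil hs0'
  have hr2 := lo_ne_pc hr0 (show 1 < 0 + 2 by omega)
  have hr2' := lo_ne_pc hr0' (show 1 < 0 + 2 by omega)
  have hs2 := lo_ne_pc hs0 (show 1 < 0 + 2 by omega)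
  have hs2' := lo_ne_pc hs0' (show 1 < 0 + 2 by omega)
  have hRn := h.neR
  have hSn := h.neS
  have hl1 : comps (lp 1) = [.nil] := rfl
  have hl2 : lp 1 = pc 1 := rfl
  have hp0 : pc 0 = .nil := rfl
  have hp : ∀ n, pc (n + 1) ≠ .nil := fun n => pc_ne (by omega)
  have hp1' : BinaryTree.nil ≠ pc 1 := (hp 0).symm
  have ha : ∀ n (Y : BinaryTree Unit), app (pc (n + 1)) Y ≠ .nil := fun n Y => by rw [pc, app]; simp
  have hXc := comps_ne hX
  have e1 := congrArg comps e
  have e2 := congrArg (fun t => (comps t).reverse) e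
  rcases hB with hB | ⟨b, B1, B2, b', hBn, hb, hb', hb0, hb0'⟩
  · have hb : comps B = [] := by rw [hB]; rfl
    interval_cases i <;>
    simp [W, comps_w1, comps_node, comps_app, comps_pc, comps, hr, hs, hb, hl1, hl2, hr1, hs1, hr2, hs2, hp, hp0, hp1', hRn, hSn, ha, hX, hX.symm, hXc] at e1 <;>
    simp [W, comps_w1, comps_node, comps_app, comps_pc, comps, hr', hs', hb, hl1, hl2, hr1', hs1', hr2', hs2', hp, hp0, hp1', hRn, hSn, ha, hX, hX.symm, hXc] at e2
    rw [fb_comps e1.2.symm] at hf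
    exact absurd hf (by simp)
  · have hb1 := lo_ne_nil hb0
    have hb1' := lo_ne_nil hb0'
    have hb2 := lo_ne_pc hb0 (show 1 < 0 + 2 by omega)
    have hb2' := lo_ne_pc hb0' (show 1 < 0 + 2 by omega)
    interval_cases i <;>
    simp [W, comps_w1, comps_node, comps_app, comps_pc, comps, hr, hs, hb, hl1, hl2, hr1, hs1, hb1, hr2, hs2, hb2, hBn, hp, hp0, hp1', hRn, hSn, ha, hX, hX.symm, hXc] at e1 <;>
    simp [W, comps_w1, comps_node, comps_app, comps_pc, comps, hr', hs', hb', hl1, hl2, hr1', hs1', hb1', hr2', hs2', hb2', hBn, hp, hp0, hp1', hRn, hSn, ha, hX, hX.symm, hXc] at e2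


theorem app_o {P A Y : BinaryTree Unit} (h : P ≠ .nil ∨ Y ≠ .nil) : app P (A △ Y) ≠ .nil △ .nil := by
  intro e
  cases P with
  | nil =>
    injection e with _ _ e2
    rcases h with h | h
    · exact h rfl
    · exact h e2
  | node u l r =>
    have e2 : app r (A △ Y) = .nil := by
      injection e with _ _ e2
    exact OddHC.app_ne' (by simp) e2

/-- **K** -/
theorem PD.K0 (h : PD q R B S) {i : ℕ} (hi : i < 20) (hU : U ≠ .nil) (e : W R (pc (q + 1)) B S i = w1 .nil U (pc 1)) :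
    False := by
  obtain ⟨⟨r, R1, R2, r', hr, hr', hr0, hr0'⟩, ⟨s, S1, S2, s', hs, hs', hs0, hs0'⟩, hB⟩ := h.cp
  obtain ⟨q, rfl⟩ : ∃ q', q = q' + 1 := ⟨q - 1, by have := h.q1; omega⟩
  have hr1 := lo_ne_nil hr0
  have hr1' := lo_ne_nil hr0'
  have hs1 := lo_ne_nil hs0
  have hs1' := lo_ne_nil hs0'
  have hr2 : r ≠ .nil △ .nil := lo_ne_pc hr0 (show 1 < 0 + 2 by omega)
  have hr2' : r' ≠ .nil △ .nil := lo_ne_pc hr0' (show 1 < 0 + 2 by omega)
  have hs2 : s ≠ .nil △ .nil := lo_ne_pc hs0 (show 1 < 0 + 2 by omega)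
  have hs2' : s' ≠ .nil △ .nil := lo_ne_pc hs0' (show 1 < 0 + 2 by omega)
  have hRn := h.neR
  have hSn := h.neS
  have hRl : R ≠ .nil △ .nil := Hv.ne_lf (d := 0) h.R3
  have hSl : S ≠ .nil △ .nil := Hv.ne_lf (d := 0) h.S3
  have hBl : B ≠ .nil △ .nil := Hv.ne_lf (d := 0) h.B3
  have hp0 : pc 0 = .nil := rfl
  have hp1 : pc 1 = .nil △ .nil := rfl
  have hp : ∀ n, pc (n + 1) ≠ .nil := fun n => pc_ne (by omega)
  have hp1' : ∀ n, BinaryTree.nil ≠ pc (n + 1) := fun n => (hp n).symm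
  have hp2 : pc (q + 1 + 1) ≠ .nil △ .nil := fun e => hp q (by injection e)
  have ha : ∀ n (Y : BinaryTree Unit), app (pc (n + 1)) Y ≠ .nil := fun n Y => by rw [pc, app]; simp
  have hUc := comps_ne hU
  have happ : ∀ P A Y : BinaryTree Unit, app P (A △ Y) ≠ .nil := fun P A Y => OddHC.app_ne' (by simp)
  have hy1 : app S (B △ .nil) ≠ .nil △ .nil := app_o (Or.inl hSn)
  have hy2 : ∀ Y, app (pc (q + 1 + 1)) (.nil △ Y) ≠ .nil △ .nil := fun Y => app_o (Or.inl (hp _))
  have hy3 : ∀ P, app P (.nil △ pc (q + 1 + 1)) ≠ .nil △ .nil := fun P => app_o (Or.inr (hp _))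
  have e0 := congrArg comps e
  have e1 := congrArg comps e
  have e2 := congrArg (fun t => (comps t).reverse) e
  rcases hB with hB | ⟨b, B1, B2, b', hBn, hb, hb', hb0, hb0'⟩
  · have hb : comps B = [] := by rw [hB]; rfl
    interval_cases i <;>
    simp [W, comps_w1, comps_node, comps_app, comps_pc, comps, hr, hs, hb, hr1, hs1, hr2, hs2, hp, hp0, hp1', hp1, hp2, hy1, hy2, hy3, hRn, hSn, hRl, hSl, hBl, ha, hU, hU.symm, hUc, happ] at e1 <;>
    simp [W, comps_w1, comps_node, comps_app, comps_pc, comps, hr', hs', hb, hr1', hs1', hr2', hs2', hp, hp0, hp1', hp1, hp2, hy1, hy2, hy3, hRn, hSn, hRl, hSl, hBl, ha, hU, hU.symm, hUc, happ] at e2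
  · have hb1 := lo_ne_nil hb0
    have hb1' := lo_ne_nil hb0'
    have hb2 : b ≠ .nil △ .nil := lo_ne_pc hb0 (show 1 < 0 + 2 by omega)
    have hb2' : b' ≠ .nil △ .nil := lo_ne_pc hb0' (show 1 < 0 + 2 by omega)
    interval_cases i <;>
    simp [W, comps_w1, comps_node, comps_app, comps_pc, comps, hr, hs, hb, hr1, hs1, hb1, hr2, hs2, hb2, hBn, hp, hp0, hp1', hp1, hp2, hy1, hy2, hy3, hRn, hSn, hRl, hSl, hBl, ha, hU, hU.symm, hUc, happ] at e1 <;>
    simp [W, comps_w1, comps_node, comps_app, comps_pc, comps, hr', hs', hb', hr1', hs1', hb1', hr2', hs2', hb2', hBn, hp, hp0, hp1', hp1, hp2, hy1, hy2, hy3, hRn, hSn, hRl, hSl, hBl, ha, hU, hU.symm, hUc, happ] at e2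

/-- **K**: the exact list -/
theorem PD.K1 (h : PD q R B S) {i : ℕ} (hi : i < 20) (hU : U ≠ .nil) (e : W R (pc (q + 1)) B S i = w1 U (pc 1) .nil) :
    q = 1 ∧ (U = .nil △ app R (.nil △ .nil) ∨ U = (R △ .nil) △ .nil ∨ U = S △ app B (.nil △ .nil) ∨
      U = app S (B △ .nil) △ .nil) := by
  obtain ⟨⟨r, R1, R2, r', hr, hr', hr0, hr0'⟩, ⟨s, S1, S2, s', hs, hs', hs0, hs0'⟩, hB⟩ := h.cp
  obtain ⟨q, rfl⟩ : ∃ q', q = q' + 1 := ⟨q - 1, by have := h.q1; omega⟩
  have hr1 := lo_ne_nil hr0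
  have hr1' := lo_ne_nil hr0'
  have hs1 := lo_ne_nil hs0
  have hs1' := lo_ne_nil hs0'
  have hr2 : r ≠ .nil △ .nil := lo_ne_pc hr0 (show 1 < 0 + 2 by omega)
  have hr2' : r' ≠ .nil △ .nil := lo_ne_pc hr0' (show 1 < 0 + 2 by omega)
  have hs2 : s ≠ .nil △ .nil := lo_ne_pc hs0 (show 1 < 0 + 2 by omega)
  have hs2' : s' ≠ .nil △ .nil := lo_ne_pc hs0' (show 1 < 0 + 2 by omega)
  have hRn := h.neR
  have hSn := h.neS
  have hRl : R ≠ .nil △ .nil := Hv.ne_lf (d := 0) h.R3
  have hSl : S ≠ .nil △ .nil := Hv.ne_lf (d := 0) h.S3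
  have hBl : B ≠ .nil △ .nil := Hv.ne_lf (d := 0) h.B3
  have hp0 : pc 0 = .nil := rfl
  have hp1 : pc 1 = .nil △ .nil := rfl
  have hp : ∀ n, pc (n + 1) ≠ .nil := fun n => pc_ne (by omega)
  have hp1' : ∀ n, BinaryTree.nil ≠ pc (n + 1) := fun n => (hp n).symm
  have hp2 : pc (q + 1 + 1) ≠ .nil △ .nil := fun e => hp q (by injection e)
  have ha : ∀ n (Y : BinaryTree Unit), app (pc (n + 1)) Y ≠ .nil := fun n Y => by rw [pc, app]; simp
  have hUc := comps_ne hU
  have happ : ∀ P A Y : BinaryTree Unit, app P (A △ Y) ≠ .nil := fun P A Y => OddHC.app_ne' (by simp)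
  have hy1 : app S (B △ .nil) ≠ .nil △ .nil := app_o (Or.inl hSn)
  have hy2 : ∀ Y, app (pc (q + 1 + 1)) (.nil △ Y) ≠ .nil △ .nil := fun Y => app_o (Or.inl (hp _))
  have hy3 : ∀ P, app P (.nil △ pc (q + 1 + 1)) ≠ .nil △ .nil := fun P => app_o (Or.inr (hp _))
  have e0 := congrArg comps e
  have e1 := congrArg comps e
  have e2 := congrArg (fun t => (comps t).reverse) e
  rcases hB with hB | ⟨b, B1, B2, b', hBn, hb, hb', hb0, hb0'⟩
  · have hb : comps B = [] := by rw [hB]; rfl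
    interval_cases i <;>
    simp [W, comps_w1, comps_node, comps_app, comps_pc, comps, hr, hs, hb, hr1, hs1, hr2, hs2, hp, hp0, hp1', hp1, hp2, hy1, hy2, hy3, hRn, hSn, hRl, hSl, hBl, ha, hU, hU.symm, hUc, happ] at e1 <;>
    simp [W, comps_w1, comps_node, comps_app, comps_pc, comps, hr', hs', hb, hr1', hs1', hr2', hs2', hp, hp0, hp1', hp1, hp2, hy1, hy2, hy3, hRn, hSn, hRl, hSl, hBl, ha, hU, hU.symm, hUc, happ] at e2
    all_goals simp only [W, comps_w1, comps_node, comps_app, comps_pc, comps, List.nil_append, List.cons_append, List.append_assoc] at e0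
    · refine ⟨by have := pc_o e2.1; omega, Or.inl (comps_inj ?_)⟩
      have e5 : (.nil :: (comps R ++ [.nil])) ++ [pc (q + 1)] = comps U ++ [pc 1] := by
        rw [← e0]; simp
      rw [← (snoc_inj e5).1]
      simp [comps_app, comps_node, comps]
    · refine ⟨by have := pc_o e2.1; omega, Or.inr (Or.inl (comps_inj ?_))⟩
      have e5 : [R △ .nil] ++ [pc (q + 1)] = comps U ++ [pc 1] := by
        rw [← e0]; simp
      rw [← (snoc_inj e5).1]
      simp [comps_app, comps_node, comps]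
    · refine ⟨by have := pc_o e2.1; omega, Or.inr (Or.inr (Or.inl (comps_inj ?_)))⟩
      have e5 : (S :: (comps B ++ [.nil])) ++ [pc (q + 1)] = comps U ++ [pc 1] := by
        rw [← e0]; simp
      rw [← (snoc_inj e5).1]
      simp [comps_app, comps_node, comps]
    · refine ⟨by have := pc_o e2.1; omega, Or.inr (Or.inr (Or.inr (comps_inj ?_)))⟩
      have e5 : [app S (B △ .nil)] ++ [pc (q + 1)] = comps U ++ [pc 1] := by
        rw [← e0]; simp
      rw [← (snoc_inj e5).1]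
      simp [comps_app, comps_node, comps]
  · have hb1 := lo_ne_nil hb0
    have hb1' := lo_ne_nil hb0'
    have hb2 : b ≠ .nil △ .nil := lo_ne_pc hb0 (show 1 < 0 + 2 by omega)
    have hb2' : b' ≠ .nil △ .nil := lo_ne_pc hb0' (show 1 < 0 + 2 by omega)
    interval_cases i <;>
    simp [W, comps_w1, comps_node, comps_app, comps_pc, comps, hr, hs, hb, hr1, hs1, hb1, hr2, hs2, hb2, hBn, hp, hp0, hp1', hp1, hp2, hy1, hy2, hy3, hRn, hSn, hRl, hSl, hBl, ha, hU, hU.symm, hUc, happ] at e1 <;>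
    simp [W, comps_w1, comps_node, comps_app, comps_pc, comps, hr', hs', hb', hr1', hs1', hb1', hr2', hs2', hb2', hBn, hp, hp0, hp1', hp1, hp2, hy1, hy2, hy3, hRn, hSn, hRl, hSl, hBl, ha, hU, hU.symm, hUc, happ] at e2
    all_goals simp only [W, comps_w1, comps_node, comps_app, comps_pc, comps, List.nil_append, List.cons_append, List.append_assoc] at e0
    · refine ⟨by have := pc_o e2.1; omega, Or.inl (comps_inj ?_)⟩
      have e5 : (.nil :: (comps R ++ [.nil])) ++ [pc (q + 1)] = comps U ++ [pc 1] := by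
        rw [← e0]; simp
      rw [← (snoc_inj e5).1]
      simp [comps_app, comps_node, comps]
    · refine ⟨by have := pc_o e2.1; omega, Or.inr (Or.inl (comps_inj ?_))⟩
      have e5 : [R △ .nil] ++ [pc (q + 1)] = comps U ++ [pc 1] := by
        rw [← e0]; simp
      rw [← (snoc_inj e5).1]
      simp [comps_app, comps_node, comps]
    · refine ⟨by have := pc_o e2.1; omega, Or.inr (Or.inr (Or.inl (comps_inj ?_)))⟩
      have e5 : (S :: (comps B ++ [.nil])) ++ [pc (q + 1)] = comps U ++ [pc 1] := by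
        rw [← e0]; simp
      rw [← (snoc_inj e5).1]
      simp [comps_app, comps_node, comps]
    · refine ⟨by have := pc_o e2.1; omega, Or.inr (Or.inr (Or.inr (comps_inj ?_)))⟩
      have e5 : [app S (B △ .nil)] ++ [pc (q + 1)] = comps U ++ [pc 1] := by
        rw [← e0]; simp
      rw [← (snoc_inj e5).1]
      simp [comps_app, comps_node, comps]

theorem PD.K2 (h : PD q R B S) {i : ℕ} (hi : i < 20) (hU : U ≠ .nil) (e : W R (pc (q + 1)) B S i = w1 (pc 1) .nil U) :
    False := by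
  obtain ⟨⟨r, R1, R2, r', hr, hr', hr0, hr0'⟩, ⟨s, S1, S2, s', hs, hs', hs0, hs0'⟩, hB⟩ := h.cp
  obtain ⟨q, rfl⟩ : ∃ q', q = q' + 1 := ⟨q - 1, by have := h.q1; omega⟩
  have hr1 := lo_ne_nil hr0
  have hr1' := lo_ne_nil hr0'
  have hs1 := lo_ne_nil hs0
  have hs1' := lo_ne_nil hs0'
  have hr2 : r ≠ .nil △ .nil := lo_ne_pc hr0 (show 1 < 0 + 2 by omega)
  have hr2' : r' ≠ .nil △ .nil := lo_ne_pc hr0' (show 1 < 0 + 2 by omega)
  have hs2 : s ≠ .nil △ .nil := lo_ne_pc hs0 (show 1 < 0 + 2 by omega)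
  have hs2' : s' ≠ .nil △ .nil := lo_ne_pc hs0' (show 1 < 0 + 2 by omega)
  have hRn := h.neR
  have hSn := h.neS
  have hRl : R ≠ .nil △ .nil := Hv.ne_lf (d := 0) h.R3
  have hSl : S ≠ .nil △ .nil := Hv.ne_lf (d := 0) h.S3
  have hBl : B ≠ .nil △ .nil := Hv.ne_lf (d := 0) h.B3
  have hp0 : pc 0 = .nil := rfl
  have hp1 : pc 1 = .nil △ .nil := rfl
  have hp : ∀ n, pc (n + 1) ≠ .nil := fun n => pc_ne (by omega)
  have hp1' : ∀ n, BinaryTree.nil ≠ pc (n + 1) := fun n => (hp n).symm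
  have hp2 : pc (q + 1 + 1) ≠ .nil △ .nil := fun e => hp q (by injection e)
  have ha : ∀ n (Y : BinaryTree Unit), app (pc (n + 1)) Y ≠ .nil := fun n Y => by rw [pc, app]; simp
  have hUc := comps_ne hU
  have happ : ∀ P A Y : BinaryTree Unit, app P (A △ Y) ≠ .nil := fun P A Y => OddHC.app_ne' (by simp)
  have hy1 : app S (B △ .nil) ≠ .nil △ .nil := app_o (Or.inl hSn)
  have hy2 : ∀ Y, app (pc (q + 1 + 1)) (.nil △ Y) ≠ .nil △ .nil := fun Y => app_o (Or.inl (hp _))
  have hy3 : ∀ P, app P (.nil △ pc (q + 1 + 1)) ≠ .nil △ .nil := fun P => app_o (Or.inr (hp _))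
  have e0 := congrArg comps e
  have e1 := congrArg comps e
  have e2 := congrArg (fun t => (comps t).reverse) e
  rcases hB with hB | ⟨b, B1, B2, b', hBn, hb, hb', hb0, hb0'⟩
  · have hb : comps B = [] := by rw [hB]; rfl
    interval_cases i <;>
    simp [W, comps_w1, comps_node, comps_app, comps_pc, comps, hr, hs, hb, hr1, hs1, hr2, hs2, hp, hp0, hp1', hp1, hp2, hy1, hy2, hy3, hRn, hSn, hRl, hSl, hBl, ha, hU, hU.symm, hUc, happ] at e1 <;>
    simp [W, comps_w1, comps_node, comps_app, comps_pc, comps, hr', hs', hb, hr1', hs1', hr2', hs2', hp, hp0, hp1', hp1, hp2, hy1, hy2, hy3, hRn, hSn, hRl, hSl, hBl, ha, hU, hU.symm, hUc, happ] at e2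
  · have hb1 := lo_ne_nil hb0
    have hb1' := lo_ne_nil hb0'
    have hb2 : b ≠ .nil △ .nil := lo_ne_pc hb0 (show 1 < 0 + 2 by omega)
    have hb2' : b' ≠ .nil △ .nil := lo_ne_pc hb0' (show 1 < 0 + 2 by omega)
    interval_cases i <;>
    simp [W, comps_w1, comps_node, comps_app, comps_pc, comps, hr, hs, hb, hr1, hs1, hb1, hr2, hs2, hb2, hBn, hp, hp0, hp1', hp1, hp2, hy1, hy2, hy3, hRn, hSn, hRl, hSl, hBl, ha, hU, hU.symm, hUc, happ] at e1 <;>
    simp [W, comps_w1, comps_node, comps_app, comps_pc, comps, hr', hs', hb', hr1', hs1', hb1', hr2', hs2', hb2', hBn, hp, hp0, hp1', hp1, hp2, hy1, hy2, hy3, hRn, hSn, hRl, hSl, hBl, ha, hU, hU.symm, hUc, happ] at e2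

theorem PD.M0 (h : PD q R B S) {i : ℕ} (hi : i < 20) (hU : U ≠ .nil) (e : W R (pc (q + 1)) B S i = w1 (pc 1) U .nil) :
    False := by
  obtain ⟨⟨r, R1, R2, r', hr, hr', hr0, hr0'⟩, ⟨s, S1, S2, s', hs, hs', hs0, hs0'⟩, hB⟩ := h.cp
  obtain ⟨q, rfl⟩ : ∃ q', q = q' + 1 := ⟨q - 1, by have := h.q1; omega⟩
  have hr1 := lo_ne_nil hr0
  have hr1' := lo_ne_nil hr0'
  have hs1 := lo_ne_nil hs0
  have hs1' := lo_ne_nil hs0'
  have hr2 : r ≠ .nil △ .nil := lo_ne_pc hr0 (show 1 < 0 + 2 by omega)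
  have hr2' : r' ≠ .nil △ .nil := lo_ne_pc hr0' (show 1 < 0 + 2 by omega)
  have hs2 : s ≠ .nil △ .nil := lo_ne_pc hs0 (show 1 < 0 + 2 by omega)
  have hs2' : s' ≠ .nil △ .nil := lo_ne_pc hs0' (show 1 < 0 + 2 by omega)
  have hRn := h.neR
  have hSn := h.neS
  have hRl : R ≠ .nil △ .nil := Hv.ne_lf (d := 0) h.R3
  have hSl : S ≠ .nil △ .nil := Hv.ne_lf (d := 0) h.S3
  have hBl : B ≠ .nil △ .nil := Hv.ne_lf (d := 0) h.B3
  have hp0 : pc 0 = .nil := rfl
  have hp1 : pc 1 = .nil △ .nil := rfl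
  have hp : ∀ n, pc (n + 1) ≠ .nil := fun n => pc_ne (by omega)
  have hp1' : ∀ n, BinaryTree.nil ≠ pc (n + 1) := fun n => (hp n).symm
  have hp2 : pc (q + 1 + 1) ≠ .nil △ .nil := fun e => hp q (by injection e)
  have ha : ∀ n (Y : BinaryTree Unit), app (pc (n + 1)) Y ≠ .nil := fun n Y => by rw [pc, app]; simp
  have hUc := comps_ne hU
  have happ : ∀ P A Y : BinaryTree Unit, app P (A △ Y) ≠ .nil := fun P A Y => OddHC.app_ne' (by simp)
  have hy1 : app S (B △ .nil) ≠ .nil △ .nil := app_o (Or.inl hSn)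
  have hy2 : ∀ Y, app (pc (q + 1 + 1)) (.nil △ Y) ≠ .nil △ .nil := fun Y => app_o (Or.inl (hp _))
  have hy3 : ∀ P, app P (.nil △ pc (q + 1 + 1)) ≠ .nil △ .nil := fun P => app_o (Or.inr (hp _))
  have e0 := congrArg comps e
  have e1 := congrArg comps e
  have e2 := congrArg (fun t => (comps t).reverse) e
  rcases hB with hB | ⟨b, B1, B2, b', hBn, hb, hb', hb0, hb0'⟩
  · have hb : comps B = [] := by rw [hB]; rfl
    interval_cases i <;>
    simp [W, comps_w1, comps_node, comps_app, comps_pc, comps, hr, hs, hb, hr1, hs1, hr2, hs2, hp, hp0, hp1', hp1, hp2, hy1, hy2, hy3, hRn, hSn, hRl, hSl, hBl, ha, hU, hU.symm, hUc, happ] at e1 <;>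
    simp [W, comps_w1, comps_node, comps_app, comps_pc, comps, hr', hs', hb, hr1', hs1', hr2', hs2', hp, hp0, hp1', hp1, hp2, hy1, hy2, hy3, hRn, hSn, hRl, hSl, hBl, ha, hU, hU.symm, hUc, happ] at e2
  · have hb1 := lo_ne_nil hb0
    have hb1' := lo_ne_nil hb0'
    have hb2 : b ≠ .nil △ .nil := lo_ne_pc hb0 (show 1 < 0 + 2 by omega)
    have hb2' : b' ≠ .nil △ .nil := lo_ne_pc hb0' (show 1 < 0 + 2 by omega)
    interval_cases i <;>
    simp [W, comps_w1, comps_node, comps_app, comps_pc, comps, hr, hs, hb, hr1, hs1, hb1, hr2, hs2, hb2, hBn, hp, hp0, hp1', hp1, hp2, hy1, hy2, hy3, hRn, hSn, hRl, hSl, hBl, ha, hU, hU.symm, hUc, happ] at e1 <;>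
    simp [W, comps_w1, comps_node, comps_app, comps_pc, comps, hr', hs', hb', hr1', hs1', hb1', hr2', hs2', hb2', hBn, hp, hp0, hp1', hp1, hp2, hy1, hy2, hy3, hRn, hSn, hRl, hSl, hBl, ha, hU, hU.symm, hUc, happ] at e2

theorem PD.M1 (h : PD q R B S) {i : ℕ} (hi : i < 20) (hU : U ≠ .nil) (e : W R (pc (q + 1)) B S i = w1 U .nil (pc 1)) :
    False := by
  obtain ⟨⟨r, R1, R2, r', hr, hr', hr0, hr0'⟩, ⟨s, S1, S2, s', hs, hs', hs0, hs0'⟩, hB⟩ := h.cp
  obtain ⟨q, rfl⟩ : ∃ q', q = q' + 1 := ⟨q - 1, by have := h.q1; omega⟩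
  have hr1 := lo_ne_nil hr0
  have hr1' := lo_ne_nil hr0'
  have hs1 := lo_ne_nil hs0
  have hs1' := lo_ne_nil hs0'
  have hr2 : r ≠ .nil △ .nil := lo_ne_pc hr0 (show 1 < 0 + 2 by omega)
  have hr2' : r' ≠ .nil △ .nil := lo_ne_pc hr0' (show 1 < 0 + 2 by omega)
  have hs2 : s ≠ .nil △ .nil := lo_ne_pc hs0 (show 1 < 0 + 2 by omega)
  have hs2' : s' ≠ .nil △ .nil := lo_ne_pc hs0' (show 1 < 0 + 2 by omega)
  have hRn := h.neR
  have hSn := h.neS
  have hRl : R ≠ .nil △ .nil := Hv.ne_lf (d := 0) h.R3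
  have hSl : S ≠ .nil △ .nil := Hv.ne_lf (d := 0) h.S3
  have hBl : B ≠ .nil △ .nil := Hv.ne_lf (d := 0) h.B3
  have hp0 : pc 0 = .nil := rfl
  have hp1 : pc 1 = .nil △ .nil := rfl
  have hp : ∀ n, pc (n + 1) ≠ .nil := fun n => pc_ne (by omega)
  have hp1' : ∀ n, BinaryTree.nil ≠ pc (n + 1) := fun n => (hp n).symm
  have hp2 : pc (q + 1 + 1) ≠ .nil △ .nil := fun e => hp q (by injection e)
  have ha : ∀ n (Y : BinaryTree Unit), app (pc (n + 1)) Y ≠ .nil := fun n Y => by rw [pc, app]; simp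
  have hUc := comps_ne hU
  have happ : ∀ P A Y : BinaryTree Unit, app P (A △ Y) ≠ .nil := fun P A Y => OddHC.app_ne' (by simp)
  have hy1 : app S (B △ .nil) ≠ .nil △ .nil := app_o (Or.inl hSn)
  have hy2 : ∀ Y, app (pc (q + 1 + 1)) (.nil △ Y) ≠ .nil △ .nil := fun Y => app_o (Or.inl (hp _))
  have hy3 : ∀ P, app P (.nil △ pc (q + 1 + 1)) ≠ .nil △ .nil := fun P => app_o (Or.inr (hp _))
  have e0 := congrArg comps e
  have e1 := congrArg comps e
  have e2 := congrArg (fun t => (comps t).reverse) e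
  rcases hB with hB | ⟨b, B1, B2, b', hBn, hb, hb', hb0, hb0'⟩
  · have hb : comps B = [] := by rw [hB]; rfl
    interval_cases i <;>
    simp [W, comps_w1, comps_node, comps_app, comps_pc, comps, hr, hs, hb, hr1, hs1, hr2, hs2, hp, hp0, hp1', hp1, hp2, hy1, hy2, hy3, hRn, hSn, hRl, hSl, hBl, ha, hU, hU.symm, hUc, happ] at e1 <;>
    simp [W, comps_w1, comps_node, comps_app, comps_pc, comps, hr', hs', hb, hr1', hs1', hr2', hs2', hp, hp0, hp1', hp1, hp2, hy1, hy2, hy3, hRn, hSn, hRl, hSl, hBl, ha, hU, hU.symm, hUc, happ] at e2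
  · have hb1 := lo_ne_nil hb0
    have hb1' := lo_ne_nil hb0'
    have hb2 : b ≠ .nil △ .nil := lo_ne_pc hb0 (show 1 < 0 + 2 by omega)
    have hb2' : b' ≠ .nil △ .nil := lo_ne_pc hb0' (show 1 < 0 + 2 by omega)
    interval_cases i <;>
    simp [W, comps_w1, comps_node, comps_app, comps_pc, comps, hr, hs, hb, hr1, hs1, hb1, hr2, hs2, hb2, hBn, hp, hp0, hp1', hp1, hp2, hy1, hy2, hy3, hRn, hSn, hRl, hSl, hBl, ha, hU, hU.symm, hUc, happ] at e1 <;>
    simp [W, comps_w1, comps_node, comps_app, comps_pc, comps, hr', hs', hb', hr1', hs1', hb1', hr2', hs2', hb2', hBn, hp, hp0, hp1', hp1, hp2, hy1, hy2, hy3, hRn, hSn, hRl, hSl, hBl, ha, hU, hU.symm, hUc, happ] at e2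

/-- **Km**: the exact list -/
theorem PD.M2 (h : PD q R B S) {i : ℕ} (hi : i < 20) (hU : U ≠ .nil) (e : W R (pc (q + 1)) B S i = w1 .nil (pc 1) U) :
    q = 1 ∧ (U = (.nil △ R) △ .nil ∨ U = .nil △ (R △ .nil) ∨ U = (S △ B) △ .nil ∨ U = .nil △ app S (B △ .nil)) := by
  obtain ⟨⟨r, R1, R2, r', hr, hr', hr0, hr0'⟩, ⟨s, S1, S2, s', hs, hs', hs0, hs0'⟩, hB⟩ := h.cp
  obtain ⟨q, rfl⟩ : ∃ q', q = q' + 1 := ⟨q - 1, by have := h.q1; omega⟩
  have hr1 := lo_ne_nil hr0
  have hr1' := lo_ne_nil hr0'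
  have hs1 := lo_ne_nil hs0
  have hs1' := lo_ne_nil hs0'
  have hr2 : r ≠ .nil △ .nil := lo_ne_pc hr0 (show 1 < 0 + 2 by omega)
  have hr2' : r' ≠ .nil △ .nil := lo_ne_pc hr0' (show 1 < 0 + 2 by omega)
  have hs2 : s ≠ .nil △ .nil := lo_ne_pc hs0 (show 1 < 0 + 2 by omega)
  have hs2' : s' ≠ .nil △ .nil := lo_ne_pc hs0' (show 1 < 0 + 2 by omega)
  have hRn := h.neR
  have hSn := h.neS
  have hRl : R ≠ .nil △ .nil := Hv.ne_lf (d := 0) h.R3
  have hSl : S ≠ .nil △ .nil := Hv.ne_lf (d := 0) h.S3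
  have hBl : B ≠ .nil △ .nil := Hv.ne_lf (d := 0) h.B3
  have hp0 : pc 0 = .nil := rfl
  have hp1 : pc 1 = .nil △ .nil := rfl
  have hp : ∀ n, pc (n + 1) ≠ .nil := fun n => pc_ne (by omega)
  have hp1' : ∀ n, BinaryTree.nil ≠ pc (n + 1) := fun n => (hp n).symm
  have hp2 : pc (q + 1 + 1) ≠ .nil △ .nil := fun e => hp q (by injection e)
  have ha : ∀ n (Y : BinaryTree Unit), app (pc (n + 1)) Y ≠ .nil := fun n Y => by rw [pc, app]; simp
  have hUc := comps_ne hU
  have happ : ∀ P A Y : BinaryTree Unit, app P (A △ Y) ≠ .nil := fun P A Y => OddHC.app_ne' (by simp)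
  have hy1 : app S (B △ .nil) ≠ .nil △ .nil := app_o (Or.inl hSn)
  have hy2 : ∀ Y, app (pc (q + 1 + 1)) (.nil △ Y) ≠ .nil △ .nil := fun Y => app_o (Or.inl (hp _))
  have hy3 : ∀ P, app P (.nil △ pc (q + 1 + 1)) ≠ .nil △ .nil := fun P => app_o (Or.inr (hp _))
  have e0 := congrArg comps e
  have e1 := congrArg comps e
  have e2 := congrArg (fun t => (comps t).reverse) e
  rcases hB with hB | ⟨b, B1, B2, b', hBn, hb, hb', hb0, hb0'⟩
  · have hb : comps B = [] := by rw [hB]; rfl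
    interval_cases i <;>
    simp [W, comps_w1, comps_node, comps_app, comps_pc, comps, hr, hs, hb, hr1, hs1, hr2, hs2, hp, hp0, hp1', hp1, hp2, hy1, hy2, hy3, hRn, hSn, hRl, hSl, hBl, ha, hU, hU.symm, hUc, happ] at e1 <;>
    simp [W, comps_w1, comps_node, comps_app, comps_pc, comps, hr', hs', hb, hr1', hs1', hr2', hs2', hp, hp0, hp1', hp1, hp2, hy1, hy2, hy3, hRn, hSn, hRl, hSl, hBl, ha, hU, hU.symm, hUc, happ] at e2
    all_goals simp only [W, comps_w1, comps_node, comps_app, comps_pc, comps, List.nil_append, List.cons_append, List.append_assoc] at e0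
    · refine ⟨by have := pc_o e1.1; omega, Or.inl (comps_inj ?_)⟩
      rw [← e1.2]
      simp [comps_app, comps_node, comps]
    · refine ⟨by have := pc_o e1.1; omega, Or.inr (Or.inl (comps_inj ?_))⟩
      rw [← e1.2]
      simp [comps_app, comps_node, comps]
    · refine ⟨by have := pc_o e1.1; omega, Or.inr (Or.inr (Or.inl (comps_inj ?_)))⟩
      rw [← e1.2]
      simp [comps_app, comps_node, comps]
    · refine ⟨by have := pc_o e1.1; omega, Or.inr (Or.inr (Or.inr (comps_inj ?_)))⟩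
      rw [← e1.2]
      simp [comps_app, comps_node, comps, hs]
  · have hb1 := lo_ne_nil hb0
    have hb1' := lo_ne_nil hb0'
    have hb2 : b ≠ .nil △ .nil := lo_ne_pc hb0 (show 1 < 0 + 2 by omega)
    have hb2' : b' ≠ .nil △ .nil := lo_ne_pc hb0' (show 1 < 0 + 2 by omega)
    interval_cases i <;>
    simp [W, comps_w1, comps_node, comps_app, comps_pc, comps, hr, hs, hb, hr1, hs1, hb1, hr2, hs2, hb2, hBn, hp, hp0, hp1', hp1, hp2, hy1, hy2, hy3, hRn, hSn, hRl, hSl, hBl, ha, hU, hU.symm, hUc, happ] at e1 <;>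
    simp [W, comps_w1, comps_node, comps_app, comps_pc, comps, hr', hs', hb', hr1', hs1', hb1', hr2', hs2', hb2', hBn, hp, hp0, hp1', hp1, hp2, hy1, hy2, hy3, hRn, hSn, hRl, hSl, hBl, ha, hU, hU.symm, hUc, happ] at e2
    all_goals simp only [W, comps_w1, comps_node, comps_app, comps_pc, comps, List.nil_append, List.cons_append, List.append_assoc] at e0
    · refine ⟨by have := pc_o e1.1; omega, Or.inl (comps_inj ?_)⟩
      rw [← e1.2]
      simp [comps_app, comps_node, comps]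
    · refine ⟨by have := pc_o e1.1; omega, Or.inr (Or.inl (comps_inj ?_))⟩
      rw [← e1.2]
      simp [comps_app, comps_node, comps]
    · refine ⟨by have := pc_o e1.1; omega, Or.inr (Or.inr (Or.inl (comps_inj ?_)))⟩
      rw [← e1.2]
      simp [comps_app, comps_node, comps]
    · refine ⟨by have := pc_o e1.1; omega, Or.inr (Or.inr (Or.inr (comps_inj ?_)))⟩
      rw [← e1.2]
      simp [comps_app, comps_node, comps, hs]

theorem PD.hR (h : PD q R B S) : Hv 0 R := h.R3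
theorem PD.hS (h : PD q R B S) : Hv 0 S := h.S3
theorem PD.hB (h : PD q R B S) : Hv 0 B := h.B3

theorem PD.R_pc (h : PD q R B S) (n : ℕ) : R ≠ pc n := by
  intro e
  have h2 := h.two
  rw [e] at h2
  cases n with
  | zero =>
    rw [pc, cont_nil] at h2
    unfold H1.n2 at h2
    simp at h2
  | succ n =>
    rw [cont_pc, H1.n2_single] at h2
    split_ifs at h2 <;> omega

end H1

/-- `P = V()()`, `V()(n)()`, `V(A())()` or `V(n)` -/
theorem KSh.cleanPD (h : KSh U) (g : H1.PD q R B S) :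
    ¬ (U = .nil △ app R (.nil △ .nil) ∨ U = (R △ .nil) △ .nil ∨ U = S △ app B (.nil △ .nil) ∨
        U = app S (B △ .nil) △ .nil) := by
  rintro (e | e | e | e)
  · -- ()R()
    rcases h.two with ⟨V, e1⟩ | ⟨V, n, e1⟩ | ⟨V, A, hA, e1⟩ | ⟨V, n, hn, e1⟩
    · have e2 : app (.nil △ R) (.nil △ .nil) = app (app V (.nil △ .nil)) (.nil △ .nil) := by
        rw [app_assoc']
        change BinaryTree.nil △ app R (.nil △ .nil) = _
        rw [← e, e1]
        rfl
      have e3 := (app_snoc e2).1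
      cases V with
      | nil =>
        injection e3 with _ _ e4
        exact g.neR e4
      | node u l r =>
        have e4 : R = app r (.nil △ .nil) := by
          injection e3 with _ _ e4
        exact g.hR.ne_snoc r e4
    · have e2 : app (.nil △ R) (.nil △ .nil) = app (app V (.nil △ (pc n △ .nil))) (.nil △ .nil) := by
        rw [app_assoc']
        change BinaryTree.nil △ app R (.nil △ .nil) = _
        rw [← e, e1]
        rfl
      have e3 := (app_snoc e2).1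
      cases V with
      | nil =>
        have e4 : R = pc n △ .nil := by
          injection e3 with _ _ e4
        exact g.R_pc (n + 1) e4
      | node u l r =>
        have e4 : R = app r (.nil △ (pc n △ .nil)) := by
          injection e3 with _ _ e4
        have h1 : 1 ∈ cont R := by
          rw [e4, cont_app, cont_node, cont_nil, raise_zero]
          simp
        have := g.hR 1 h1
        omega
    · have e2 : app (.nil △ R) (.nil △ .nil) = app (app V (app A (.nil △ .nil) △ .nil)) (.nil △ .nil) := by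
        rw [app_assoc']
        change BinaryTree.nil △ app R (.nil △ .nil) = _
        rw [← e, e1]
        rfl
      have e3 := (app_snoc e2).1
      have h1 := congrArg OddHC.ls e3
      rw [ls_node _ g.neR, ls_app _ (by simp), ls_single] at h1
      have h2 := g.hR.ls g.neR
      rw [h1] at h2
      exact lo_bead hA h2
    · have e2 : app (.nil △ R) (.nil △ .nil) = app V (pc n △ .nil) := by
        change BinaryTree.nil △ app R (.nil △ .nil) = _
        rw [← e, e1]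
      exact pc_ne hn (app_snoc e2).2.symm
  · -- ((R))
    rcases h.two with ⟨V, e1⟩ | ⟨V, n, e1⟩ | ⟨V, A, hA, e1⟩ | ⟨V, n, hn, e1⟩
    · have e2 : app .nil ((R △ .nil) △ .nil) = app (app V (.nil △ .nil)) (.nil △ .nil) := by
        rw [app_assoc']
        change (R △ .nil) △ .nil = _
        rw [← e, e1]
        rfl
      exact app_ne' (by simp) (app_snoc e2).1.symm
    · have e2 : app .nil ((R △ .nil) △ .nil) = app (app V (.nil △ (pc n △ .nil))) (.nil △ .nil) := by
        rw [app_assoc']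
        change (R △ .nil) △ .nil = _
        rw [← e, e1]
        rfl
      exact app_ne' (by simp) (app_snoc e2).1.symm
    · have e2 : app .nil ((R △ .nil) △ .nil) = app (app V (app A (.nil △ .nil) △ .nil)) (.nil △ .nil) := by
        rw [app_assoc']
        change (R △ .nil) △ .nil = _
        rw [← e, e1]
        rfl
      exact app_ne' (by simp) (app_snoc e2).1.symm
    · have e2 : app .nil ((R △ .nil) △ .nil) = app V (pc n △ .nil) := by
        change (R △ .nil) △ .nil = _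
        rw [← e, e1]
      obtain ⟨e3, e4⟩ := app_snoc e2
      obtain ⟨n, rfl⟩ : ∃ n', n = n' + 1 := ⟨n - 1, by omega⟩
      have e5 : R = pc n := by
        injection e4 with _ e5 _
      exact g.R_pc n e5
  · -- (S)B()
    have e0 : app (S △ B) (.nil △ .nil) = U := by rw [e]; rfl
    rcases h.two with ⟨V, e1⟩ | ⟨V, n, e1⟩ | ⟨V, A, hA, e1⟩ | ⟨V, n, hn, e1⟩
    · have e2 : app (S △ B) (.nil △ .nil) = app (app V (.nil △ .nil)) (.nil △ .nil) := by
        rw [app_assoc', e0, e1]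
        rfl
      have e3 := (app_snoc e2).1
      cases V with
      | nil =>
        injection e3 with _ e4 _
        exact g.neS e4
      | node u l r =>
        have e4 : B = app r (.nil △ .nil) := by
          injection e3 with _ _ e4
        exact g.hB.ne_snoc r e4
    · have e2 : app (S △ B) (.nil △ .nil) = app (app V (.nil △ (pc n △ .nil))) (.nil △ .nil) := by
        rw [app_assoc', e0, e1]
        rfl
      have e3 := (app_snoc e2).1
      cases V with
      | nil =>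
        injection e3 with _ e4 _
        exact g.neS e4
      | node u l r =>
        have e4 : B = app r (.nil △ (pc n △ .nil)) := by
          injection e3 with _ _ e4
        have h1 : 1 ∈ cont B := by
          rw [e4, cont_app, cont_node, cont_nil, raise_zero]
          simp
        have := g.hB 1 h1
        omega
    · have e2 : app (S △ B) (.nil △ .nil) = app (app V (app A (.nil △ .nil) △ .nil)) (.nil △ .nil) := by
        rw [app_assoc', e0, e1]
        rfl
      have e3 := (app_snoc e2).1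
      by_cases hB : B = .nil
      · rw [hB] at e3
        have e4 : app .nil (S △ .nil) = app V (app A (.nil △ .nil) △ .nil) := e3
        exact g.hS.ne_snoc A (app_snoc e4).2
      · have h1 := congrArg OddHC.ls e3
        rw [ls_node _ hB, ls_app _ (by simp), ls_single] at h1
        have h2 := g.hB.ls hB
        rw [h1] at h2
        exact lo_bead hA h2
    · have e2 : app (S △ B) (.nil △ .nil) = app V (pc n △ .nil) := by
        rw [e0, e1]
      exact pc_ne hn (app_snoc e2).2.symm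
  · -- (S(B))
    rcases h.two with ⟨V, e1⟩ | ⟨V, n, e1⟩ | ⟨V, A, hA, e1⟩ | ⟨V, n, hn, e1⟩
    · have e2 : app .nil (app S (B △ .nil) △ .nil) = app (app V (.nil △ .nil)) (.nil △ .nil) := by
        rw [app_assoc']
        change app S (B △ .nil) △ .nil = _
        rw [← e, e1]
        rfl
      exact app_ne' (by simp) (app_snoc e2).1.symm
    · have e2 : app .nil (app S (B △ .nil) △ .nil) = app (app V (.nil △ (pc n △ .nil))) (.nil △ .nil) := by
        rw [app_assoc']
        change app S (B △ .nil) △ .nil = _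
        rw [← e, e1]
        rfl
      exact app_ne' (by simp) (app_snoc e2).1.symm
    · have e2 : app .nil (app S (B △ .nil) △ .nil) = app (app V (app A (.nil △ .nil) △ .nil)) (.nil △ .nil) := by
        rw [app_assoc']
        change app S (B △ .nil) △ .nil = _
        rw [← e, e1]
        rfl
      exact app_ne' (by simp) (app_snoc e2).1.symm
    · have e2 : app .nil (app S (B △ .nil) △ .nil) = app V (pc n △ .nil) := by
        change app S (B △ .nil) △ .nil = _
        rw [← e, e1]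
      obtain ⟨e3, e4⟩ := app_snoc e2
      obtain ⟨n, rfl⟩ : ∃ n', n = n' + 1 := ⟨n - 1, by omega⟩
      have e5 : app S (B △ .nil) = app .nil (pc n △ .nil) := e4
      exact g.neS (app_snoc e5).1

/-- the shapes of the hosts of the `Km` links are clean -/
theorem KmSh.cleanPD (h : KmSh U) (g : H1.PD q R B S) :
    ¬ (U = (.nil △ R) △ .nil ∨ U = .nil △ (R △ .nil) ∨ U = (S △ B) △ .nil ∨ U = .nil △ app S (B △ .nil)) := by
  rintro (e | e | e | e)
  · refine h.not_one (fun P e1 => ?_) e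
    cases P with
    | nil =>
      injection e1 with _ _ e4
      exact g.neR e4
    | node u l r =>
      have e4 : R = app r (.nil △ .nil) := by
        injection e1 with _ _ e4
      exact g.hR.ne_snoc r e4
  · rcases h.snoc with ⟨V, e1, hV⟩ | ⟨V, A, hA, e1⟩
    · have e2 : app V (.nil △ .nil) = app (.nil △ .nil) (R △ .nil) := by rw [← e1, e]; rfl
      exact g.neR (app_snoc e2).2.symm
    · have e2 : app V (app A (.nil △ .nil) △ .nil) = app (.nil △ .nil) (R △ .nil) := by rw [← e1, e]; rfl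
      exact g.hR.ne_snoc A (app_snoc e2).2.symm
  · refine h.not_one (fun P e1 => ?_) e
    cases P with
    | nil =>
      injection e1 with _ e4 _
      exact g.neS e4
    | node u l r =>
      have e4 : B = app r (.nil △ .nil) := by
        injection e1 with _ _ e4
      exact g.hB.ne_snoc r e4
  · rcases h.snoc with ⟨V, e1, hV⟩ | ⟨V, A, hA, e1⟩
    · have e2 : app V (.nil △ .nil) = app (.nil △ S) (B △ .nil) := by rw [← e1, e]; rfl
      have e3 := (app_snoc e2).1
      rw [e3] at hV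
      exact hV.not_app (P := .nil △ .nil) g.hS g.neS rfl
    · have e2 : app V (app A (.nil △ .nil) △ .nil) = app (.nil △ S) (B △ .nil) := by rw [← e1, e]; rfl
      exact g.hB.ne_snoc A (app_snoc e2).2.symm


namespace H1

/-- **K** -/
theorem PD.not_K (h : PD q R B S) (hU : KSh U) {i : ℕ} (hi : i < 20) :
    W R (ch (q + 1)) B S i ≠ w1 .nil U (pc 1) ∧ W R (ch (q + 1)) B S i ≠ w1 U (pc 1) .nil ∧
    W R (ch (q + 1)) B S i ≠ w1 (pc 1) .nil U := by
  rw [ch_eq]
  exact ⟨fun e => h.K0 hi hU.ne e, fun e => hU.cleanPD h (h.K1 hi hU.ne e).2, fun e => h.K2 hi hU.ne e⟩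

/-- **Km** -/
theorem PD.not_Km (h : PD q R B S) (hU : KmSh U) {i : ℕ} (hi : i < 20) :
    W R (ch (q + 1)) B S i ≠ w1 (pc 1) U .nil ∧ W R (ch (q + 1)) B S i ≠ w1 U .nil (pc 1) ∧
    W R (ch (q + 1)) B S i ≠ w1 .nil (pc 1) U := by
  rw [ch_eq]
  exact ⟨fun e => h.M0 hi hU.ne e, fun e => h.M1 hi hU.ne e, fun e => hU.cleanPD h (h.M2 hi hU.ne e).2⟩

end H1

end Pool.OddHC
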