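import Pool.Agent.Work.MP_8f87b2_h63.J4Pl
import Pool.Agent.Work.MP_8f87b2_h86.EEx
import Pool.Agent.Work.MP_8f87b2_h11.T
import Pool.Agent.Work.MP_8f87b2_h86.EJ

/-!
MP_8f87b2_co: the two hop pairs over `V = (s, 4)` with two beads which type E over `X = ()[4][s]`, `X = [4][s]()` cannot use
next to the gadget J1a at `(s, 4, 2)`: another phase `r' = ((([4][s-3])))` of the same T-cycle. The orbits
`T^(2s-1) (()()[4][s]) = ()()r'`, `T^(2s-1) (()[4][s]()) = ()r'()`, `T^(2s-1) ([4][s]()()) = r'()()`.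
-/

set_option autoImplicit false

namespace Pool.OddHC

open BinaryTree Equiv Pool.Agent.Work.MP_8f87b2_co

namespace E4

variable {k n : ℕ}

/-- step of the height -/
def dl : Bool → ℤ
  | true => 1
  | false => -1

/-- the height at the end -/
def net : List Bool → ℤ
  | [] => 0
  | b :: l => dl b + net l

/-- the largest height -/
def mx : List Bool → ℤ
  | [] => 0
  | b :: l => max 0 (dl b + mx l)

/-- the smallest height -/
def mn : List Bool → ℤ
  | [] => 0
  | b :: l => min 0 (dl b + mn l)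

/-- all letters `1` -/
abbrev I (n : ℕ) : List Bool := List.replicate n true

/-- all letters `0` -/
abbrev O (n : ℕ) : List Bool := List.replicate n false

theorem mx_nonneg (l : List Bool) : 0 ≤ mx l := by
  cases l with
  | nil => exact le_refl _
  | cons b l => exact le_max_left _ _

theorem mn_nonpos (l : List Bool) : mn l ≤ 0 := by
  cases l with
  | nil => exact le_refl _
  | cons b l => exact min_le_left _ _

theorem net_append (a b : List Bool) : net (a ++ b) = net a + net b := by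
  induction a with
  | nil => simp [net]
  | cons c a ih => rw [List.cons_append, net, net, ih]; ring

theorem mx_append (a b : List Bool) : mx (a ++ b) = max (mx a) (net a + mx b) := by
  induction a with
  | nil =>
    have := mx_nonneg b
    simp only [List.nil_append, mx, net]
    omega
  | cons c a ih =>
    rw [List.cons_append, mx, mx, net, ih]
    omega

theorem mn_append (a b : List Bool) : mn (a ++ b) = min (mn a) (net a + mn b) := by
  induction a with
  | nil =>
    have := mn_nonpos b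
    simp only [List.nil_append, mn, net]
    omega
  | cons c a ih =>
    rw [List.cons_append, mn, mn, net, ih]
    omega

theorem mn_le_net (a : List Bool) : mn a ≤ net a := by
  induction a with
  | nil => exact le_refl _
  | cons c a ih =>
    rw [mn, net]
    omega

theorem net_le_mx (a : List Bool) : net a ≤ mx a := by
  induction a with
  | nil => exact le_refl _
  | cons c a ih =>
    rw [mx, net]
    omega

theorem net_I (n : ℕ) : net (I n) = n := by
  induction n with
  | zero => rfl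
  | succ n ih =>
    rw [I, List.replicate_succ, net, ih, dl]
    push_cast
    ring

theorem net_O (n : ℕ) : net (O n) = -n := by
  induction n with
  | zero => rfl
  | succ n ih =>
    rw [O, List.replicate_succ, net, ih, dl]
    push_cast
    ring

theorem mx_I (n : ℕ) : mx (I n) = n := by
  induction n with
  | zero => rfl
  | succ n ih =>
    rw [I, List.replicate_succ, mx, ih, dl]
    push_cast
    omega

theorem mx_O (n : ℕ) : mx (O n) = 0 := by
  induction n with
  | zero => rfl
  | succ n ih =>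
    rw [O, List.replicate_succ, mx, ih, dl]
    omega

theorem mn_I (n : ℕ) : mn (I n) = 0 := by
  induction n with
  | zero => rfl
  | succ n ih =>
    rw [I, List.replicate_succ, mn, ih, dl]
    omega

theorem mn_O (n : ℕ) : mn (O n) = -n := by
  induction n with
  | zero => rfl
  | succ n ih =>
    rw [O, List.replicate_succ, mn, ih, dl]
    push_cast
    omega

theorem net_not (l : List Bool) : net (l.map not) = - net l := by
  induction l with
  | nil => rfl
  | cons b l ih =>
    rw [List.map_cons, net, net, ih]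
    cases b <;> simp [dl] <;> ring

theorem mx_not (l : List Bool) : mx (l.map not) = - mn l := by
  induction l with
  | nil => rfl
  | cons b l ih =>
    rw [List.map_cons, mx, mn, ih]
    cases b <;> simp only [dl, Bool.not_true, Bool.not_false] <;> omega

theorem not_I (n : ℕ) : (I n).map not = O n := by simp [I, O]

theorem not_O (n : ℕ) : (O n).map not = I n := by simp [I, O]

theorem net_take_le (l : List Bool) : ∀ m, net (l.take m) ≤ mx l := by
  induction l with
  | nil => intro m; simp [net, mx]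
  | cons b l ih =>
    intro m
    cases m with
    | zero => simpa [net] using mx_nonneg (b :: l)
    | succ m =>
      rw [List.take_succ_cons, net, mx]
      have := ih m
      omega

theorem net_eq (l : List Bool) : net l = (l.count true : ℤ) - l.count false := by
  induction l with
  | nil => rfl
  | cons b l ih =>
    rw [net, ih]
    cases b <;> simp [dl] <;> ring

/-- one application of `T` on the words -/
def St (l l' : List Bool) : Prop :=
  ∃ a b, l = a ++ true :: b ∧ mx a ≤ net a ∧ mx b ≤ 0 ∧ l' = b.map not ++ false :: a.map not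

theorem St.wd {x : X k} {l l' : List Bool} (h : St l l') (hx : Pool.OddHC.wd x.1 = l) :
    Pool.OddHC.wd (TT x).1 = l' := by
  obtain ⟨a, b, rfl, h1, h2, rfl⟩ := h
  refine (Ft.FM_mk (h := (net a).toNat + 1) hx ?_ ?_ ?_).wdT
  · intro m
    have e1 := net_take_le a m
    have e2 := net_take_le a 0
    rw [List.take_zero] at e2
    change 0 ≤ _ at e2
    rw [net_eq] at e1
    omega
  · have e2 := net_take_le a 0
    rw [List.take_zero] at e2
    change 0 ≤ _ at e2
    have e3 := net_eq a
    omega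
  · intro m
    have e1 := net_take_le b m
    rw [net_eq] at e1
    omega

/-- some power of `T` -/
def Rc (l l' : List Bool) : Prop :=
  ∀ (k : ℕ) (x : X k), Pool.OddHC.wd x.1 = l → ∃ y : X k, cyc y = cyc x ∧ Pool.OddHC.wd y.1 = l'

theorem Rc.refl (l : List Bool) : Rc l l := fun _ x hx => ⟨x, rfl, hx⟩

theorem Rc.trans {l l' l'' : List Bool} (h : Rc l l') (h' : Rc l' l'') : Rc l l'' := by
  intro k x hx
  obtain ⟨y, e, hy⟩ := h k x hx
  obtain ⟨z, e', hz⟩ := h' k y hy
  exact ⟨z, e'.trans e, hz⟩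

theorem St.rc {l l' : List Bool} (h : St l l') : Rc l l' := by
  intro k x hx
  exact ⟨TT x, (cyc_eq.2 ⟨1, by rw [zpow_one]⟩).symm, h.wd hx⟩

theorem Rc.cyc {l l' : List Bool} (h : Rc l l') {x y : X k} (hx : Pool.OddHC.wd x.1 = l)
    (hy : Pool.OddHC.wd y.1 = l') : Pool.OddHC.cyc x = Pool.OddHC.cyc y := by
  obtain ⟨z, e, hz⟩ := h k x hx
  rw [← e, Subtype.ext (wd_ext (hz.trans hy.symm)) (a1 := z) (a2 := y)]

/-- `T^2 (P 1^(t+1) 0^s) = 1 P 1^t 0^s` -/
theorem dbl {P : List Bool} {t s : ℕ} (h0 : 0 ≤ mn P) (h1 : mx P + 1 ≤ s) (h2 : net P + t + 1 = s) :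
    Rc (P ++ (I (t + 1) ++ O s)) ((true :: P) ++ (I t ++ O s)) := by
  have h3 := mn_nonpos P
  have h5 := mn_le_net P
  have h4 := mx_nonneg P
  obtain ⟨s, rfl⟩ : ∃ s', s = s' + 1 := ⟨s - 1, by omega⟩
  have e1 : St (P ++ (I (t + 1) ++ O (s + 1))) (I (s + 1) ++ (false :: (P.map not ++ O t))) := by
    refine ⟨P ++ I t, O (s + 1), ?_, ?_, ?_, ?_⟩
    · simp [I, List.replicate_succ']
    · rw [mx_append, net_append, net_I, mx_I]
      omega
    · rw [mx_O]
    · rw [List.map_append, not_I, not_O]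
  have e2 : St (I (s + 1) ++ (false :: (P.map not ++ O t))) ((true :: P) ++ (I t ++ O (s + 1))) := by
    refine ⟨I s, false :: (P.map not ++ O t), ?_, ?_, ?_, ?_⟩
    · simp [I, List.replicate_succ']
    · rw [mx_I, net_I]
    · rw [mx, mx_append, mx_not, net_not, mx_O, dl]
      omega
    · rw [List.map_cons, List.map_append, List.map_map, not_I, not_O]
      have hn : (not ∘ not) = id := by funext x; cases x <;> rfl
      rw [hn, List.map_id]
      simp [O, List.replicate_succ]
  exact e1.rc.trans e2.rc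

theorem dblN : ∀ (n : ℕ) {P : List Bool} {t s : ℕ}, 0 ≤ mn P → mx P + n ≤ s → net P + t + n = s →
    Rc (P ++ (I (t + n) ++ O s)) (I n ++ (P ++ (I t ++ O s))) := by
  intro n
  induction n with
  | zero =>
    intro P t s _ _ _
    exact Rc.refl _
  | succ n ih =>
    intro P t s h0 h1 h2
    have h3 := mn_nonpos P
    have h4 := mx_nonneg P
    have e1 := dbl (P := P) (t := t + n) (s := s) h0 (by push_cast at h1; omega) (by push_cast at h2 ⊢; omega)
    have e2 := ih (P := true :: P) (t := t) (s := s) (by rw [mn, dl]; omega)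
      (by rw [mx, dl]; push_cast at h1; omega) (by rw [net, dl]; push_cast at h2; omega)
    have e3 := e1.trans e2
    have e4 : I n ++ ((true :: P) ++ (I t ++ O s)) = I (n + 1) ++ (P ++ (I t ++ O s)) := by
      simp [I, List.replicate_succ']
    rw [e4] at e3
    exact e3

/-- `T^2 (1^v Q 1^(i+1) 0^z 1^4 0^(w+1)) = 1^(v+1) Q 1^i 0^(z+1) 1^4 0^w` -/
theorem two {Q : List Bool} {v i z w : ℕ} (h0 : 0 ≤ mn Q) (h1 : mx Q ≤ net Q + i) (h2 : 0 ≤ net Q) (hz : 4 ≤ z)
    (hw : 4 ≤ w) : Rc (I v ++ (Q ++ (I (i + 1) ++ (O z ++ (I 4 ++ O (w + 1))))))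
      (I (v + 1) ++ (Q ++ (I i ++ (O (z + 1) ++ (I 4 ++ O w))))) := by
  have h3 := mn_nonpos Q
  have h4 := mx_nonneg Q
  have e1 : St (I v ++ (Q ++ (I (i + 1) ++ (O z ++ (I 4 ++ O (w + 1))))))
      (I z ++ (O 4 ++ (I (w + 1) ++ (O (v + 1) ++ (Q.map not ++ O i))))) := by
    refine ⟨I v ++ (Q ++ I i), O z ++ (I 4 ++ O (w + 1)), ?_, ?_, ?_, ?_⟩
    · simp [I, List.replicate_succ']
    · simp only [mx_append, net_append, net_I, mx_I]
      omega
    · simp only [mx_append, net_O, mx_I, mx_O, net_I]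
      omega
    · simp only [List.map_append, not_I, not_O]
      simp [O, List.replicate_succ]
  have e2 : St (I z ++ (O 4 ++ (I (w + 1) ++ (O (v + 1) ++ (Q.map not ++ O i)))))
      (I (v + 1) ++ (Q ++ (I i ++ (O (z + 1) ++ (I 4 ++ O w))))) := by
    refine ⟨I z ++ (O 4 ++ I w), O (v + 1) ++ (Q.map not ++ O i), ?_, ?_, ?_, ?_⟩
    · simp [I, List.replicate_succ']
    · simp only [mx_append, net_append, net_I, mx_I, net_O, mx_O]
      omega
    · simp only [mx_append, net_O, mx_O, mx_not, net_not]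
      omega
    · have hn : (not ∘ not) = id := by funext x; cases x <;> rfl
      simp only [List.map_append, not_I, not_O, List.map_map, hn, List.map_id]
      simp [O, List.replicate_succ]
  exact e1.rc.trans e2.rc

/-- from `Q 1^4 0^4 1^(u+4) 0^(s+3)` to `1^(u+3) Q 1 0^7 1^4 0^s` -/
theorem main {Q : List Bool} {u s : ℕ} (h0 : 0 ≤ mn Q) (h1 : mx Q ≤ net Q + 1)
    (hs : net Q + u + 4 = s + 3) (hs4 : 4 ≤ s) :
    Rc ((Q ++ (I 4 ++ O 4)) ++ (I (4 + u) ++ O (s + 3))) (I (u + 3) ++ (Q ++ (I 1 ++ (O 7 ++ (I 4 ++ O s))))) := by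
  have h3 := mn_nonpos Q
  have h4 := mx_nonneg Q
  have h2 := mn_le_net Q
  have e0 := dblN u (P := Q ++ (I 4 ++ O 4)) (t := 4) (s := s + 3) (by
    simp only [mn_append, mn_I, net_I, mn_O]
    push_cast
    omega) (by
    simp only [mx_append, mx_I, net_I, mx_O]
    push_cast
    omega) (by
    simp only [net_append, net_I, net_O]
    push_cast
    omega)
  have e1 := two (Q := Q) (v := u) (i := 3) (z := 4) (w := s + 2) h0 (by push_cast; omega) (by omega) (by omega)
    (by omega)
  have e2 := two (Q := Q) (v := u + 1) (i := 2) (z := 5) (w := s + 1) h0 (by push_cast; omega) (by omega) (by omega)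
    (by omega)
  have e3 := two (Q := Q) (v := u + 2) (i := 1) (z := 6) (w := s) h0 (by push_cast; omega) (by omega) (by omega)
    (by omega)
  refine Rc.trans ?_ (e1.trans (e2.trans e3))
  simpa only [List.append_assoc] using e0

/-- the last step -/
theorem last {Q Q₁ Q₂ : List Bool} {v s : ℕ} (hQ : Q ++ I 1 = Q₁ ++ true :: Q₂) (h1 : mx Q₁ ≤ net Q₁)
    (h2 : mx Q₂ ≤ 0) (h4 : 0 ≤ net Q₁) :
    St (I v ++ (Q ++ (I 1 ++ (O 7 ++ (I 4 ++ O s)))))
      (Q₂.map not ++ (I 7 ++ (O 4 ++ (I s ++ (O (v + 1) ++ Q₁.map not))))) := by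
  have h5 := mx_nonneg Q₁
  refine ⟨I v ++ Q₁, Q₂ ++ (O 7 ++ (I 4 ++ O s)), ?_, ?_, ?_, ?_⟩
  · have : I v ++ (Q ++ (I 1 ++ (O 7 ++ (I 4 ++ O s)))) = I v ++ ((Q ++ I 1) ++ (O 7 ++ (I 4 ++ O s))) := by
      simp only [List.append_assoc]
    rw [this, hQ]
    simp
  · simp only [mx_append, net_append, mx_I, net_I]
    omega
  · have h6 := net_le_mx Q₂
    have h7 : mx (O 7 ++ (I 4 ++ O s)) = 0 := by
      simp only [mx_append, mx_I, net_I, mx_O, net_O]
      push_cast
      omega
    rw [mx_append, h7]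
    omega
  · simp only [List.map_append, not_I, not_O]
    simp [O, List.replicate_succ]

/-- `()()[4][s]` to `()()((([4][s-3])))` -/
theorem rcA {s : ℕ} (hs : 4 ≤ s) : Rc ([true, false, true, false] ++ (I 4 ++ (O 4 ++ (I (s + 3) ++ O (s + 3)))))
    ([true, false, true, false] ++ (I 7 ++ (O 4 ++ (I s ++ O (s + 3))))) := by
  obtain ⟨u, rfl⟩ : ∃ u, s = u + 1 := ⟨s - 1, by omega⟩
  have e1 := main (Q := [true, false, true, false]) (u := u) (s := u + 1) (by decide) (by decide)
    (by rw [show net [true, false, true, false] = 0 from rfl]; push_cast; ring) hs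
  have e2 := last (Q := [true, false, true, false]) (Q₁ := []) (Q₂ := [false, true, false, true]) (v := u + 3)
    (s := u + 1) rfl (by decide) (by decide) (by decide)
  have e3 := e1.trans e2.rc
  have g1 : [true, false, true, false] ++ (I 4 ++ (O 4 ++ (I (u + 1 + 3) ++ O (u + 1 + 3)))) =
      ([true, false, true, false] ++ (I 4 ++ O 4)) ++ (I (4 + u) ++ O (u + 1 + 3)) := by
    rw [show 4 + u = u + 1 + 3 by omega]
    simp only [List.append_assoc]
  rw [g1]
  simpa using e3

/-- `()[4][s]()` to `()((([4][s-3])))()` -/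
theorem rcB {s : ℕ} (hs : 4 ≤ s) :
    Rc ([true, false] ++ (I 4 ++ (O 4 ++ (I (s + 3) ++ (O (s + 3) ++ [true, false])))))
    ([true, false] ++ (I 7 ++ (O 4 ++ (I s ++ (O (s + 3) ++ [true, false]))))) := by
  obtain ⟨u, rfl⟩ : ∃ u, s = u + 2 := ⟨s - 2, by omega⟩
  have a1 : St ([true, false] ++ (I 4 ++ (O 4 ++ (I (u + 2 + 3) ++ (O (u + 2 + 3) ++ [true, false])))))
      (I (u + 5) ++ ([false, true, false] ++ ([false, true] ++ (O 4 ++ (I 4 ++ O (u + 4)))))) := by
    refine ⟨[true, false] ++ (I 4 ++ (O 4 ++ I (u + 4))), O (u + 5) ++ [true, false], ?_, ?_, ?_, ?_⟩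
    · simp [I, List.replicate_succ']
    · simp only [mx_append, net_append, mx_I, net_I, mx_O, net_O, mx, net, dl]
      push_cast
      omega
    · simp only [mx_append, mx_O, net_O, mx, dl]
      push_cast
      omega
    · simp only [List.map_append, not_I, not_O]
      simp [O]
  have a2 : St (I (u + 5) ++ ([false, true, false] ++ ([false, true] ++ (O 4 ++ (I 4 ++ O (u + 4))))))
      ([true, false, true, true, false] ++ (I 4 ++ (O 4 ++ (I (u + 4) ++ O (u + 5))))) := by
    refine ⟨I (u + 4), [false, true, false] ++ ([false, true] ++ (O 4 ++ (I 4 ++ O (u + 4)))), ?_, ?_, ?_, ?_⟩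
    · simp [I, List.replicate_succ']
    · rw [mx_I, net_I]
    · simp only [mx_append, mx_I, net_I, mx_O, net_O, mx, net, dl]
      push_cast
      omega
    · simp only [List.map_append, not_I, not_O]
      simp [O, List.replicate_succ]
  have e1 := main (Q := [true, false, true, true, false]) (u := u) (s := u + 2) (by decide) (by decide)
    (by rw [show net [true, false, true, true, false] = 1 from rfl]; push_cast; ring) hs
  have e2 := last (Q := [true, false, true, true, false]) (Q₁ := [true, false, true]) (Q₂ := [false, true]) (v := u + 3)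
    (s := u + 2) rfl (by decide) (by decide) (by decide)
  have g1 : [true, false, true, true, false] ++ (I 4 ++ (O 4 ++ (I (u + 4) ++ O (u + 5)))) =
      ([true, false, true, true, false] ++ (I 4 ++ O 4)) ++ (I (4 + u) ++ O (u + 2 + 3)) := by
    rw [show 4 + u = u + 4 by omega]
    simp only [List.append_assoc]
  rw [g1] at a2
  have e3 := a1.rc.trans (a2.rc.trans (e1.trans e2.rc))
  have g2 : [false, true].map not ++ (I 7 ++ (O 4 ++ (I (u + 2) ++ (O (u + 3 + 1) ++ [true, false, true].map not)))) =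
      [true, false] ++ (I 7 ++ (O 4 ++ (I (u + 2) ++ (O (u + 2 + 3) ++ [true, false])))) := by
    simp [O, List.replicate_succ' (n := u + 4)]
  rw [g2] at e3
  exact e3

/-- `[4][s]()()` to `((([4][s-3])))()()` -/
theorem rcC {s : ℕ} (hs : 4 ≤ s) :
    Rc (I 4 ++ (O 4 ++ (I (s + 3) ++ (O (s + 3) ++ [true, false, true, false]))))
    (I 7 ++ (O 4 ++ (I s ++ (O (s + 3) ++ [true, false, true, false])))) := by
  obtain ⟨u, rfl⟩ : ∃ u, s = u + 2 := ⟨s - 2, by omega⟩
  have a1 : St (I 4 ++ (O 4 ++ (I (u + 2 + 3) ++ (O (u + 2 + 3) ++ [true, false, true, false]))))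
      (I (u + 5) ++ ([false, true, false, true] ++ (O 5 ++ (I 4 ++ O (u + 4))))) := by
    refine ⟨I 4 ++ (O 4 ++ I (u + 4)), O (u + 5) ++ [true, false, true, false], ?_, ?_, ?_, ?_⟩
    · simp [I, List.replicate_succ']
    · simp only [mx_append, net_append, mx_I, net_I, mx_O, net_O]
      push_cast
      omega
    · simp only [mx_append, mx_O, net_O, mx, dl]
      push_cast
      omega
    · simp only [List.map_append, not_I, not_O]
      simp [O]
  have a2 : St (I (u + 5) ++ ([false, true, false, true] ++ (O 5 ++ (I 4 ++ O (u + 4)))))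
      ([true, false, true, false, true] ++ (I 4 ++ (O 4 ++ (I (u + 4) ++ O (u + 5))))) := by
    refine ⟨I (u + 4), [false, true, false, true] ++ (O 5 ++ (I 4 ++ O (u + 4))), ?_, ?_, ?_, ?_⟩
    · simp [I, List.replicate_succ']
    · rw [mx_I, net_I]
    · simp only [mx_append, mx_I, net_I, mx_O, net_O, mx, net, dl]
      push_cast
      omega
    · simp only [List.map_append, not_I, not_O]
      simp [O, I, List.replicate_succ]
  have e1 := main (Q := [true, false, true, false, true]) (u := u) (s := u + 2) (by decide) (by decide)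
    (by rw [show net [true, false, true, false, true] = 1 from rfl]; push_cast; ring) hs
  have e2 := last (Q := [true, false, true, false, true]) (Q₁ := [true, false, true, false, true]) (Q₂ := []) (v := u + 3)
    (s := u + 2) rfl (by decide) (by decide) (by decide)
  have g1 : [true, false, true, false, true] ++ (I 4 ++ (O 4 ++ (I (u + 4) ++ O (u + 5)))) =
      ([true, false, true, false, true] ++ (I 4 ++ O 4)) ++ (I (4 + u) ++ O (u + 2 + 3)) := by
    rw [show 4 + u = u + 4 by omega]
    simp only [List.append_assoc]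
  rw [g1] at a2
  have e3 := a1.rc.trans (a2.rc.trans (e1.trans e2.rc))
  have g2 : ([] : List Bool).map not ++ (I 7 ++ (O 4 ++ (I (u + 2) ++ (O (u + 3 + 1) ++
      [true, false, true, false, true].map not)))) =
      I 7 ++ (O 4 ++ (I (u + 2) ++ (O (u + 2 + 3) ++ [true, false, true, false]))) := by
    simp [O, List.replicate_succ' (n := u + 4)]
  rw [g2] at e3
  exact e3

/-- the phase `((([4][m])))` of `[4][m+3]` -/
def R4 (m : ℕ) : BinaryTree Unit := (((app (H1.ch 4) (H1.ch m)) △ .nil) △ .nil) △ .nil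

theorem wd_R4 (m : ℕ) : Pool.OddHC.wd (R4 m) = I 7 ++ (O 4 ++ (I m ++ O (m + 3))) := by
  unfold R4
  rw [wd_node, wd_node, wd_node, wd_app, H1.wd_ch, H1.wd_ch, wd,
    show O (m + 3) = O m ++ [false, false, false] from List.replicate_add _ _ _]
  simp [I, O, List.replicate_succ]

theorem R4_num (m : ℕ) : (R4 m).numNodes = m + 7 := by
  unfold R4
  change (app (H1.ch 4) (H1.ch m)).numNodes + 0 + 1 + 0 + 1 + 0 + 1 = _
  rw [num_app, H1.ch_num, H1.ch_num]
  omega

/-- an E triple over an explicit word without parts 2, 3 -/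
theorem tri_of {Y : BinaryTree Unit} (hnum : Y.numNodes + 1 = k) {b c : X k} (hb : b.1 = app Y (.nil △ .nil))
    (hc : c.1 = .nil △ Y) (hne : cyc b ≠ cyc c) (h2 : (OddHC.cont Y).count 2 = 0) (h3 : (OddHC.cont Y).count 3 = 0)
    (h4 : 1 ≤ (OddHC.cont Y).count 4) (hx : EfX k Y) : ∃ g, TyEf {cyc b, cyc c} g := by
  obtain ⟨j, hj⟩ : ∃ j, j = (red Y).1.numNodes := ⟨_, rfl⟩
  obtain ⟨r, hr⟩ : ∃ r : X j, r.1 = (red Y).1 := ⟨⟨_, mem_treesOfNumNodesEq.2 hj.symm⟩, rfl⟩
  obtain ⟨f, hf⟩ := exists_lf (n := 2 * j + 1) (e := (red Y).2) (by rw [red_len, hj])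
  have hX : Y = ins r.1 (lf f) := by rw [hr, ← hf, ins_red]
  have hl : (lf f).length = 2 * r.1.numNodes + 1 := by rw [lf_length, X_num]
  have hD : Deep r.1 := by
    have e2 : (OddHC.cont Y).count 2 = (OddHC.cont r.1).count 1 := by
      rw [hX]
      exact H1.count_ins hl 0
    have e3 : (OddHC.cont Y).count 3 = (OddHC.cont r.1).count 2 := by
      rw [hX]
      exact H1.count_ins hl 1
    exact ⟨by omega, by omega⟩
  have hj1 : 1 ≤ j := by
    by_contra h0
    have h0' : j = 0 := by omega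
    have hn : (OddHC.cont r.1) = 0 := by
      rw [cont_eq_zero]
      have := X_num r
      cases hr0 : r.1 with
      | nil => rfl
      | node _ A B =>
        rw [hr0] at this
        change A.numNodes + B.numNodes + 1 = j at this
        omega
    have e4 : (OddHC.cont Y).count 4 = (OddHC.cont r.1).count 3 := by
      rw [hX]
      exact H1.count_ins hl 2
    rw [hn, Multiset.count_zero] at e4
    omega
  obtain ⟨a, ha⟩ : ∃ a : X k, a.1 = w1 .nil Y .nil := by
    refine ⟨⟨_, mem_treesOfNumNodesEq.2 ?_⟩, rfl⟩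
    change Y.numNodes + 0 + 1 = k
    exact hnum
  have hX1 : 1 ≤ OddHC.ht Y := by
    cases Y with
    | nil => simp [OddHC.cont_nil] at h4
    | node _ A B => rw [ht_node]; omega
  have h0 : OddHC.ht (.nil : BinaryTree Unit) = 0 := rfl
  have ht : IsTri .nil Y .nil {cyc b, cyc c} (pDG {a, b, c} (cyc b) (cyc c) ∅) := by
    refine ⟨a, b, c, ha, hb, hc, hne, ?_, ?_, rfl, rfl⟩
    · rw [htc_cyc, htc_cyc, hb, hc, ht_app, ht_node, ht_node]
      omega
    · rw [htc_cyc, htc_cyc, hb, ha, ht_app, ht_node]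
      change _ < OddHC.ht (Y △ .nil)
      rw [ht_node]
      omega
  refine ⟨pDG {a, b, c} (cyc b) (cyc c) ∅, ⟨Or.inr ⟨j, r, f, hj1, hD, ?_⟩, fun Z hZ => ?_⟩⟩
  · rw [← hX]
    exact ht
  · rw [hZ.X_inj ht]
    exact hx

theorem efX_of {Y : BinaryTree Unit} (h2 : (OddHC.cont Y).count 2 = 0) (h3 : 1 ≤ (OddHC.cont Y).count 1)
    (h5 : ∀ n, n + 7 = k → comps (Tsq.mir Y) ≠ [H1.ch n, H1.ch 3, .nil] ∧
      comps (Tsq.mir Y) ≠ [.nil, H1.ch n, H1.ch 3] ∧ comps (Tsq.mir Y) ≠ [J1.RS n] ∧
      comps (Tsq.mir Y) ≠ [H1.ch (n + 1), H1.ch 3] ∧ comps (Tsq.mir Y) ≠ [H1.ch n, H1.ch 4]) : EfX k Y := by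
  refine ⟨?_, ?_, ?_⟩
  · intro hb
    cases hb with
    | m3 n' b hn' hb hc' hp =>
      rw [hc', Multiset.count_add, Multiset.count_add, Multiset.count_replicate, if_pos rfl] at h2
      omega
    | m2 n' b hn' hb hc' hp =>
      rw [hc', Multiset.count_add, Multiset.count_add, Multiset.count_replicate, if_pos rfl] at h2
      omega
  · intro n hn hk e
    rw [e, cont_app, H1.ch_cont, H1.ch_cont, Multiset.count_add, Multiset.count_singleton,
      Multiset.count_singleton, if_neg (by omega), if_neg (by omega)] at h3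
    omega
  · intro n hn hk hcr
    obtain ⟨g1, g2, g3, g4, g5⟩ := h5 n hk
    rcases hcr with h | h | h | h | h
    · exact g1 h
    · exact g2 h
    · exact g3 h
    · exact g4 h
    · exact g5 h

theorem cont_of {Y : BinaryTree Unit} {m : ℕ} (hm : 4 ≤ m)
    (h : OddHC.cont Y + {1} = {m + 3} + {4} + {1} + {1}) :
    (OddHC.cont Y).count 1 = 1 ∧ (OddHC.cont Y).count 2 = 0 ∧ (OddHC.cont Y).count 3 = 0 ∧
      (OddHC.cont Y).count 4 = 1 := by
  have e : OddHC.cont Y = {m + 3} + {4} + {1} := add_right_cancel h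
  rw [e]
  simp only [Multiset.count_add, Multiset.count_singleton]
  refine ⟨?_, ?_, ?_, ?_⟩
  · rw [if_neg (by omega)]; rfl
  · rw [if_neg (by omega)]; rfl
  · rw [if_neg (by omega)]; rfl
  · rw [if_neg (by omega)]; rfl

theorem cont_cyc {x y : X k} (h : cyc x = cyc y) : OddHC.cont x.1 = OddHC.cont y.1 := by
  have := congrArg contc h
  exact this

/-- **the pair `()[4][s]()`, `()()[4][s]`** -/
theorem pairA {m : ℕ} (hm : 4 ≤ m) (hk : m + 9 = k) {x y : X k}
    (hx : x.1 = .nil △ app (H1.ch 4) (app (H1.ch (m + 3)) (.nil △ .nil)))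
    (hy : y.1 = .nil △ (.nil △ app (H1.ch 4) (H1.ch (m + 3)))) (hne : cyc x ≠ cyc y) :
    ∃ g, TyEf {cyc x, cyc y} g := by
  have hnum : (.nil △ R4 m : BinaryTree Unit).numNodes + 1 = k := by
    change 0 + (R4 m).numNodes + 1 + 1 = k
    rw [R4_num]
    omega
  obtain ⟨_, b, c, _, hb, hc⟩ := e_words hnum
  have e1 : cyc x = cyc b := by
    refine (rcB hm).cyc ?_ ?_
    · rw [hx, wd_node, wd_app, wd_app, H1.wd_ch, H1.wd_ch]
      simp [I, O, wd]
    · rw [hb, wd_app, wd_node, wd_R4]
      simp [I, O, wd]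
  have e2 : cyc y = cyc c := by
    refine (rcA hm).cyc ?_ ?_
    · rw [hy, wd_node, wd_node, wd_app, H1.wd_ch, H1.wd_ch]
      simp [I, O, wd]
    · rw [hc, wd_node, wd_node, wd_R4]
      simp [I, O, wd]
  have hC : OddHC.cont (.nil △ R4 m) + {1} = {m + 3} + {4} + {1} + {1} := by
    have g1 : OddHC.cont b.1 = OddHC.cont (.nil △ R4 m) + {1} := by
      rw [hb, cont_app]
      rfl
    rw [← g1, ← cont_cyc e1, hx, cont_node, cont_app, cont_app, H1.ch_cont, H1.ch_cont]
    change ({1} : Multiset ℕ) + ({4} + ({m + 3} + {1})) = _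
    abel
  obtain ⟨c1, c2, c3, c4⟩ := cont_of hm hC
  rw [e1, e2] at hne ⊢
  refine tri_of hnum hb hc hne c2 c3 (by omega) (efX_of c2 (by omega) ?_)
  intro n hn
  have e : Tsq.mir (.nil △ R4 m) = app (Tsq.mir (R4 m)) (.nil △ .nil) := rfl
  obtain ⟨A, hA⟩ : ∃ A, Tsq.mir (R4 m) = A △ .nil := ⟨_, rfl⟩
  have e' : comps (Tsq.mir (.nil △ R4 m)) = [A, .nil] := by
    rw [e, hA]
    rfl
  rw [e']
  refine ⟨?_, ?_, ?_, ?_, ?_⟩ <;> simp [H1.ch]

/-- **the pair `[4][s]()()`, `()[4][s]()`** -/
theorem pairB {m : ℕ} (hm : 4 ≤ m) (hk : m + 9 = k) {x y : X k}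
    (hx : x.1 = app (H1.ch 4) (app (H1.ch (m + 3)) (.nil △ (.nil △ .nil))))
    (hy : y.1 = .nil △ app (H1.ch 4) (app (H1.ch (m + 3)) (.nil △ .nil))) (hne : cyc x ≠ cyc y) :
    ∃ g, TyEf {cyc x, cyc y} g := by
  have hnum : (app (R4 m) (.nil △ .nil) : BinaryTree Unit).numNodes + 1 = k := by
    rw [num_app, R4_num]
    change m + 7 + 1 + 1 = k
    omega
  obtain ⟨_, b, c, _, hb, hc⟩ := e_words hnum
  have e1 : cyc x = cyc b := by
    refine (rcC hm).cyc ?_ ?_
    · rw [hx, wd_app, wd_app, H1.wd_ch, H1.wd_ch]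
      simp [I, O, wd]
    · rw [hb, wd_app, wd_app, wd_R4]
      simp [I, O, wd]
  have e2 : cyc y = cyc c := by
    refine (rcB hm).cyc ?_ ?_
    · rw [hy, wd_node, wd_app, wd_app, H1.wd_ch, H1.wd_ch]
      simp [I, O, wd]
    · rw [hc, wd_node, wd_app, wd_R4]
      simp [I, O, wd]
  have hC : OddHC.cont (app (R4 m) (.nil △ .nil)) + {1} = {m + 3} + {4} + {1} + {1} := by
    have g1 : OddHC.cont b.1 = OddHC.cont (app (R4 m) (.nil △ .nil)) + {1} := by
      rw [hb, cont_app (app (R4 m) (.nil △ .nil))]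
      rfl
    rw [← g1, ← cont_cyc e1, hx, cont_app, cont_app, H1.ch_cont, H1.ch_cont]
    change ({4} : Multiset ℕ) + ({m + 3} + ({1} + {1})) = _
    abel
  obtain ⟨c1, c2, c3, c4⟩ := cont_of hm hC
  rw [e1, e2] at hne ⊢
  refine tri_of hnum hb hc hne c2 c3 (by omega) (efX_of c2 (by omega) ?_)
  intro n hn
  obtain ⟨A, hA⟩ : ∃ A, Tsq.mir (R4 m) = A △ .nil := ⟨_, rfl⟩
  have hA0 : A ≠ .nil := by
    rintro rfl
    have h1 := congrArg BinaryTree.numNodes hA
    rw [Tsq.mir_num, R4_num] at h1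
    change m + 7 = 0 + 0 + 1 at h1
    omega
  have e' : comps (Tsq.mir (app (R4 m) (.nil △ .nil))) = [.nil, A] := by
    rw [Tsq.mir_app, hA]
    rfl
  rw [e']
  refine ⟨?_, ?_, ?_, ?_, ?_⟩
  · simp
  · simp
  · simp
  · intro h
    simp [H1.ch] at h
  · intro h
    rw [List.cons.injEq] at h
    have h2 := congrArg BinaryTree.numNodes h.1
    rw [H1.ch_num] at h2
    change 0 = n at h2
    omega

/-- the critical words with one bead outside -/
theorem crY_one {n : ℕ} (hn : 4 ≤ n) {Y : BinaryTree Unit} (h : J1.CrY n Y) (h1 : 1 ≤ (OddHC.cont Y).count 1) :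
    Y = app (H1.ch (n + 1)) (app (H1.ch 4) (H1.ch 1)) ∨ Y = app (H1.ch 1) (app (H1.ch (n + 1)) (H1.ch 4)) := by
  rcases h with h | h | h | h | h
  · exact Or.inl (comps_inj (h.trans rfl))
  · exact Or.inr (comps_inj (h.trans rfl))
  · exfalso
    have e : Y = J1.RS n △ .nil := comps_inj (h.trans rfl)
    have hc : OddHC.cont (J1.RS n) = {n + 1} + {4} := by
      rw [← J1.RS_eq, cont_app, H1.ch_cont, H1.ch_cont]
    have hs : (OddHC.cont (J1.RS n)).sup = n + 1 := by
      rw [hc, sup_add', Multiset.sup_singleton, Multiset.sup_singleton]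
      exact max_eq_left (by omega)
    rw [e, cont_node, cont_nil, add_zero, count_raise 1 (by rw [hs]; omega) (by rw [hs]; omega), hc] at h1
    simp only [Multiset.count_add, Multiset.count_singleton] at h1
    rw [if_neg (by omega), if_neg (by omega)] at h1
    omega
  · exfalso
    have e : Y = app (H1.ch (n + 2)) (H1.ch 4) := comps_inj (h.trans rfl)
    rw [e, cont_app, H1.ch_cont, H1.ch_cont] at h1
    simp only [Multiset.count_add, Multiset.count_singleton] at h1
    rw [if_neg (by omega), if_neg (by omega)] at h1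
    omega
  · exfalso
    have e : Y = app (H1.ch (n + 1)) (H1.ch 5) := comps_inj (h.trans rfl)
    rw [e, cont_app, H1.ch_cont, H1.ch_cont] at h1
    simp only [Multiset.count_add, Multiset.count_singleton] at h1
    rw [if_neg (by omega), if_neg (by omega)] at h1
    omega

end E4

variable {k : ℕ} {F : Set (Cyc k)} {g : DG k}

/-- **SUPPLY of type Ef for the content `(k-6, 4, 1, 1)`** -/
theorem TyEG.toEf4 (h : TyEG F g) (h13 : 13 ≤ k) (hF : ∃ c ∈ F, contc c = {k - 6} + {4} + {1} + {1}) :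
    ∃ g', TyEf F g' := by
  obtain ⟨m, rfl⟩ : ∃ m, k = m + 9 := ⟨k - 9, by omega⟩
  have hm : 4 ≤ m := by omega
  obtain ⟨j, r, f, _, _, hY⟩ := h.toE
  obtain ⟨Y, hYe⟩ : ∃ Y, Y = ins r.1 (lf f) := ⟨_, rfl⟩
  rw [← hYe] at hY
  by_cases hx : EfX (m + 9) Y
  · exact ⟨g, h.1, fun Z hZ => by rw [hZ.X_inj hY]; exact hx⟩
  obtain ⟨d, hd, hdc⟩ := hF
  have hC : OddHC.cont Y + {1} = {m + 3} + {4} + {1} + {1} := by
    rw [← hY.contX d hd, hdc]
    rfl
  obtain ⟨c1, c2, c3, c4⟩ := E4.cont_of hm hC
  have hcr : J1.CrY (m + 2) (Tsq.mir Y) := by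
    by_contra hcr
    refine hx ⟨h.2 Y hY, ?_, ?_⟩
    · intro n hn hk e
      rw [e, cont_app, H1.ch_cont, H1.ch_cont, Multiset.count_add, Multiset.count_singleton,
        Multiset.count_singleton, if_neg (by omega), if_neg (by omega)] at c1
      omega
    · intro n hn hk
      obtain rfl : n = m + 2 := by omega
      exact hcr
  have hmir := E4.crY_one (by omega) hcr (by rw [HM.cont_mir]; omega)
  obtain ⟨a, b, c, ha, hb, hc', hne, e2, e3, rfl, rfl⟩ := hY
  have hb' : b.1 = app Y (.nil △ .nil) := hb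
  have hc : c.1 = .nil △ Y := hc'
  rcases hmir with e | e
  · have hYY : Y = .nil △ app (H1.ch 4) (H1.ch (m + 3)) := by
      have := congrArg Tsq.mir e
      rw [Tsq.mir_mir, Tsq.mir_app, Tsq.mir_app, J1.mir_ch_t, J1.mir_ch_t, J1.mir_ch_t] at this
      rw [this]
      rfl
    rw [hYY] at hb' hc
    refine E4.pairA hm rfl ?_ hc hne
    rw [hb']
    change (.nil △ app (app (H1.ch 4) (H1.ch (m + 3))) (.nil △ .nil) : BinaryTree Unit) = _
    rw [H1.app_assoc]
  · have hYY : Y = app (H1.ch 4) (app (H1.ch (m + 3)) (.nil △ .nil)) := by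
      have := congrArg Tsq.mir e
      rw [Tsq.mir_mir, Tsq.mir_app, Tsq.mir_app, J1.mir_ch_t, J1.mir_ch_t, J1.mir_ch_t, H1.app_assoc] at this
      rw [this]
      rfl
    rw [hYY] at hb' hc
    refine E4.pairB hm rfl ?_ hc hne
    rw [hb', H1.app_assoc, H1.app_assoc]
    rfl

end Pool.OddHC
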